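import Mathlib

/-!
# Howitt-Warren martingale problem and Howitt-Warren flow: definitions

The definitions follow the problem file `MP_b213bc_pr`.
-/

open MeasureTheory ProbabilityTheory Filter Topology
open scoped NNReal ENNReal

namespace Pool.Agent.Y982.HW

/-- `β₊(m)`: `β₊(1) = β` and `β₊(m) = β + 2 ∫ ν(dq) ∑_{k=0}^{m-2} (1 - q)^k` for `m ≥ 2`. -/
noncomputable def betaPlus (β : ℝ) (ν : Measure unitInterval) (k : ℕ) : ℝ :=
  β + 2 * ∫ q : unitInterval, ∑ j ∈ Finset.range (k - 1), (1 - (q : ℝ)) ^ j ∂ν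

/-- `g_Δ(x)`: the number of `i ∈ Δ` with `x_i = max_{j ∈ Δ} x_j`. -/
noncomputable def mult {n : ℕ} (Δ : Finset (Fin n)) (h : Δ.Nonempty) (x : Fin n → ℝ) : ℕ :=
  (Δ.filter fun i => x i = Δ.sup' h x).card

/-- `X` solves the Howitt-Warren martingale problem with drift `β` and characteristic measure `ν`,
started from `x`: a continuous square-integrable process with `X(0) = x`, with
`⟨X_i, X_j⟩(t) = ∫_0^t 1{X_i = X_j} ds`, and such that for all nonempty `Δ` the process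
`max_{i ∈ Δ} X_i(t) - ∫_0^t β₊(g_Δ(X(s))) ds` is a martingale for the natural filtration. The case
of a singleton `Δ` says that `X_i(t) - β t` is a martingale, so that the bracket condition says
that the product `(X_i(t) - β t)(X_j(t) - β t)` minus the bracket is a martingale. -/
structure HWSolution {Ω : Type*} [MeasurableSpace Ω] (P : Measure Ω) (β : ℝ) (ν : Measure unitInterval)
    {n : ℕ} (x : Fin n → ℝ) (X : ℝ≥0 → Ω → Fin n → ℝ) : Prop where
  meas : ∀ t, StronglyMeasurable (X t)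
  cont : ∀ ω i, Continuous fun t => X t ω i
  sq : ∀ t i, MemLp (fun ω => X t ω i) 2 P
  init : ∀ ω, X 0 ω = x
  bracket : ∀ i j, Martingale
    (fun t ω => (X t ω i - β * t) * (X t ω j - β * t) -
      ∫ s in (0 : ℝ)..t, (if X s.toNNReal ω i = X s.toNNReal ω j then (1 : ℝ) else 0))
    (Filtration.natural X meas) P
  top : ∀ (Δ : Finset (Fin n)) (h : Δ.Nonempty), Martingale
    (fun t ω => Δ.sup' h (X t ω) - ∫ s in (0 : ℝ)..t, betaPlus β ν (mult Δ h (X s.toNNReal ω)))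
    (Filtration.natural X meas) P

/-- A stochastic flow of kernels on `ℝ`: the random kernel `K_{s,t}(x, ·)` is
`K s t (ω, x)`. -/
structure IsKernelFlow {Ω : Type*} [MeasurableSpace Ω] (P : Measure Ω)
    (K : ℝ → ℝ → Kernel (Ω × ℝ) ℝ) : Prop where
  markov : ∀ s t, IsMarkovKernel (K s t)
  refl : ∀ s x, ∀ᵐ ω ∂P, K s s (ω, x) = Measure.dirac x
  comp : ∀ s t u, s ≤ t → t ≤ u → ∀ x, ∀ᵐ ω ∂P, ∀ A, MeasurableSet A →
    ∫⁻ y, K t u (ω, y) A ∂(K s t (ω, x)) = K s u (ω, x) A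
  indep : ∀ (k : ℕ) (t : Fin (k + 1) → ℝ), Monotone t →
    iIndepFun (fun (j : Fin k) ω (x : ℝ) => K (t j.castSucc) (t j.succ) (ω, x)) P
  stat : ∀ s t u, s ≤ t → ∀ (k : ℕ) (x : Fin k → ℝ) (A : Fin k → Set ℝ),
    (∀ i, MeasurableSet (A i)) →
    P.map (fun ω i => K s t (ω, x i) (A i)) =
      P.map (fun ω i => K (s + u) (t + u) (ω, x i) (A i))

/-- A Howitt-Warren flow with drift `β` and characteristic measure `ν`: a stochastic flow of
kernels whose `n`-point motions, given by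
`P(X_i(t) ∈ A_i for all i) = E ∏_i K_{0,t}(x_i, A_i)`, solve the Howitt-Warren martingale
problem. -/
structure IsHowittWarren {Ω : Type*} [MeasurableSpace Ω] (β : ℝ) (ν : Measure unitInterval) (P : Measure Ω)
    (K : ℝ → ℝ → Kernel (Ω × ℝ) ℝ) : Prop extends IsKernelFlow P K where
  npoint : ∀ (n : ℕ) (x : Fin n → ℝ), ∃ (Ω' : Type) (_ : MeasurableSpace Ω') (P' : Measure Ω')
    (X : ℝ≥0 → Ω' → Fin n → ℝ), IsProbabilityMeasure P' ∧ HWSolution P' β ν x X ∧
      ∀ (t : ℝ≥0) (A : Fin n → Set ℝ), (∀ i, MeasurableSet (A i)) →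
        P' {ω | ∀ i, X t ω i ∈ A i} = ∫⁻ ω, ∏ i, K 0 t (ω, x i) (A i) ∂P

/-- Finite speed: `∫ ν(dq) / (q (1 - q)) < ∞` (in particular `ν {0} = ν {1} = 0`). -/
def FiniteSpeed (ν : Measure unitInterval) : Prop :=
  ∫⁻ q : unitInterval, (ENNReal.ofReal ((q : ℝ) * (1 - (q : ℝ))))⁻¹ ∂ν < ∞

/-- The normalised quantity `(-log K_{0,t}(0, [tx, tx+1]) - a(t)) / b(t)`, with values in the
extended reals (`-log 0 = +∞`). -/
noncomputable def normalised {Ω : Type*} [MeasurableSpace Ω] (K : ℝ → ℝ → Kernel (Ω × ℝ) ℝ)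
    (x : ℝ) (a b : ℝ → ℝ) (t : ℝ) (ω : Ω) : EReal :=
  (-(ENNReal.log (K 0 t (ω, 0) (Set.Icc (t * x) (t * x + 1)))) - ((a t : ℝ) : EReal)) /
    ((b t : ℝ) : EReal)

/-- Convergence in distribution, as `t → ∞`, of extended-real random variables to a law on the
real line: convergence of the distribution functions at the continuity points of the limit. -/
def ConvergesInLaw {Ω : Type*} [MeasurableSpace Ω] (P : Measure Ω) (Y : ℝ → Ω → EReal)
    (χ : Measure ℝ) : Prop :=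
  ∀ u : ℝ, χ {u} = 0 → Tendsto (fun t => P {ω | Y t ω ≤ (u : EReal)}) atTop (𝓝 (χ (Set.Iic u)))

end Pool.Agent.Y982.HW
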