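import Mathlib
import Pool.Agent.Y982.HW.Defs

open MeasureTheory Filter Topology
open scoped NNReal ENNReal

namespace Pool.Agent.Y982.HW

variable {n : ℕ}

/-- maximum over a finite set, zero for the empty set -/
noncomputable def mx (Γ : Finset (Fin n)) (x : Fin n → ℝ) : ℝ :=
  if h : Γ.Nonempty then Γ.sup' h x else 0

/-- number of maximisers, zero for the empty set -/
noncomputable def ml (Γ : Finset (Fin n)) (x : Fin n → ℝ) : ℕ :=
  if h : Γ.Nonempty then mult Γ h x else 0

/-- sign of a subset, zero for the empty set -/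
noncomputable def sg (Γ : Finset (Fin n)) : ℝ :=
  if Γ.Nonempty then (-1) ^ (Γ.card + 1) else 0

theorem sg_empty : sg (∅ : Finset (Fin n)) = 0 := by simp [sg]

theorem sg_insert {Γ : Finset (Fin n)} {a : Fin n} (ha : a ∉ Γ) :
    sg (insert a Γ) = (-1) ^ Γ.card := by
  simp only [sg, Finset.insert_nonempty, if_true, Finset.card_insert_of_notMem ha]
  rw [pow_succ, pow_succ]; ring

theorem sg_eq {Γ : Finset (Fin n)} (h : Γ.Nonempty) : sg Γ = -(-1) ^ Γ.card := by
  simp only [sg, h, if_true, pow_succ]; ring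

/-- The maximum-minimum identity. -/
theorem inf_eq (Δ : Finset (Fin n)) (h : Δ.Nonempty) (x : Fin n → ℝ) :
    Δ.inf' h x = ∑ Γ ∈ Δ.powerset, sg Γ * mx Γ x := by
  classical
  induction h using Finset.Nonempty.cons_induction generalizing x with
  | singleton a =>
    have : ({a} : Finset (Fin n)).powerset = {∅, {a}} := by
      ext s; simp [Finset.subset_singleton_iff]
    rw [this, Finset.sum_insert (by simp), Finset.sum_singleton]
    simp [sg, mx]
  | cons a s ha hs ih =>
    rw [Finset.inf'_cons hs, Finset.cons_eq_insert, Finset.sum_powerset_insert ha, ← ih x]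
    have h2 := ih (fun i => max (x a) (x i))
    have h3 : s.inf' hs (fun i => max (x a) (x i)) = max (x a) (s.inf' hs x) := by
      apply le_antisymm
      · obtain ⟨j, hj, hj2⟩ := Finset.exists_mem_eq_inf' hs x
        rw [hj2]
        exact Finset.inf'_le (f := fun i => max (x a) (x i)) hj
      · refine Finset.le_inf' _ _ fun i hi => ?_
        exact max_le_max le_rfl (Finset.inf'_le _ hi)
    have h4 : ∀ Γ ∈ s.powerset, sg (insert a Γ) * mx (insert a Γ) x =
        (if Γ = ∅ then x a else 0) - sg Γ * mx Γ (fun i => max (x a) (x i)) := by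
      intro Γ hΓ
      have haΓ : a ∉ Γ := fun h => ha (Finset.mem_powerset.mp hΓ h)
      rw [sg_insert haΓ]
      rcases Γ.eq_empty_or_nonempty with h5 | h5
      · subst h5
        simp [mx, sg_empty]
      · rw [if_neg h5.ne_empty, sg_eq h5]
        have h6 : mx (insert a Γ) x = mx Γ (fun i => max (x a) (x i)) := by
          simp only [mx, Finset.insert_nonempty, h5, dite_true]
          rw [Finset.sup'_insert (H := h5)]
          apply le_antisymm
          · obtain ⟨j, hj⟩ := h5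
            refine max_le ?_ ?_
            · exact (le_max_left _ _).trans
                (Finset.le_sup' (f := fun i => max (x a) (x i)) hj)
            · refine Finset.sup'_le _ _ fun i hi => ?_
              exact (le_max_right _ _).trans
                (Finset.le_sup' (f := fun i => max (x a) (x i)) hi)
          · refine Finset.sup'_le _ _ fun i hi => ?_
            exact max_le_max le_rfl (Finset.le_sup' _ hi)
        rw [h6]; ring
    rw [Finset.sum_congr rfl h4, Finset.sum_sub_distrib, ← h2, h3]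
    rw [Finset.sum_ite_eq' s.powerset ∅ (fun _ => x a)]
    simp only [Finset.empty_mem_powerset, if_true]
    rcases le_total (x a) (s.inf' hs x) with h5 | h5
    · rw [max_eq_right h5, inf_eq_left.mpr h5]; ring
    · rw [max_eq_left h5, inf_eq_right.mpr h5]; ring

theorem ml_insert {Γ : Finset (Fin n)} {a : Fin n} (ha : a ∉ Γ) {x : Fin n → ℝ}
    (hmax : ∀ i ∈ Γ, x i ≤ x a) :
    ml (insert a Γ) x = 1 + (Γ.filter fun i => x i = x a).card := by
  classical
  have h1 : (insert a Γ).sup' (Finset.insert_nonempty _ _) x = x a := by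
    apply le_antisymm
    · refine Finset.sup'_le _ _ fun i hi => ?_
      rcases Finset.mem_insert.mp hi with h | h
      · rw [h]
      · exact hmax i h
    · exact Finset.le_sup' _ (Finset.mem_insert_self a Γ)
  simp only [ml, Finset.insert_nonempty, dite_true, mult, h1]
  rw [Finset.filter_insert, if_pos rfl, Finset.card_insert_of_notMem (by simp [ha])]
  ring

theorem weight_le (p q : ℝ) (hp : 0 ≤ p) (hq : 0 ≤ q) (hpq : p + q = 1) (x : Fin n → ℝ)
    (Δ : Finset (Fin n)) :
    ∑ Γ ∈ Δ.powerset, sg Γ * p ^ (ml Γ x) ≤ 1 - q ^ Δ.card := by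
  classical
  induction Δ using Finset.induction_on_max_value x with
  | empty => simp [sg_empty]
  | insert a s ha hmax ih =>
    rw [Finset.sum_powerset_insert ha, Finset.card_insert_of_notMem ha]
    have h1 : ∀ Γ ∈ s.powerset, sg (insert a Γ) * p ^ (ml (insert a Γ) x) =
        p * ∏ i ∈ Γ, (-(if x i = x a then p else 1)) := by
      intro Γ hΓ
      have hΓ' := Finset.mem_powerset.mp hΓ
      have haΓ : a ∉ Γ := fun h => ha (hΓ' h)
      rw [sg_insert haΓ, ml_insert haΓ (fun i hi => hmax i (hΓ' hi)), Finset.prod_neg,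
        Finset.prod_ite, Finset.prod_const, Finset.prod_const_one, mul_one, pow_add, pow_one]
      ring
    rw [Finset.sum_congr rfl h1, ← Finset.mul_sum, ← Finset.prod_one_add]
    have h2 : ∏ i ∈ s, (1 + -(if x i = x a then p else 1)) ≤ q ^ s.card := by
      calc ∏ i ∈ s, (1 + -(if x i = x a then p else 1)) ≤ ∏ i ∈ s, q := by
            refine Finset.prod_le_prod (fun i _ => ?_) (fun i _ => ?_)
            · split_ifs <;> linarith
            · split_ifs <;> linarith
        _ = q ^ s.card := by simp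
    have h3 : p * ∏ i ∈ s, (1 + -(if x i = x a then p else 1)) ≤ p * q ^ s.card :=
      mul_le_mul_of_nonneg_left h2 hp
    have h4 : p * q ^ s.card = q ^ s.card - q ^ (s.card + 1) := by
      have : p = 1 - q := by linarith
      rw [this, pow_succ]; ring
    linarith

theorem sum_sg {Δ : Finset (Fin n)} (h : Δ.Nonempty) : ∑ Γ ∈ Δ.powerset, sg Γ = 1 := by
  have h1 := inf_eq Δ h (fun _ => (1 : ℝ))
  have h2 : Δ.inf' h (fun _ => (1 : ℝ)) = 1 := Finset.inf'_const h 1
  rw [h2] at h1
  rw [h1]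
  refine Finset.sum_congr rfl fun Γ _ => ?_
  rcases Γ.eq_empty_or_nonempty with h5 | h5
  · subst h5; simp [sg_empty]
  · simp [mx, h5]

/-- The drift of the minimum, for a fixed value of `q`. -/
theorem drift_q {q : ℝ} (hq0 : 0 < q) (hq1 : q < 1) (x : Fin n → ℝ) {Δ : Finset (Fin n)}
    (h : Δ.Nonempty) :
    -(1 / (q * (1 - q))) ≤
      ∑ Γ ∈ Δ.powerset, sg Γ * ∑ j ∈ Finset.range (ml Γ x - 1), (1 - q) ^ j := by
  have h1 : ∀ Γ ∈ Δ.powerset, q * (1 - q) * (sg Γ * ∑ j ∈ Finset.range (ml Γ x - 1), (1 - q) ^ j) =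
      (1 - q) * sg Γ - sg Γ * (1 - q) ^ (ml Γ x) := by
    intro Γ _
    rcases Γ.eq_empty_or_nonempty with h5 | h5
    · subst h5; simp [sg_empty]
    · have hml : 1 ≤ ml Γ x := by
        simp only [ml, h5, dite_true, mult]
        rw [Nat.one_le_iff_ne_zero]
        obtain ⟨j, hj, hj2⟩ := Finset.exists_mem_eq_sup' h5 x
        exact Finset.card_ne_zero_of_mem (Finset.mem_filter.mpr ⟨hj, hj2.symm⟩)
      obtain ⟨k, hk⟩ : ∃ k, ml Γ x = k + 1 := ⟨ml Γ x - 1, by omega⟩
      rw [hk, Nat.add_sub_cancel]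
      have h6 := geom_sum_mul (1 - q) k
      have h7 : q * ∑ j ∈ Finset.range k, (1 - q) ^ j = 1 - (1 - q) ^ k := by
        have : (1 - q - 1) = -q := by ring
        rw [this] at h6
        linarith
      calc q * (1 - q) * (sg Γ * ∑ j ∈ Finset.range k, (1 - q) ^ j)
          = (1 - q) * sg Γ * (q * ∑ j ∈ Finset.range k, (1 - q) ^ j) := by ring
        _ = _ := by rw [h7, pow_succ]; ring
  have h2 : q * (1 - q) * ∑ Γ ∈ Δ.powerset, sg Γ * ∑ j ∈ Finset.range (ml Γ x - 1), (1 - q) ^ j =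
      (1 - q) - ∑ Γ ∈ Δ.powerset, sg Γ * (1 - q) ^ (ml Γ x) := by
    rw [Finset.mul_sum, Finset.sum_congr rfl h1, Finset.sum_sub_distrib, ← Finset.mul_sum,
      sum_sg h, mul_one]
  have h3 := weight_le (1 - q) q (by linarith) hq0.le (by ring) x Δ
  have h4 : 0 ≤ q ^ Δ.card := by positivity
  have h5 : 0 < q * (1 - q) := mul_pos hq0 (by linarith)
  rw [neg_le]
  have h6 : q * (1 - q) * (-(∑ Γ ∈ Δ.powerset, sg Γ * ∑ j ∈ Finset.range (ml Γ x - 1), (1 - q) ^ j))
      ≤ q * (1 - q) * (1 / (q * (1 - q))) := by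
    rw [mul_one_div_cancel h5.ne', mul_neg, h2]
    linarith
  exact le_of_mul_le_mul_left h6 h5

/-- The speed bound. -/
noncomputable def spd (ν : Measure unitInterval) : ℝ :=
  2 * ∫ q : unitInterval, 1 / ((q : ℝ) * (1 - (q : ℝ))) ∂ν

theorem fs_ae {ν : Measure unitInterval} (h : FiniteSpeed ν) :
    ∀ᵐ q : unitInterval ∂ν, 0 < (q : ℝ) ∧ (q : ℝ) < 1 := by
  have hm : Measurable fun q : unitInterval => (ENNReal.ofReal ((q : ℝ) * (1 - (q : ℝ))))⁻¹ := by
    fun_prop
  filter_upwards [ae_lt_top hm h.ne] with q hq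
  rw [ENNReal.inv_lt_top, ENNReal.ofReal_pos] at hq
  have h0 := q.2.1
  have h1 := q.2.2
  constructor
  · rcases eq_or_lt_of_le h0 with h2 | h2
    · rw [← h2] at hq; simp at hq
    · exact h2
  · rcases eq_or_lt_of_le h1 with h2 | h2
    · rw [h2] at hq; simp at hq
    · exact h2

theorem fs_int {ν : Measure unitInterval} (h : FiniteSpeed ν) :
    Integrable (fun q : unitInterval => 1 / ((q : ℝ) * (1 - (q : ℝ)))) ν := by
  have hm : Measurable fun q : unitInterval => (ENNReal.ofReal ((q : ℝ) * (1 - (q : ℝ))))⁻¹ := by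
    fun_prop
  have h1 := integrable_toReal_of_lintegral_ne_top hm.aemeasurable h.ne
  refine h1.congr (Eventually.of_forall fun q => ?_)
  simp only [ENNReal.toReal_inv]
  rw [ENNReal.toReal_ofReal (mul_nonneg q.2.1 (by linarith [q.2.2])), one_div]

theorem pow_int (ν : Measure unitInterval) [IsFiniteMeasure ν] (k : ℕ) :
    Integrable (fun q : unitInterval => ∑ j ∈ Finset.range k, (1 - (q : ℝ)) ^ j) ν := by
  refine Integrable.of_bound (C := (k : ℝ)) ?_ (Eventually.of_forall fun q => ?_)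
  · have : Measurable fun q : unitInterval => ∑ j ∈ Finset.range k, (1 - (q : ℝ)) ^ j := by
      fun_prop
    exact this.aestronglyMeasurable
  · have h0 := q.2.1
    have h1 := q.2.2
    rw [Real.norm_eq_abs, abs_of_nonneg (Finset.sum_nonneg fun j _ => pow_nonneg (by linarith) j)]
    calc ∑ j ∈ Finset.range k, (1 - (q : ℝ)) ^ j ≤ ∑ j ∈ Finset.range k, (1 : ℝ) :=
          Finset.sum_le_sum fun j _ => pow_le_one₀ (by linarith) (by linarith)
      _ = k := by simp

theorem spd_nonneg (ν : Measure unitInterval) : 0 ≤ spd ν := by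
  unfold spd
  refine mul_nonneg (by norm_num) (integral_nonneg fun q => ?_)
  have h0 := q.2.1
  have h1 := q.2.2
  exact one_div_nonneg.mpr (mul_nonneg h0 (by linarith))

theorem betaPlus_ge (β : ℝ) (ν : Measure unitInterval) (k : ℕ) : β ≤ betaPlus β ν k := by
  unfold betaPlus
  have : 0 ≤ ∫ q : unitInterval, ∑ j ∈ Finset.range (k - 1), (1 - (q : ℝ)) ^ j ∂ν := by
    refine integral_nonneg fun q => ?_
    exact Finset.sum_nonneg fun j _ => pow_nonneg (by linarith [q.2.2]) j
  linarith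

theorem betaPlus_le (β : ℝ) {ν : Measure unitInterval} [IsFiniteMeasure ν] (h : FiniteSpeed ν)
    (k : ℕ) : betaPlus β ν k ≤ β + spd ν := by
  unfold betaPlus spd
  have : ∫ q : unitInterval, ∑ j ∈ Finset.range (k - 1), (1 - (q : ℝ)) ^ j ∂ν ≤
      ∫ q : unitInterval, 1 / ((q : ℝ) * (1 - (q : ℝ))) ∂ν := by
    refine integral_mono_ae (pow_int ν _) (fs_int h) ?_
    filter_upwards [fs_ae h] with q hq
    have h6 := geom_sum_mul (1 - (q : ℝ)) (k - 1)
    have h7 : (q : ℝ) * ∑ j ∈ Finset.range (k - 1), (1 - (q : ℝ)) ^ j =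
        1 - (1 - (q : ℝ)) ^ (k - 1) := by
      have : (1 - (q : ℝ) - 1) = -(q : ℝ) := by ring
      rw [this] at h6
      linarith
    have h8 : 0 ≤ (1 - (q : ℝ)) ^ (k - 1) := pow_nonneg (by linarith) _
    have h9 : 0 < (q : ℝ) * (1 - q) := mul_pos hq.1 (by linarith)
    have h10 : 0 ≤ ∑ j ∈ Finset.range (k - 1), (1 - (q : ℝ)) ^ j :=
      Finset.sum_nonneg fun j _ => pow_nonneg (by linarith) j
    rw [le_div_iff₀ h9]
    calc (∑ j ∈ Finset.range (k - 1), (1 - (q : ℝ)) ^ j) * ((q : ℝ) * (1 - q))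
        = ((q : ℝ) * ∑ j ∈ Finset.range (k - 1), (1 - (q : ℝ)) ^ j) * (1 - q) := by ring
      _ ≤ 1 * (1 - q) := by
          apply mul_le_mul_of_nonneg_right _ (by linarith)
          linarith
      _ ≤ 1 := by linarith
  linarith

/-- The drift of the minimum over `Δ`. -/
noncomputable def dmin (β : ℝ) (ν : Measure unitInterval) (Δ : Finset (Fin n)) (x : Fin n → ℝ) :
    ℝ := ∑ Γ ∈ Δ.powerset, sg Γ * betaPlus β ν (ml Γ x)

theorem dmin_ge (β : ℝ) {ν : Measure unitInterval} [IsFiniteMeasure ν] (h : FiniteSpeed ν)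
    {Δ : Finset (Fin n)} (hΔ : Δ.Nonempty) (x : Fin n → ℝ) :
    β - spd ν ≤ dmin β ν Δ x := by
  have h1 : dmin β ν Δ x = β + 2 * ∫ q : unitInterval,
      ∑ Γ ∈ Δ.powerset, sg Γ * ∑ j ∈ Finset.range (ml Γ x - 1), (1 - (q : ℝ)) ^ j ∂ν := by
    rw [integral_finsetSum _ (fun Γ _ => (pow_int ν _).const_mul _)]
    simp only [integral_const_mul]
    unfold dmin betaPlus
    have h2 := sum_sg hΔ
    calc ∑ Γ ∈ Δ.powerset, sg Γ * (β + 2 * ∫ q : unitInterval,
          ∑ j ∈ Finset.range (ml Γ x - 1), (1 - (q : ℝ)) ^ j ∂ν)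
        = ∑ Γ ∈ Δ.powerset, (β * sg Γ + 2 * (sg Γ * ∫ q : unitInterval,
          ∑ j ∈ Finset.range (ml Γ x - 1), (1 - (q : ℝ)) ^ j ∂ν)) :=
          Finset.sum_congr rfl fun Γ _ => by ring
      _ = _ := by rw [Finset.sum_add_distrib, ← Finset.mul_sum, ← Finset.mul_sum, h2, mul_one]
  rw [h1]
  unfold spd
  have h2 : -∫ q : unitInterval, 1 / ((q : ℝ) * (1 - (q : ℝ))) ∂ν ≤ ∫ q : unitInterval,
      ∑ Γ ∈ Δ.powerset, sg Γ * ∑ j ∈ Finset.range (ml Γ x - 1), (1 - (q : ℝ)) ^ j ∂ν := by
    rw [← integral_neg]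
    refine integral_mono_ae (fs_int h).neg
      (integrable_finsetSum _ fun Γ _ => (pow_int ν _).const_mul _) ?_
    filter_upwards [fs_ae h] with q hq
    exact drift_q hq.1 hq.2 x hΔ
  linarith

end Pool.Agent.Y982.HW
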