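import Mathlib

open MeasureTheory Filter Topology
open scoped NNReal ENNReal

namespace Pool.Agent.Y982.HW

variable {Ω : Type*} {m : MeasurableSpace Ω} {𝓕 : Filtration ℝ≥0 m}

/-- First time in `[0, T]` at which the process is nonpositive, or `T`. -/
noncomputable def hit (Φ : ℝ≥0 → Ω → ℝ) (T : ℝ≥0) (ω : Ω) : ℝ≥0 :=
  sInf ({u | u ≤ T ∧ Φ u ω ≤ 0} ∪ {T})

variable {Φ : ℝ≥0 → Ω → ℝ} {T : ℝ≥0} {ω : Ω}

theorem hit_le (Φ : ℝ≥0 → Ω → ℝ) (T : ℝ≥0) (ω : Ω) : hit Φ T ω ≤ T :=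
  csInf_le (OrderBot.bddBelow _) (Or.inr rfl)

theorem hit_le_of {u : ℝ≥0} (hu : u ≤ T) (h : Φ u ω ≤ 0) : hit Φ T ω ≤ u :=
  csInf_le (OrderBot.bddBelow _) (Or.inl ⟨hu, h⟩)

theorem pos_of_lt_hit {u : ℝ≥0} (hu : u < hit Φ T ω) : 0 < Φ u ω := by
  by_contra h
  exact absurd (hit_le_of (hu.le.trans (hit_le Φ T ω)) (not_lt.mp h)) (not_le.mpr hu)

theorem hit_mem (hc : Continuous (fun t => Φ t ω)) :
    hit Φ T ω = T ∨ Φ (hit Φ T ω) ω ≤ 0 := by
  have hcl : IsClosed ({u | u ≤ T ∧ Φ u ω ≤ 0} ∪ {T}) := by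
    refine IsClosed.union ?_ isClosed_singleton
    exact isClosed_Iic.inter (isClosed_le hc continuous_const)
  have := hcl.csInf_mem ⟨T, Or.inr rfl⟩ (OrderBot.bddBelow _)
  rcases this with h | h
  · exact Or.inr h.2
  · exact Or.inl h

/-- By continuity the process is nonnegative at the hitting time. -/
theorem hit_nonneg (hc : Continuous (fun t => Φ t ω)) (h0 : 0 ≤ Φ 0 ω) :
    0 ≤ Φ (hit Φ T ω) ω := by
  rcases eq_or_lt_of_le (bot_le : (⊥ : ℝ≥0) ≤ hit Φ T ω) with h | h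
  · rw [← h]; exact h0
  · have h1 : Tendsto (fun t => Φ t ω) (𝓝[<] (hit Φ T ω)) (𝓝 (Φ (hit Φ T ω) ω)) :=
      (hc.tendsto _).mono_left nhdsWithin_le_nhds
    have : (𝓝[<] (hit Φ T ω)).NeBot := by
      exact nhdsLT_neBot_of_exists_lt ⟨0, h⟩
    refine ge_of_tendsto h1 ?_
    filter_upwards [self_mem_nhdsWithin] with u hu
    exact (pos_of_lt_hit hu).le

theorem exists_le_iff (hc : Continuous (fun t => Φ t ω)) (t : ℝ≥0) :
    (∃ u ≤ t, Φ u ω ≤ 0) ↔
      ∀ k : ℕ, ∃ n : ℕ, Φ (TopologicalSpace.denseSeq (Set.Iic t) n : ℝ≥0) ω < 1 / ((k : ℝ) + 1) := by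
  have hc' : Continuous (fun u : Set.Iic t => Φ u ω) := hc.comp continuous_subtype_val
  constructor
  · rintro ⟨u, hu, h⟩ k
    have hopen : IsOpen {v : Set.Iic t | Φ v ω < 1 / ((k : ℝ) + 1)} :=
      isOpen_lt hc' continuous_const
    have hne : {v : Set.Iic t | Φ v ω < 1 / ((k : ℝ) + 1)}.Nonempty :=
      ⟨⟨u, hu⟩, lt_of_le_of_lt h (by positivity)⟩
    obtain ⟨v, hv, n, rfl⟩ := (TopologicalSpace.denseRange_denseSeq (Set.Iic t)).inter_open_nonempty _ hopen hne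
    exact ⟨n, hv⟩
  · intro h
    have hcomp : IsCompact (Set.Iic t) := by
      rw [← Set.Icc_bot]; exact isCompact_Icc
    obtain ⟨u, hu, hmin⟩ := hcomp.exists_isMinOn ⟨t, Set.mem_Iic.mpr le_rfl⟩ hc.continuousOn
    refine ⟨u, hu, ?_⟩
    by_contra hpos
    push Not at hpos
    obtain ⟨k, hk⟩ := exists_nat_one_div_lt hpos
    obtain ⟨n, hn⟩ := h k
    have := hmin (TopologicalSpace.denseSeq (Set.Iic t) n).2
    simp only [Set.mem_ofPred_eq] at this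
    linarith

theorem hit_meas (hc : ∀ ω, Continuous (fun t => Φ t ω))
    (ha : ∀ t, Measurable[𝓕 t] (Φ t)) (T t : ℝ≥0) :
    MeasurableSet[𝓕 t] {ω | hit Φ T ω ≤ t} := by
  rcases lt_or_ge t T with h | h
  · have : {ω | hit Φ T ω ≤ t} = ⋂ k : ℕ, ⋃ n : ℕ,
        {ω | Φ (TopologicalSpace.denseSeq (Set.Iic t) n : ℝ≥0) ω < 1 / ((k : ℝ) + 1)} := by
      ext ω
      have h1 : (hit Φ T ω ≤ t) ↔ (∃ u ≤ t, Φ u ω ≤ 0) := by
        constructor
        · intro h2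
          rcases hit_mem (T := T) (hc ω) with h3 | h3
          · rw [h3] at h2; exact absurd h2 (not_le.mpr h)
          · exact ⟨_, h2, h3⟩
        · rintro ⟨u, hu, h2⟩
          exact (hit_le_of (hu.trans h.le) h2).trans hu
      simp only [Set.mem_iInter, Set.mem_iUnion, Set.mem_ofPred_eq]
      rw [h1, exists_le_iff (hc ω) t]
    rw [this]
    refine MeasurableSet.iInter fun k => MeasurableSet.iUnion fun n => ?_
    have hm : Measurable[𝓕 t] (Φ (TopologicalSpace.denseSeq (Set.Iic t) n : ℝ≥0)) :=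
      (ha _).mono (𝓕.mono (TopologicalSpace.denseSeq (Set.Iic t) n).2) le_rfl
    exact hm measurableSet_Iio
  · have : {ω | hit Φ T ω ≤ t} = Set.univ := by
      ext ω
      simp only [Set.mem_ofPred_eq, Set.mem_univ, iff_true]
      exact (hit_le _ _ _).trans h
    rw [this]
    exact MeasurableSet.univ

end Pool.Agent.Y982.HW
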