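import Mathlib

open MeasureTheory Filter Topology
open scoped NNReal ENNReal

namespace Pool.Agent.Y982.HW

variable {Ω : Type*} {m : MeasurableSpace Ω} {𝓕 : Filtration ℝ≥0 m} {P : Measure Ω}

/-- Approximation of a random time from above by times on a grid. -/
noncomputable def up (k : ℕ) (T : ℝ≥0) (ρ : Ω → ℝ≥0) (ω : Ω) : ℝ≥0 :=
  min T (((⌊ρ ω * ((k : ℝ≥0) + 1)⌋₊ : ℝ≥0) + 1) / ((k : ℝ≥0) + 1))

theorem up_le (k : ℕ) (T : ℝ≥0) (ρ : Ω → ℝ≥0) (ω : Ω) : up k T ρ ω ≤ T := min_le_left _ _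

theorem le_up {k : ℕ} {T : ℝ≥0} {ρ : Ω → ℝ≥0} (hT : ∀ ω, ρ ω ≤ T) (ω : Ω) :
    ρ ω ≤ up k T ρ ω := by
  refine le_min (hT ω) ?_
  rw [le_div_iff₀ (by positivity)]
  exact (Nat.lt_floor_add_one _).le

theorem up_tendsto {T : ℝ≥0} {ρ : Ω → ℝ≥0} (hT : ∀ ω, ρ ω ≤ T) (ω : Ω) :
    Tendsto (fun k => up k T ρ ω) atTop (𝓝 (ρ ω)) := by
  have h1 : Tendsto (fun k : ℕ => ρ ω + 1 / ((k : ℝ≥0) + 1)) atTop (𝓝 (ρ ω + 0)) :=
    tendsto_const_nhds.add tendsto_one_div_add_atTop_nhds_zero_nat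
  rw [add_zero] at h1
  refine tendsto_of_tendsto_of_tendsto_of_le_of_le tendsto_const_nhds h1
    (fun k => le_up hT ω) (fun k => ?_)
  refine (min_le_right _ _).trans ?_
  rw [div_le_iff₀ (by positivity), add_mul, one_div, inv_mul_cancel₀ (by positivity)]
  gcongr
  exact Nat.floor_le (by positivity)

theorem up_le_iff {k : ℕ} {T : ℝ≥0} {ρ : Ω → ℝ≥0} {t : ℝ≥0} (ht : t < T) (ω : Ω) :
    up k T ρ ω ≤ t ↔ ρ ω < (⌊t * ((k : ℝ≥0) + 1)⌋₊ : ℝ≥0) / ((k : ℝ≥0) + 1) := by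
  have hk : (0 : ℝ≥0) < (k : ℝ≥0) + 1 := by positivity
  unfold up
  rw [min_le_iff, or_iff_right (not_le.mpr ht), div_le_iff₀ hk, lt_div_iff₀ hk]
  rw [show ((⌊ρ ω * ((k : ℝ≥0) + 1)⌋₊ : ℝ≥0) + 1) = ((⌊ρ ω * ((k : ℝ≥0) + 1)⌋₊ + 1 : ℕ) : ℝ≥0) by
    push_cast; rfl]
  rw [← Nat.le_floor_iff (by positivity), Nat.add_one_le_iff, Nat.floor_lt (by positivity)]

/-- Optional stopping for continuous martingales at bounded stopping times. -/
theorem os [IsProbabilityMeasure P] {N : ℝ≥0 → Ω → ℝ} (hN : Martingale N 𝓕 P)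
    (hc : ∀ ω, Continuous (fun t => N t ω)) {ρ : Ω → ℝ≥0}
    (hρ : ∀ t, MeasurableSet[𝓕 t] {ω | ρ ω ≤ t}) {T : ℝ≥0} (hT : ∀ ω, ρ ω ≤ T) :
    Integrable (fun ω => N (ρ ω) ω) P ∧
      ∀ C : Set Ω, (∀ t, MeasurableSet[𝓕 t] (C ∩ {ω | ρ ω ≤ t})) →
        ∫ ω in C, N (ρ ω) ω ∂P = ∫ ω in C, N T ω ∂P := by
  classical
  set τ : ℕ → Ω → WithTop ℝ≥0 := fun k ω => ((up k T ρ ω : ℝ≥0) : WithTop ℝ≥0) with hτ
  have hρ' : IsStoppingTime 𝓕 (fun ω => ((ρ ω : ℝ≥0) : WithTop ℝ≥0)) := by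
    intro t
    have := hρ t
    simpa only [WithTop.coe_le_coe] using this
  have hst : ∀ k, IsStoppingTime 𝓕 (τ k) := by
    intro k t
    rcases lt_or_ge t T with h | h
    · have : {ω | τ k ω ≤ (t : WithTop ℝ≥0)} =
          {ω | ((ρ ω : ℝ≥0) : WithTop ℝ≥0) <
            (((⌊t * ((k : ℝ≥0) + 1)⌋₊ : ℝ≥0) / ((k : ℝ≥0) + 1) : ℝ≥0) : WithTop ℝ≥0)} := by
        ext ω
        simp only [hτ, Set.mem_ofPred_eq, WithTop.coe_le_coe, WithTop.coe_lt_coe]
        exact up_le_iff h ω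
      rw [this]
      refine hρ'.measurableSet_lt_le ?_
      rw [div_le_iff₀ (by positivity)]
      exact Nat.floor_le (by positivity)
    · have : {ω | τ k ω ≤ (t : WithTop ℝ≥0)} = Set.univ := by
        ext ω
        simp only [hτ, Set.mem_ofPred_eq, WithTop.coe_le_coe, Set.mem_univ, iff_true]
        exact (up_le _ _ _ _).trans h
      rw [this]
      exact MeasurableSet.univ
  have hcount : ∀ k, (Set.range (τ k)).Countable := by
    intro k
    have : Set.range (τ k) ⊆ Set.range (fun j : ℕ =>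
        ((min T (((j : ℝ≥0) + 1) / ((k : ℝ≥0) + 1)) : ℝ≥0) : WithTop ℝ≥0)) := by
      rintro _ ⟨ω, rfl⟩
      exact ⟨⌊ρ ω * ((k : ℝ≥0) + 1)⌋₊, rfl⟩
    exact (Set.countable_range _).mono this
  have hle : ∀ k ω, τ k ω ≤ (T : WithTop ℝ≥0) := fun k ω => by
    simp only [hτ, WithTop.coe_le_coe]
    exact up_le _ _ _ _
  have hval : ∀ k, (fun ω => N (up k T ρ ω) ω) =ᵐ[P] P[N T | (hst k).measurableSpace] := by
    intro k
    have := hN.stoppedValue_ae_eq_condExp_of_le_const_of_countable_range (hst k) (hle k) (hcount k)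
    refine EventuallyEq.trans (Eventually.of_forall fun ω => ?_) this
    rfl
  have hint : Integrable (N T) P := hN.integrable T
  have hUI : UniformIntegrable (fun k : ℕ => P[N T | (hst k).measurableSpace]) 1 P :=
    hint.uniformIntegrable_condExp (fun k => (hst k).measurableSpace_le)
  have hUI2 : UniformIntegrable (fun k ω => N (up k T ρ ω) ω) 1 P :=
    hUI.ae_eq (fun k => (hval k).symm)
  have hlim : ∀ᵐ ω ∂P, Tendsto (fun k => N (up k T ρ ω) ω) atTop (𝓝 (N (ρ ω) ω)) :=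
    Eventually.of_forall fun ω => ((hc ω).tendsto _).comp (up_tendsto hT ω)
  have hLp : MemLp (fun ω => N (ρ ω) ω) 1 P := hUI2.memLp_of_ae_tendsto hlim
  have hconv := tendsto_Lp_finite_of_tendsto_ae le_rfl ENNReal.one_ne_top
    (fun k => hUI2.1 k) hLp hUI2.2.1 hlim
  refine ⟨memLp_one_iff_integrable.mp hLp, fun C hC => ?_⟩
  have hCm : MeasurableSet C := by
    have := hC T
    have h2 : C ∩ {ω | ρ ω ≤ T} = C := by
      ext ω; simp [hT ω]
    rw [h2] at this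
    exact 𝓕.le T _ this
  have hCρ : ∀ k, MeasurableSet[(hst k).measurableSpace] C := by
    intro k
    have h0 : MeasurableSet[hρ'.measurableSpace] C := by
      refine ⟨?_, fun t => ?_⟩
      · have := hC T
        have h2 : C ∩ {ω | ρ ω ≤ T} = C := by
          ext ω; simp [hT ω]
        rw [h2] at this
        exact (le_iSup (fun t => (𝓕 t : MeasurableSpace Ω)) T) _ this
      · have := hC t
        simpa only [WithTop.coe_le_coe] using this
    refine IsStoppingTime.measurableSpace_mono hρ' (hst k) (fun ω => ?_) _ h0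
    simp only [hτ, WithTop.coe_le_coe]
    exact le_up hT ω
  have heq : ∀ k, ∫ ω in C, N (up k T ρ ω) ω ∂P = ∫ ω in C, N T ω ∂P := by
    intro k
    rw [← setIntegral_condExp (hst k).measurableSpace_le hint (hCρ k)]
    exact setIntegral_congr_ae₀ hCm.nullMeasurableSet ((hval k).mono fun ω h _ => h)
  have hci : ∀ k, Integrable (fun ω => N (up k T ρ ω) ω) P := fun k =>
    memLp_one_iff_integrable.mp (hUI2.memLp k)
  have ht := tendsto_setIntegral_of_L1' (μ := P) (fun ω => N (ρ ω) ω) (memLp_one_iff_integrable.mp hLp).1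
    (F := fun k ω => N (up k T ρ ω) ω) (l := atTop) (Eventually.of_forall hci) hconv C
  simp only [heq] at ht
  exact (tendsto_nhds_unique ht tendsto_const_nhds)

end Pool.Agent.Y982.HW
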