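import Mathlib
import Pool.Agent.Y982.HW.Os
import Pool.Agent.Y982.HW.Hit

open MeasureTheory Filter Topology
open scoped NNReal ENNReal

namespace Pool.Agent.Y982.HW

variable {Ω : Type*} {m : MeasurableSpace Ω} {𝓕 : Filtration ℝ≥0 m} {P : Measure Ω}

/-- Time spent away from zero. -/
noncomputable def away (D : ℝ≥0 → Ω → ℝ) (t : ℝ≥0) (ω : Ω) : ℝ :=
  ∫ u in (0 : ℝ)..(t : ℝ), (if D u.toNNReal ω = 0 then (0 : ℝ) else 1)

theorem away_int {D : ℝ≥0 → Ω → ℝ} {ω : Ω} (hc : Continuous fun t => D t ω) (a b : ℝ) :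
    IntervalIntegrable (fun u : ℝ => if D u.toNNReal ω = 0 then (0 : ℝ) else 1) volume a b := by
  have hc' : Continuous (fun u : ℝ => D u.toNNReal ω) := hc.comp continuous_real_toNNReal
  have hm : Measurable (fun u : ℝ => if D u.toNNReal ω = 0 then (0 : ℝ) else 1) := by
    refine Measurable.ite ?_ measurable_const measurable_const
    exact (isClosed_eq hc' continuous_const).measurableSet
  refine IntervalIntegrable.mono_fun (intervalIntegrable_const (c := (1 : ℝ)))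
    hm.aestronglyMeasurable ?_
  refine Eventually.of_forall fun u => ?_
  by_cases h : D u.toNNReal ω = 0 <;> simp [h]

theorem away_sub {D : ℝ≥0 → Ω → ℝ} {ω : Ω} (hc : Continuous fun t => D t ω) {s t : ℝ≥0}
    (hst : s ≤ t) : 0 ≤ away D t ω - away D s ω ∧ away D t ω - away D s ω ≤ t - s := by
  unfold away
  rw [intervalIntegral.integral_interval_sub_left (away_int hc _ _) (away_int hc _ _)]
  have hst' : (s : ℝ) ≤ t := by exact_mod_cast hst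
  constructor
  · refine intervalIntegral.integral_nonneg hst' fun u _ => ?_
    by_cases h : D u.toNNReal ω = 0 <;> simp [h]
  · have := intervalIntegral.integral_mono_on hst' (away_int hc _ _)
      (intervalIntegrable_const (c := (1 : ℝ))) (fun u _ => by
        by_cases h : D u.toNNReal ω = 0 <;> simp [h])
    simpa using this

theorem away_cont {D : ℝ≥0 → Ω → ℝ} {ω : Ω} (hc : Continuous fun t => D t ω) :
    Continuous fun t => away D t ω := by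
  have h1 : Continuous (fun x : ℝ => ∫ u in (0 : ℝ)..x, (if D u.toNNReal ω = 0 then (0 : ℝ) else 1)) :=
    intervalIntegral.continuous_primitive (fun a b => away_int hc a b) 0
  exact h1.comp NNReal.continuous_coe

theorem away_eq {D : ℝ≥0 → Ω → ℝ} {ω : Ω} {ρ : ℝ≥0} (h : ∀ u < ρ, 0 < D u ω) :
    away D ρ ω = ρ := by
  unfold away
  have h1 : ∫ u in (0 : ℝ)..(ρ : ℝ), (if D u.toNNReal ω = 0 then (0 : ℝ) else 1) =
      ∫ u in (0 : ℝ)..(ρ : ℝ), (1 : ℝ) := by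
    rw [intervalIntegral.integral_of_le (NNReal.coe_nonneg ρ),
      intervalIntegral.integral_of_le (NNReal.coe_nonneg ρ),
      integral_Ioc_eq_integral_Ioo, integral_Ioc_eq_integral_Ioo]
    refine setIntegral_congr_fun measurableSet_Ioo fun u hu => ?_
    have hu' : u.toNNReal < ρ := by
      rw [Real.toNNReal_lt_iff_lt_coe hu.1.le]; exact hu.2
    simp [(h _ hu').ne']
  rw [h1]
  simp

theorem away_zero (D : ℝ≥0 → Ω → ℝ) (ω : Ω) : away D 0 ω = 0 := by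
  simp [away]

/-- The gap structure: `D` is a martingale whose bracket is twice the time away from zero,
`G` lies below `D`, starts at the same point and has drift bounded below by `-b`. -/
structure Gap (𝓕 : Filtration ℝ≥0 m) (P : Measure Ω) (b : ℝ) (D G : ℝ≥0 → Ω → ℝ) : Prop where
  cD : ∀ ω, Continuous fun t => D t ω
  cG : ∀ ω, Continuous fun t => G t ω
  aG : ∀ t, Measurable[𝓕 t] (G t)
  lD : ∀ t, MemLp (D t) 2 P
  mD : Martingale D 𝓕 P
  qD : Martingale (fun t ω => (D t ω) ^ 2 - 2 * away D t ω) 𝓕 P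
  le : ∀ t ω, G t ω ≤ D t ω
  eq : ∀ ω, G 0 ω = D 0 ω
  drift : ∃ A : ℝ≥0 → Ω → ℝ, Martingale (fun t ω => G t ω - A t ω) 𝓕 P ∧
    (∀ ω, Continuous fun t => A t ω) ∧ (∀ ω, ∀ s t : ℝ≥0, s ≤ t → -b * ((t : ℝ) - s) ≤ A t ω - A s ω) ∧
    ∃ C : ℝ, ∀ ω, ∀ t : ℝ≥0, |A t ω| ≤ C * t

theorem meas_of_le {ρ : Ω → ℝ≥0} (hρ : ∀ t, MeasurableSet[𝓕 t] {ω | ρ ω ≤ t}) :
    Measurable ρ :=
  measurable_of_Iic fun t => 𝓕.le t _ (hρ t)

theorem meas_at {N : ℝ≥0 → Ω → ℝ} (hc : ∀ ω, Continuous fun t => N t ω)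
    (hm : ∀ t, Measurable (N t)) {ρ : Ω → ℝ≥0} (hρ : Measurable ρ) :
    Measurable fun ω => N (ρ ω) ω := by
  have h := measurable_uncurry_of_continuous_of_measurable (u := N) hc hm
  exact h.comp (hρ.prodMk measurable_id)

theorem inter_of_zero {B : Set Ω} (hB : MeasurableSet[𝓕 0] B) {ρ : Ω → ℝ≥0}
    (hρ : ∀ t, MeasurableSet[𝓕 t] {ω | ρ ω ≤ t}) (t : ℝ≥0) :
    MeasurableSet[𝓕 t] (B ∩ {ω | ρ ω ≤ t}) :=
  (𝓕.mono zero_le _ hB).inter (hρ t)

/-- Optional stopping against an event of the initial sigma-algebra. -/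
theorem os0 [IsProbabilityMeasure P] {N : ℝ≥0 → Ω → ℝ} (hN : Martingale N 𝓕 P)
    (hc : ∀ ω, Continuous (fun t => N t ω)) {ρ : Ω → ℝ≥0}
    (hρ : ∀ t, MeasurableSet[𝓕 t] {ω | ρ ω ≤ t}) {T : ℝ≥0} (hT : ∀ ω, ρ ω ≤ T)
    {B : Set Ω} (hB : MeasurableSet[𝓕 0] B) :
    ∫ ω in B, N (ρ ω) ω ∂P = ∫ ω in B, N 0 ω ∂P := by
  rw [(os hN hc hρ hT).2 B (inter_of_zero hB hρ)]
  exact (hN.setIntegral_eq zero_le hB).symm

namespace Gap

variable {b : ℝ} {D G : ℝ≥0 → Ω → ℝ}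

theorem mDt (h : Gap 𝓕 P b D G) (t : ℝ≥0) : Measurable (D t) :=
  ((h.mD.1 t).mono (𝓕.le t)).measurable

theorem maway (h : Gap 𝓕 P b D G) (t : ℝ≥0) : Measurable (away D t) := by
  have h1 := ((h.qD.1 t).mono (𝓕.le t)).measurable
  have h2 : away D t = fun ω => (1 / 2 : ℝ) * ((D t ω) ^ 2 - ((D t ω) ^ 2 - 2 * away D t ω)) := by
    funext ω; ring
  rw [h2]
  exact measurable_const.mul (((h.mDt t).pow_const 2).sub h1)

theorem int_away [IsProbabilityMeasure P] (h : Gap 𝓕 P b D G) {ρ : Ω → ℝ≥0}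
    (hρ : ∀ t, MeasurableSet[𝓕 t] {ω | ρ ω ≤ t}) {T : ℝ≥0} (hT : ∀ ω, ρ ω ≤ T) :
    Integrable (fun ω => away D (ρ ω) ω) P := by
  refine Integrable.of_bound (meas_at (fun ω => away_cont (h.cD ω)) h.maway
    (meas_of_le hρ)).aestronglyMeasurable (T : ℝ) (Eventually.of_forall fun ω => ?_)
  have h1 := away_sub (h.cD ω) (zero_le : (0 : ℝ≥0) ≤ ρ ω)
  rw [away_zero] at h1
  rw [Real.norm_eq_abs, abs_le]
  have h2 : (ρ ω : ℝ) ≤ T := by exact_mod_cast hT ω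
  have h3 : ((0 : ℝ≥0) : ℝ) = 0 := rfl
  constructor <;> linarith [h1.1, h1.2]

theorem int_sq [IsProbabilityMeasure P] (h : Gap 𝓕 P b D G) {ρ : Ω → ℝ≥0}
    (hρ : ∀ t, MeasurableSet[𝓕 t] {ω | ρ ω ≤ t}) {T : ℝ≥0} (hT : ∀ ω, ρ ω ≤ T) :
    Integrable (fun ω => (D (ρ ω) ω) ^ 2) P := by
  have h1 := (os h.qD (fun ω => ((h.cD ω).pow 2).sub ((away_cont (h.cD ω)).const_mul 2)) hρ hT).1
  have h2 := h1.add ((h.int_away hρ hT).const_mul 2)
  refine h2.congr (Eventually.of_forall fun ω => ?_)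
  simp

theorem int_D [IsProbabilityMeasure P] (h : Gap 𝓕 P b D G) {ρ : Ω → ℝ≥0}
    (hρ : ∀ t, MeasurableSet[𝓕 t] {ω | ρ ω ≤ t}) {T : ℝ≥0} (hT : ∀ ω, ρ ω ≤ T) :
    Integrable (fun ω => D (ρ ω) ω) P := (os h.mD h.cD hρ hT).1

theorem mean_D [IsProbabilityMeasure P] (h : Gap 𝓕 P b D G) {ρ : Ω → ℝ≥0}
    (hρ : ∀ t, MeasurableSet[𝓕 t] {ω | ρ ω ≤ t}) {T : ℝ≥0} (hT : ∀ ω, ρ ω ≤ T)
    {B : Set Ω} (hB : MeasurableSet[𝓕 0] B) :
    ∫ ω in B, D (ρ ω) ω ∂P = ∫ ω in B, D 0 ω ∂P := os0 h.mD h.cD hρ hT hB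

theorem sq_D [IsProbabilityMeasure P] (h : Gap 𝓕 P b D G) {ρ : Ω → ℝ≥0}
    (hρ : ∀ t, MeasurableSet[𝓕 t] {ω | ρ ω ≤ t}) {T : ℝ≥0} (hT : ∀ ω, ρ ω ≤ T)
    {B : Set Ω} (hB : MeasurableSet[𝓕 0] B) :
    ∫ ω in B, (D (ρ ω) ω) ^ 2 ∂P =
      ∫ ω in B, (D 0 ω) ^ 2 ∂P + 2 * ∫ ω in B, away D (ρ ω) ω ∂P := by
  have h1 := os0 h.qD (fun ω => ((h.cD ω).pow 2).sub ((away_cont (h.cD ω)).const_mul 2)) hρ hT hB
  rw [integral_sub (h.int_sq hρ hT).integrableOn ((h.int_away hρ hT).const_mul 2).integrableOn,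
    integral_const_mul] at h1
  simp only [away_zero, mul_zero, sub_zero] at h1
  linarith

theorem int_G [IsProbabilityMeasure P] (h : Gap 𝓕 P b D G) {ρ : Ω → ℝ≥0}
    (hρ : ∀ t, MeasurableSet[𝓕 t] {ω | ρ ω ≤ t}) {T : ℝ≥0} (hT : ∀ ω, ρ ω ≤ T) :
    Integrable (fun ω => G (ρ ω) ω) P := by
  obtain ⟨A, hA, hAc, -, C, hC⟩ := h.drift
  have h1 := (os hA (fun ω => (h.cG ω).sub (hAc ω)) hρ hT).1
  have hAm : ∀ t, Measurable (A t) := by
    intro t
    have h2 := ((hA.1 t).mono (𝓕.le t)).measurable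
    have h3 : A t = fun ω => G t ω - (G t ω - A t ω) := by funext ω; ring
    rw [h3]
    exact ((h.aG t).mono (𝓕.le t) le_rfl).sub h2
  have h4 : Integrable (fun ω => A (ρ ω) ω) P := by
    refine Integrable.of_bound (meas_at hAc hAm (meas_of_le hρ)).aestronglyMeasurable (|C| * T)
      (Eventually.of_forall fun ω => ?_)
    rw [Real.norm_eq_abs]
    refine (hC ω (ρ ω)).trans ?_
    have h2 : (ρ ω : ℝ) ≤ T := by exact_mod_cast hT ω
    exact mul_le_mul (le_abs_self C) h2 (NNReal.coe_nonneg _) (abs_nonneg _)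
  refine (h1.add h4).congr (Eventually.of_forall fun ω => ?_)
  simp

theorem mean_G [IsProbabilityMeasure P] (h : Gap 𝓕 P b D G) {ρ : Ω → ℝ≥0}
    (hρ : ∀ t, MeasurableSet[𝓕 t] {ω | ρ ω ≤ t}) {T : ℝ≥0} (hT : ∀ ω, ρ ω ≤ T)
    {B : Set Ω} (hB : MeasurableSet[𝓕 0] B) :
    ∫ ω in B, D 0 ω ∂P - b * ∫ ω in B, (ρ ω : ℝ) ∂P ≤ ∫ ω in B, G (ρ ω) ω ∂P := by
  obtain ⟨A, hA, hAc, hAd, C, hC⟩ := h.drift
  have h1 := os hA (fun ω => (h.cG ω).sub (hAc ω)) hρ hT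
  have h2 := os0 hA (fun ω => (h.cG ω).sub (hAc ω)) hρ hT hB
  have h5 := h.int_G hρ hT
  have h6 : Integrable (fun ω => A (ρ ω) ω) P := by
    refine (h5.sub h1.1).congr (Eventually.of_forall fun ω => ?_)
    simp
  have h0 : ∀ ω, A 0 ω = 0 := by
    intro ω
    have := hC ω 0
    simpa using this
  rw [integral_sub h5.integrableOn h6.integrableOn] at h2
  simp only [h0, sub_zero, h.eq] at h2
  have hBm : MeasurableSet B := 𝓕.le 0 _ hB
  have hρi : Integrable (fun ω => (ρ ω : ℝ)) P := by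
    refine Integrable.of_bound ((meas_of_le hρ).coe_nnreal_real).aestronglyMeasurable (T : ℝ)
      (Eventually.of_forall fun ω => ?_)
    rw [Real.norm_eq_abs, abs_of_nonneg (NNReal.coe_nonneg _)]
    exact_mod_cast hT ω
  have h7 : ∫ ω in B, (-b) * (ρ ω : ℝ) ∂P ≤ ∫ ω in B, A (ρ ω) ω ∂P := by
    refine setIntegral_mono (hρi.const_mul _).integrableOn h6.integrableOn fun ω => ?_
    have := hAd ω 0 (ρ ω) zero_le
    rw [h0, sub_zero] at this
    simpa using this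
  rw [integral_const_mul] at h7
  linarith

end Gap

end Pool.Agent.Y982.HW
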