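import Mathlib
import Pool.Agent.Y982.HW.Gap

open MeasureTheory Filter Topology
open scoped NNReal ENNReal

namespace Pool.Agent.Y982.HW

variable {Ω : Type*} {m : MeasurableSpace Ω} {𝓕 : Filtration ℝ≥0 m} {P : Measure Ω}

theorem meas_pos {Φ : ℝ≥0 → Ω → ℝ} (hc : ∀ ω, Continuous (fun t => Φ t ω))
    (ha : ∀ t, Measurable[𝓕 t] (Φ t)) (t : ℝ≥0) :
    MeasurableSet[𝓕 t] {ω | ∀ u ≤ t, 0 < Φ u ω} := by
  have : {ω | ∀ u ≤ t, 0 < Φ u ω} = (⋂ k : ℕ, ⋃ n : ℕ,
      {ω | Φ (TopologicalSpace.denseSeq (Set.Iic t) n : ℝ≥0) ω < 1 / ((k : ℝ) + 1)})ᶜ := by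
    ext ω
    rw [Set.mem_compl_iff]
    simp only [Set.mem_iInter, Set.mem_iUnion, Set.mem_ofPred_eq]
    rw [← exists_le_iff (hc ω) t]
    push Not
    rfl
  rw [this]
  refine (MeasurableSet.iInter fun k => MeasurableSet.iUnion fun n => ?_).compl
  have hm : Measurable[𝓕 t] (Φ (TopologicalSpace.denseSeq (Set.Iic t) n : ℝ≥0)) :=
    (ha _).mono (𝓕.mono (TopologicalSpace.denseSeq (Set.Iic t) n).2) le_rfl
  exact hm measurableSet_Iio

theorem int_ind [IsProbabilityMeasure P] {S B : Set Ω} (hS : MeasurableSet S) :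
    ∫ ω in B, S.indicator (fun _ => (1 : ℝ)) ω ∂P = P.real (S ∩ B) := by
  rw [integral_indicator_const _ hS, measureReal_restrict_apply hS]
  simp

theorem int_ind' [IsProbabilityMeasure P] {S B : Set Ω} (hS : MeasurableSet S) :
    IntegrableOn (S.indicator (fun _ => (1 : ℝ))) B P :=
  ((integrable_const (1 : ℝ)).indicator hS).integrableOn

theorem int_time [IsProbabilityMeasure P] {ρ : Ω → ℝ≥0}
    (hρ : ∀ t, MeasurableSet[𝓕 t] {ω | ρ ω ≤ t}) {T : ℝ≥0} (hT : ∀ ω, ρ ω ≤ T) :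
    Integrable (fun ω => (ρ ω : ℝ)) P := by
  refine Integrable.of_bound ((meas_of_le hρ).coe_nnreal_real).aestronglyMeasurable (T : ℝ)
    (Eventually.of_forall fun ω => ?_)
  rw [Real.norm_eq_abs, abs_of_nonneg (NNReal.coe_nonneg _)]
  exact_mod_cast hT ω

namespace Gap

variable {b : ℝ} {D G : ℝ≥0 → Ω → ℝ}

theorem aD (h : Gap 𝓕 P b D G) (t : ℝ≥0) : Measurable[𝓕 t] (D t) := (h.mD.1 t).measurable

/-- First step: a bound for the time before the gap closes, and a lower bound for the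
probability that the gap has reached a fixed size. -/
theorem first [IsProbabilityMeasure P] (h : Gap 𝓕 P b D G) {lam : ℝ} (hlam : 0 < lam)
    {s : ℝ≥0} (hs : (s : ℝ) = lam ^ 2 / 2) (hb : 0 ≤ b) (hbl : b * lam ≤ 1 / 4) {B : Set Ω}
    (hB : MeasurableSet[𝓕 0] B) (hB1 : ∀ ω ∈ B, 0 < D 0 ω ∧ D 0 ω ≤ lam) :
    (∫ ω in B, (hit G s ω : ℝ) ∂P ≤ lam * ∫ ω in B, D 0 ω ∂P) ∧
    (P.real ({ω | ∀ u ≤ s, 0 < G u ω} ∩ B) ≤ 2 / lam * ∫ ω in B, D 0 ω ∂P) ∧
    (1 / (12 * lam) * ∫ ω in B, D 0 ω ∂P ≤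
      P.real (({ω | ∀ u ≤ s, 0 < G u ω} ∩ {ω | lam / 8 < G s ω}) ∩ B)) := by
  have hBm : MeasurableSet B := 𝓕.le 0 _ hB
  have hspos : (0 : ℝ) < s := by rw [hs]; positivity
  set Φ : ℝ≥0 → Ω → ℝ := fun t ω => min (G t ω) (lam - D t ω) with hΦ
  have hΦc : ∀ ω, Continuous fun t => Φ t ω := fun ω =>
    (h.cG ω).min (continuous_const.sub (h.cD ω))
  have hΦa : ∀ t, Measurable[𝓕 t] (Φ t) := fun t =>
    Measurable.min (h.aG t) (Measurable.const_sub (h.aD t) lam)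
  set ρ1 : Ω → ℝ≥0 := hit Φ s with hρ1
  set ρ2 : Ω → ℝ≥0 := hit G s with hρ2
  have m1 : ∀ t, MeasurableSet[𝓕 t] {ω | ρ1 ω ≤ t} := fun t => hit_meas hΦc hΦa s t
  have m2 : ∀ t, MeasurableSet[𝓕 t] {ω | ρ2 ω ≤ t} := fun t => hit_meas h.cG h.aG s t
  have l1 : ∀ ω, ρ1 ω ≤ s := fun ω => hit_le _ _ _
  have l2 : ∀ ω, ρ2 ω ≤ s := fun ω => hit_le _ _ _
  set e0 : ℝ := ∫ ω in B, D 0 ω ∂P with he0
  have he0nn : 0 ≤ e0 := setIntegral_nonneg hBm fun ω hω => (hB1 ω hω).1.le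
  -- values at the first time
  have v1 : ∀ ω ∈ B, 0 ≤ D (ρ1 ω) ω ∧ D (ρ1 ω) ω ≤ lam := by
    intro ω hω
    have h0 : 0 ≤ Φ 0 ω := by
      simp only [hΦ]
      rw [h.eq]
      exact le_min (hB1 ω hω).1.le (by linarith [(hB1 ω hω).2])
    have h1 := hit_nonneg (T := s) (hΦc ω) h0
    simp only [hΦ] at h1
    have h2 := le_min_iff.mp h1
    exact ⟨h2.1.trans (h.le _ _), by linarith [h2.2]⟩
  have p1 : ∀ ω ∈ B, ∀ u < ρ1 ω, 0 < D u ω := by
    intro ω _ u hu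
    have h1 := pos_of_lt_hit hu
    simp only [hΦ] at h1
    exact (lt_min_iff.mp h1).1.trans_le (h.le _ _)
  have p2 : ∀ ω ∈ B, ∀ u < ρ2 ω, 0 < D u ω := fun ω _ u hu =>
    (pos_of_lt_hit hu).trans_le (h.le _ _)
  have a1 : ∫ ω in B, away D (ρ1 ω) ω ∂P = ∫ ω in B, (ρ1 ω : ℝ) ∂P :=
    setIntegral_congr_fun hBm fun ω hω => away_eq (p1 ω hω)
  have a2 : ∫ ω in B, away D (ρ2 ω) ω ∂P = ∫ ω in B, (ρ2 ω : ℝ) ∂P :=
    setIntegral_congr_fun hBm fun ω hω => away_eq (p2 ω hω)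
  have i0 : IntegrableOn (fun ω => D 0 ω) B P := ((h.lD 0).integrable (by norm_num)).integrableOn
  have i02 : IntegrableOn (fun ω => (D 0 ω) ^ 2) B P := (h.lD 0).integrable_sq.integrableOn
  have e1 : ∫ ω in B, (D (ρ1 ω) ω) ^ 2 ∂P ≤ lam * e0 := by
    rw [he0, ← h.mean_D m1 l1 hB, ← integral_const_mul]
    refine setIntegral_mono_on (h.int_sq m1 l1).integrableOn
      ((h.int_D m1 l1).const_mul _).integrableOn hBm fun ω hω => ?_
    nlinarith [v1 ω hω]
  have e2 : 0 ≤ ∫ ω in B, (D 0 ω) ^ 2 ∂P := setIntegral_nonneg hBm fun ω _ => sq_nonneg _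
  have e3 : ∫ ω in B, (D 0 ω) ^ 2 ∂P ≤ lam * e0 := by
    rw [he0, ← integral_const_mul]
    refine setIntegral_mono_on i02 (i0.const_mul _) hBm fun ω hω => ?_
    nlinarith [hB1 ω hω]
  have q1 := h.sq_D m1 l1 hB
  have q2 := h.sq_D m2 l2 hB
  rw [a1] at q1
  rw [a2] at q2
  have t1 : ∫ ω in B, (ρ1 ω : ℝ) ∂P ≤ lam * e0 / 2 := by linarith
  have t2 : ∫ ω in B, (ρ2 ω : ℝ) ∂P ≤ lam * e0 := by
    have h1 : ∫ ω in B, (ρ2 ω : ℝ) ∂P ≤ ∫ ω in B, ((ρ1 ω : ℝ) + (s / lam) * D (ρ1 ω) ω) ∂P := by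
      refine setIntegral_mono_on (int_time m2 l2).integrableOn
        ((int_time m1 l1).integrableOn.add ((h.int_D m1 l1).const_mul _).integrableOn) hBm
        fun ω hω => ?_
      have hv := v1 ω hω
      have hnn : 0 ≤ (s : ℝ) / lam * D (ρ1 ω) ω := by
        have := hv.1
        positivity
      rcases hit_mem (T := s) (hΦc ω) with h2 | h2
      · have h3 : (ρ2 ω : ℝ) ≤ ρ1 ω := by
          have h4 : ρ1 ω = s := h2
          rw [h4]; exact_mod_cast l2 ω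
        linarith
      · simp only [hΦ] at h2
        rcases min_le_iff.mp h2 with h3 | h3
        · have h4 : ρ2 ω ≤ ρ1 ω := hit_le_of (l1 ω) h3
          have h5 : (ρ2 ω : ℝ) ≤ ρ1 ω := by exact_mod_cast h4
          linarith
        · have h3' : lam ≤ D (ρ1 ω) ω := by
            have h6 : lam - D (ρ1 ω) ω ≤ 0 := h3
            linarith
          have h4 : (s : ℝ) ≤ s / lam * D (ρ1 ω) ω := by
            rw [div_mul_eq_mul_div, le_div_iff₀ hlam]
            nlinarith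
          have h5 : (ρ2 ω : ℝ) ≤ s := by exact_mod_cast l2 ω
          have h6 : (0 : ℝ) ≤ ρ1 ω := NNReal.coe_nonneg _
          linarith
    rw [integral_add (int_time m1 l1).integrableOn ((h.int_D m1 l1).const_mul _).integrableOn,
      integral_const_mul, h.mean_D m1 l1 hB, ← he0] at h1
    have h2 : (s : ℝ) / lam * e0 = lam * e0 / 2 := by
      rw [hs]; field_simp
    linarith
  -- the survival event
  set A : Set Ω := {ω | ∀ u ≤ s, 0 < G u ω} with hA
  have hAm : MeasurableSet A := 𝓕.le s _ (meas_pos h.cG h.aG s)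
  have hGm : ∀ t, Measurable (G t) := fun t => (h.aG t).mono (𝓕.le t) le_rfl
  have rA : ∀ ω ∈ A, ρ2 ω = s := by
    intro ω hω
    rcases hit_mem (T := s) (h.cG ω) with h2 | h2
    · exact h2
    · exact absurd (hω _ (l2 ω)) (not_lt.mpr h2)
  have t3 : P.real (A ∩ B) ≤ 2 / lam * e0 := by
    have h1 : ∫ ω in B, (s : ℝ) * A.indicator (fun _ => (1 : ℝ)) ω ∂P ≤
        ∫ ω in B, (ρ2 ω : ℝ) ∂P := by
      refine setIntegral_mono_on ((int_ind' hAm).const_mul _) (int_time m2 l2).integrableOn hBm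
        fun ω _ => ?_
      by_cases hω : ω ∈ A
      · simp [hω, rA ω hω]
      · simp [hω]
    rw [integral_const_mul, int_ind hAm, hs] at h1
    have h2 : lam ^ 2 / 2 * P.real (A ∩ B) ≤ lam * e0 := h1.trans t2
    have h3 : lam * (lam * P.real (A ∩ B)) ≤ lam * (2 * e0) := by linarith
    have h4 := le_of_mul_le_mul_left h3 hlam
    rw [div_mul_eq_mul_div, le_div_iff₀ hlam]
    linarith
  refine ⟨t2, t3, ?_⟩
  -- lower bound
  set E : Set Ω := A ∩ {ω | lam / 8 < G s ω} with hE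
  have hEm : MeasurableSet E := hAm.inter (measurableSet_lt measurable_const (hGm s))
  have g1 := h.mean_G m2 l2 hB
  have h1 : ∫ ω in B, G (ρ2 ω) ω ∂P ≤ ∫ ω in B, (lam / 8 * A.indicator (fun _ => (1 : ℝ)) ω +
      (1 / (12 * lam) * (D (ρ2 ω) ω) ^ 2 + 3 * lam * E.indicator (fun _ => (1 : ℝ)) ω)) ∂P := by
    refine setIntegral_mono_on (h.int_G m2 l2).integrableOn
      (((int_ind' hAm).const_mul _).add
        (((h.int_sq m2 l2).const_mul _).integrableOn.add ((int_ind' hEm).const_mul _))) hBm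
      fun ω hω => ?_
    by_cases hωA : ω ∈ A
    · by_cases hωE : ω ∈ E
      · have hD := h.le (ρ2 ω) ω
        have hG : lam / 8 < G (ρ2 ω) ω := by rw [rA ω hωA]; exact hωE.2
        simp only [Set.indicator_of_mem hωA, Set.indicator_of_mem hωE, mul_one]
        have key : G (ρ2 ω) ω ≤ 1 / (12 * lam) * (G (ρ2 ω) ω) ^ 2 + 3 * lam := by
          rw [div_mul_eq_mul_div, one_mul, ← sub_nonneg]
          have : (G (ρ2 ω) ω) ^ 2 / (12 * lam) + 3 * lam - G (ρ2 ω) ω =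
            (G (ρ2 ω) ω - 6 * lam) ^ 2 / (12 * lam) := by
            field_simp; ring
          rw [this]; positivity
        have hsq : (G (ρ2 ω) ω) ^ 2 ≤ (D (ρ2 ω) ω) ^ 2 := by
          apply pow_le_pow_left₀ _ hD
          linarith
        have h3 : 1 / (12 * lam) * (G (ρ2 ω) ω) ^ 2 ≤ 1 / (12 * lam) * (D (ρ2 ω) ω) ^ 2 :=
          mul_le_mul_of_nonneg_left hsq (by positivity)
        linarith
      · have hG : G (ρ2 ω) ω ≤ lam / 8 := by
          rw [rA ω hωA]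
          by_contra hcon
          exact hωE ⟨hωA, not_le.mp hcon⟩
        simp only [Set.indicator_of_mem hωA, Set.indicator_of_notMem hωE, mul_one, mul_zero,
          add_zero]
        have : 0 ≤ 1 / (12 * lam) * (D (ρ2 ω) ω) ^ 2 := by positivity
        linarith
    · have hωE : ω ∉ E := fun hc => hωA hc.1
      have hG : G (ρ2 ω) ω ≤ 0 := by
        rcases hit_mem (T := s) (h.cG ω) with h2 | h2
        · by_contra hcon
          apply hωA
          intro u hu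
          rcases eq_or_lt_of_le hu with h3 | h3
          · rw [h3, ← h2]; exact not_le.mp hcon
          · refine pos_of_lt_hit (T := s) (Φ := G) ?_
            rw [h2]; exact h3
        · exact h2
      simp only [Set.indicator_of_notMem hωA, Set.indicator_of_notMem hωE, mul_zero, add_zero]
      have : 0 ≤ 1 / (12 * lam) * (D (ρ2 ω) ω) ^ 2 := by positivity
      linarith
  have i1 : IntegrableOn (fun ω => lam / 8 * A.indicator (fun _ => (1 : ℝ)) ω) B P :=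
    (int_ind' hAm).const_mul _
  have i2 : IntegrableOn (fun ω => 1 / (12 * lam) * (D (ρ2 ω) ω) ^ 2) B P :=
    ((h.int_sq m2 l2).const_mul _).integrableOn
  have i3 : IntegrableOn (fun ω => 3 * lam * E.indicator (fun _ => (1 : ℝ)) ω) B P :=
    (int_ind' hEm).const_mul _
  have i23 : IntegrableOn (fun ω => 1 / (12 * lam) * (D (ρ2 ω) ω) ^ 2 +
      3 * lam * E.indicator (fun _ => (1 : ℝ)) ω) B P := i2.add i3
  rw [integral_add i1 i23, integral_add i2 i3,
    integral_const_mul, integral_const_mul, integral_const_mul, int_ind hAm, int_ind hEm] at h1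
  have h2 : b * ∫ ω in B, (ρ2 ω : ℝ) ∂P ≤ 1 / 4 * e0 := by
    calc b * ∫ ω in B, (ρ2 ω : ℝ) ∂P ≤ b * (lam * e0) := mul_le_mul_of_nonneg_left t2 hb
      _ = (b * lam) * e0 := by ring
      _ ≤ 1 / 4 * e0 := mul_le_mul_of_nonneg_right hbl he0nn
  have h3 : lam / 8 * P.real (A ∩ B) ≤ 1 / 4 * e0 := by
    calc lam / 8 * P.real (A ∩ B) ≤ lam / 8 * (2 / lam * e0) :=
          mul_le_mul_of_nonneg_left t3 (by positivity)
      _ = 1 / 4 * e0 := by field_simp; ring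
  have h4 : 1 / (12 * lam) * ∫ ω in B, (D (ρ2 ω) ω) ^ 2 ∂P ≤ 1 / 4 * e0 := by
    calc 1 / (12 * lam) * ∫ ω in B, (D (ρ2 ω) ω) ^ 2 ∂P ≤ 1 / (12 * lam) * (3 * lam * e0) :=
          mul_le_mul_of_nonneg_left (by linarith) (by positivity)
      _ = 1 / 4 * e0 := by field_simp; ring
  have h5 : 1 / 4 * e0 ≤ 3 * lam * P.real (E ∩ B) := by linarith
  rw [div_mul_eq_mul_div, one_mul, div_le_iff₀ (by positivity)]
  linarith

end Gap

end Pool.Agent.Y982.HW
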