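import Mathlib
import Pool.Agent.Y982.HW.First

open MeasureTheory Filter Topology
open scoped NNReal ENNReal

namespace Pool.Agent.Y982.HW

variable {Ω : Type*} {m : MeasurableSpace Ω} {𝓕 : Filtration ℝ≥0 m} {P : Measure Ω}

theorem prog {N : ℝ≥0 → Ω → ℝ} (hc : ∀ ω, Continuous (fun t => N t ω))
    (ha : ∀ t, Measurable[𝓕 t] (N t)) {ρ : Ω → ℝ≥0}
    (hρ : ∀ t, MeasurableSet[𝓕 t] {ω | ρ ω ≤ t}) (t : ℝ≥0) :
    Measurable[𝓕 t] (fun ω => N (min (ρ ω) t) ω) := by
  have h1 : @Measurable (ℝ≥0 × Ω) ℝ (@Prod.instMeasurableSpace _ _ _ (𝓕 t)) _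
      (Function.uncurry (fun u ω => N (min u t) ω)) := by
    refine measurable_uncurry_of_continuous_of_measurable (fun ω => ?_) (fun u => ?_)
    · exact (hc ω).comp (continuous_id.min continuous_const)
    · exact (ha _).mono (𝓕.mono (min_le_right _ _)) le_rfl
  have h2 : Measurable[𝓕 t] (fun ω => min (ρ ω) t) := by
    refine measurable_of_Iic fun u => ?_
    rcases le_or_gt t u with h | h
    · have : (fun ω => min (ρ ω) t) ⁻¹' Set.Iic u = Set.univ := by
        ext ω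
        simp [h]
      rw [this]; exact MeasurableSet.univ
    · have : (fun ω => min (ρ ω) t) ⁻¹' Set.Iic u = {ω | ρ ω ≤ u} := by
        ext ω
        simp [not_le.mpr h]
      rw [this]
      exact 𝓕.mono h.le _ (hρ u)
  have h3 : @Measurable Ω (ℝ≥0 × Ω) (𝓕 t) (@Prod.instMeasurableSpace _ _ _ (𝓕 t))
      (fun ω => (min (ρ ω) t, ω)) := by
    exact Measurable.prodMk h2 measurable_id
  have h4 := Measurable.comp h1 h3
  have h5 : (fun ω => N (min (ρ ω) t) ω) =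
      (Function.uncurry fun u ω => N (min u t) ω) ∘ (fun ω => (min (ρ ω) t, ω)) := by
    funext ω
    simp [Function.uncurry]
  rw [h5]
  exact h4

theorem prog_pos {N : ℝ≥0 → Ω → ℝ} (hc : ∀ ω, Continuous (fun t => N t ω))
    (ha : ∀ t, Measurable[𝓕 t] (N t)) {ρ : Ω → ℝ≥0}
    (hρ : ∀ t, MeasurableSet[𝓕 t] {ω | ρ ω ≤ t}) {B : Set Ω} (hB : MeasurableSet[𝓕 0] B)
    (t : ℝ≥0) :
    MeasurableSet[𝓕 t] ((B ∩ {ω | 0 < N (ρ ω) ω}) ∩ {ω | ρ ω ≤ t}) := by
  have h1 := prog hc ha hρ t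
  have h2 : (B ∩ {ω | 0 < N (ρ ω) ω}) ∩ {ω | ρ ω ≤ t} =
      (B ∩ {ω | 0 < N (min (ρ ω) t) ω}) ∩ {ω | ρ ω ≤ t} := by
    ext ω
    simp only [Set.mem_inter_iff, Set.mem_ofPred_eq]
    constructor
    · rintro ⟨⟨h3, h4⟩, h5⟩
      rw [min_eq_left h5]; exact ⟨⟨h3, h4⟩, h5⟩
    · rintro ⟨⟨h3, h4⟩, h5⟩
      rw [min_eq_left h5] at h4; exact ⟨⟨h3, h4⟩, h5⟩
  rw [h2]
  exact ((𝓕.mono zero_le _ hB).inter (h1 measurableSet_Ioi)).inter (hρ t)

/-- Orthogonality of the initial value and the stopped increment. -/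
theorem cross [IsProbabilityMeasure P] {N : ℝ≥0 → Ω → ℝ} (hN : Martingale N 𝓕 P)
    (hc : ∀ ω, Continuous (fun t => N t ω)) (h2 : MemLp (N 0) 2 P) {ρ : Ω → ℝ≥0}
    (hρ : ∀ t, MeasurableSet[𝓕 t] {ω | ρ ω ≤ t}) {T : ℝ≥0} (hT : ∀ ω, ρ ω ≤ T)
    (hρ2 : Integrable (fun ω => (N (ρ ω) ω) ^ 2) P)
    {B : Set Ω} (hB : MeasurableSet[𝓕 0] B) :
    Integrable (fun ω => N 0 ω * N (ρ ω) ω) P ∧
    ∫ ω in B, N 0 ω * N (ρ ω) ω ∂P = ∫ ω in B, (N 0 ω) ^ 2 ∂P := by
  have hi := (os hN hc hρ hT).1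
  have hL : MemLp (fun ω => N (ρ ω) ω) 2 P :=
    (memLp_two_iff_integrable_sq hi.1).mpr hρ2
  have hprod : Integrable ((N 0) * (fun ω => N (ρ ω) ω)) P := h2.integrable_mul hL
  refine ⟨hprod, ?_⟩
  have hce : N 0 =ᵐ[P] P[fun ω => N (ρ ω) ω | 𝓕 0] := by
    refine ae_eq_condExp_of_forall_setIntegral_eq (𝓕.le 0) hi
      (fun s _ _ => (hN.integrable 0).integrableOn) (fun s hs _ => ?_)
      (hN.1 0).aestronglyMeasurable
    exact (os0 hN hc hρ hT hs).symm
  have hpo : P[(N 0) * (fun ω => N (ρ ω) ω) | 𝓕 0] =ᵐ[P] (N 0) * P[fun ω => N (ρ ω) ω | 𝓕 0] :=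
    condExp_mul_of_stronglyMeasurable_left (hN.1 0) hprod hi
  have hBm : MeasurableSet B := 𝓕.le 0 _ hB
  calc ∫ ω in B, N 0 ω * N (ρ ω) ω ∂P
      = ∫ ω in B, (P[(N 0) * (fun ω => N (ρ ω) ω) | 𝓕 0]) ω ∂P :=
        (setIntegral_condExp (𝓕.le 0) hprod hB).symm
    _ = ∫ ω in B, (N 0 ω) ^ 2 ∂P := by
        refine setIntegral_congr_ae₀ hBm.nullMeasurableSet ?_
        filter_upwards [hce, hpo] with ω h3 h4 _
        rw [h4, Pi.mul_apply, ← h3]
        ring

namespace Gap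

variable {b : ℝ} {D G : ℝ≥0 → Ω → ℝ}

theorem sq_incr [IsProbabilityMeasure P] (h : Gap 𝓕 P b D G) {ρ : Ω → ℝ≥0}
    (hρ : ∀ t, MeasurableSet[𝓕 t] {ω | ρ ω ≤ t}) {T : ℝ≥0} (hT : ∀ ω, ρ ω ≤ T)
    {B : Set Ω} (hB : MeasurableSet[𝓕 0] B) :
    Integrable (fun ω => (D (ρ ω) ω - D 0 ω) ^ 2) P ∧
    ∫ ω in B, (D (ρ ω) ω - D 0 ω) ^ 2 ∂P = 2 * ∫ ω in B, away D (ρ ω) ω ∂P := by
  have c := cross h.mD h.cD (h.lD 0) hρ hT (h.int_sq hρ hT) hB
  have s1 := h.sq_D hρ hT hB
  have j1 : Integrable (fun ω => (D (ρ ω) ω) ^ 2) P := h.int_sq hρ hT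
  have j2 : Integrable (fun ω => 2 * (D 0 ω * D (ρ ω) ω)) P := c.1.const_mul 2
  have j3 : Integrable (fun ω => (D 0 ω) ^ 2) P := (h.lD 0).integrable_sq
  have j12 : Integrable (fun ω => (D (ρ ω) ω) ^ 2 - 2 * (D 0 ω * D (ρ ω) ω)) P := j1.sub j2
  have e : (fun ω => (D (ρ ω) ω - D 0 ω) ^ 2) =
      fun ω => ((D (ρ ω) ω) ^ 2 - 2 * (D 0 ω * D (ρ ω) ω)) + (D 0 ω) ^ 2 := by
    funext ω; ring
  constructor
  · rw [e]; exact j12.add j3
  · rw [e, integral_add j12.integrableOn j3.integrableOn,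
      integral_sub j1.integrableOn j2.integrableOn, integral_const_mul, c.2, s1]
    ring

theorem climb [IsProbabilityMeasure P] (h : Gap 𝓕 P b D G) {lam : ℝ} (hlam : 0 < lam)
    {s : ℝ≥0} (hs : (s : ℝ) = lam ^ 2 / 2) (hbl : b * lam ≤ 1 / 8) {B : Set Ω}
    (hB : MeasurableSet[𝓕 0] B) (hB1 : ∀ ω ∈ B, lam < D 0 ω) :
    1 / 64 * P.real B ≤ P.real ({ω | D 0 ω + lam / 16 < G s ω} ∩ B) := by
  have hBm : MeasurableSet B := 𝓕.le 0 _ hB
  have hspos : (0 : ℝ) < s := by rw [hs]; positivity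
  have haD0 : ∀ t, Measurable[𝓕 t] (D 0) := fun t => (h.aD 0).mono (𝓕.mono zero_le) le_rfl
  set Φ : ℝ≥0 → Ω → ℝ := fun t ω => lam - |D t ω - D 0 ω| with hΦ
  have hΦc : ∀ ω, Continuous fun t => Φ t ω := fun ω =>
    continuous_const.sub ((h.cD ω).sub continuous_const).abs
  have hΦa : ∀ t, Measurable[𝓕 t] (Φ t) := fun t => by
    have h1 : Measurable[𝓕 t] (fun ω => |D t ω - D 0 ω|) :=
      (continuous_abs.measurable).comp ((h.aD t).sub (haD0 t))
    exact h1.const_sub lam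
  set ρ : Ω → ℝ≥0 := hit Φ s with hρ
  have mρ : ∀ t, MeasurableSet[𝓕 t] {ω | ρ ω ≤ t} := fun t => hit_meas hΦc hΦa s t
  have lρ : ∀ ω, ρ ω ≤ s := fun ω => hit_le _ _ _
  have ms : ∀ t, MeasurableSet[𝓕 t] {ω : Ω | (fun _ => s) ω ≤ t} := fun t => by
    exact MeasurableSet.const (s ≤ t)
  have ls : ∀ ω : Ω, (fun _ => s) ω ≤ s := fun ω => le_rfl
  have v1 : ∀ ω, |D (ρ ω) ω - D 0 ω| ≤ lam := by
    intro ω
    have h0 : 0 ≤ Φ 0 ω := by simp [hΦ, hlam.le]
    have h1 := hit_nonneg (T := s) (hΦc ω) h0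
    simp only [hΦ] at h1
    have h2 : 0 ≤ lam - |D (ρ ω) ω - D 0 ω| := h1
    linarith
  have p1 : ∀ ω ∈ B, ∀ u < ρ ω, 0 < D u ω := by
    intro ω hω u hu
    have h1 := pos_of_lt_hit hu
    simp only [hΦ] at h1
    have h2 := neg_abs_le (D u ω - D 0 ω)
    have h3 := hB1 ω hω
    linarith
  have a1 : ∫ ω in B, away D (ρ ω) ω ∂P = ∫ ω in B, (ρ ω : ℝ) ∂P :=
    setIntegral_congr_fun hBm fun ω hω => away_eq (p1 ω hω)
  obtain ⟨j2, q1⟩ := h.sq_incr mρ lρ hB
  rw [a1] at q1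
  have jD0 : Integrable (D 0) P := (h.lD 0).integrable (by norm_num)
  have jN : Integrable (fun ω => D (ρ ω) ω - D 0 ω) P := (h.int_D mρ lρ).sub jD0
  set x : ℝ := ∫ ω in B, |D (ρ ω) ω - D 0 ω| ∂P with hx
  have t1 : 2 * ∫ ω in B, (ρ ω : ℝ) ∂P ≤ lam * x := by
    rw [← q1, hx, ← integral_const_mul]
    refine setIntegral_mono_on j2.integrableOn (jN.abs.const_mul _).integrableOn hBm
      fun ω _ => ?_
    rw [← sq_abs]
    nlinarith [v1 ω, abs_nonneg (D (ρ ω) ω - D 0 ω)]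
  have t2 : (s : ℝ) * P.real B ≤ lam * x := by
    have h1 : ∫ ω in B, (s : ℝ) ∂P ≤ ∫ ω in B, ((ρ ω : ℝ) + (s / lam) * |D (ρ ω) ω - D 0 ω|) ∂P := by
      refine setIntegral_mono_on (integrable_const _).integrableOn
        ((int_time mρ lρ).integrableOn.add (jN.abs.const_mul _).integrableOn) hBm
        fun ω hω => ?_
      have hnn : 0 ≤ (s : ℝ) / lam * |D (ρ ω) ω - D 0 ω| := by positivity
      rcases hit_mem (T := s) (hΦc ω) with h2 | h2
      · have h4 : ρ ω = s := h2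
        rw [h4] at hnn ⊢
        linarith
      · simp only [hΦ] at h2
        have h3' : lam ≤ |D (ρ ω) ω - D 0 ω| := by
          have h6 : lam - |D (ρ ω) ω - D 0 ω| ≤ 0 := h2
          linarith
        have h4 : (s : ℝ) ≤ s / lam * |D (ρ ω) ω - D 0 ω| := by
          rw [div_mul_eq_mul_div, le_div_iff₀ hlam]
          nlinarith
        have h6 : (0 : ℝ) ≤ ρ ω := NNReal.coe_nonneg _
        linarith
    rw [integral_add (int_time mρ lρ).integrableOn (jN.abs.const_mul _).integrableOn,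
      integral_const_mul, ← hx, setIntegral_const, smul_eq_mul] at h1
    have h2 : (s : ℝ) / lam * x = lam * x / 2 := by
      rw [hs]; field_simp
    linarith
  have t3 : lam / 2 * P.real B ≤ x := by
    rw [hs] at t2
    have h3 : lam * (lam / 2 * P.real B) ≤ lam * x := by linarith
    exact le_of_mul_le_mul_left h3 hlam
  -- positive part at the stopping time
  set C : Set Ω := B ∩ {ω | 0 < D (ρ ω) ω - D 0 ω} with hC
  have hCt : ∀ t, MeasurableSet[𝓕 t] (C ∩ {ω | ρ ω ≤ t}) := fun t =>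
    prog_pos (N := fun u ω => D u ω - D 0 ω) (fun ω => (h.cD ω).sub continuous_const)
      (fun t => (h.aD t).sub (haD0 t)) mρ hB t
  have hDρm : Measurable (fun ω => D (ρ ω) ω) := meas_at h.cD h.mDt (meas_of_le mρ)
  have hCm : MeasurableSet C := hBm.inter (measurableSet_lt measurable_const
    (hDρm.sub (h.mDt 0)))
  have hCB : C ∩ B = C := Set.inter_eq_left.mpr Set.inter_subset_left
  have m0 : ∫ ω in B, (D (ρ ω) ω - D 0 ω) ∂P = 0 := by
    rw [integral_sub (h.int_D mρ lρ).integrableOn jD0.integrableOn, h.mean_D mρ lρ hB]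
    ring
  have t4 : x = 2 * ∫ ω in C, (D (ρ ω) ω - D 0 ω) ∂P := by
    have h1 : x = ∫ ω in B, (2 * C.indicator (fun ω => D (ρ ω) ω - D 0 ω) ω -
        (D (ρ ω) ω - D 0 ω)) ∂P := by
      refine setIntegral_congr_fun hBm fun ω hω => ?_
      by_cases hc : 0 < D (ρ ω) ω - D 0 ω
      · have : ω ∈ C := ⟨hω, hc⟩
        simp only [Set.indicator_of_mem this, abs_of_pos hc]
        ring
      · have : ω ∉ C := fun h => hc h.2
        simp only [Set.indicator_of_notMem this, abs_of_nonpos (not_lt.mp hc)]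
        ring
    rw [h1, integral_sub ((jN.indicator hCm).const_mul 2).integrableOn jN.integrableOn, m0,
      integral_const_mul, integral_indicator hCm, Measure.restrict_restrict hCm, hCB, sub_zero]
  have t5 : ∫ ω in C, (D (ρ ω) ω - D 0 ω) ∂P = ∫ ω in C, (D s ω - D 0 ω) ∂P := by
    have hDs : Integrable (D s) P := h.mD.integrable s
    rw [integral_sub (h.int_D mρ lρ).integrableOn jD0.integrableOn,
      integral_sub hDs.integrableOn jD0.integrableOn,
      (os h.mD h.cD mρ lρ).2 C hCt]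
  -- second moment at time s
  obtain ⟨k2, r1⟩ := h.sq_incr ms ls hB
  have r2 : ∫ ω in B, away D s ω ∂P ≤ (s : ℝ) * P.real B := by
    have h1 : ∫ ω in B, away D s ω ∂P ≤ ∫ ω in B, (s : ℝ) ∂P := by
      refine setIntegral_mono_on (h.int_away ms ls).integrableOn
        (integrable_const _).integrableOn hBm fun ω _ => ?_
      have h1 := away_sub (h.cD ω) (zero_le : (0 : ℝ≥0) ≤ s)
      rw [away_zero] at h1
      simpa using h1.2
    rw [setIntegral_const, smul_eq_mul] at h1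
    linarith
  have r3 : ∫ ω in B, (D s ω - D 0 ω) ^ 2 ∂P ≤ lam ^ 2 * P.real B := by
    have h1 : ∫ ω in B, (D s ω - D 0 ω) ^ 2 ∂P = 2 * ∫ ω in B, away D s ω ∂P := r1
    rw [h1]
    rw [hs] at r2
    linarith
  have g1 : ∫ ω in B, D 0 ω ∂P - b * ∫ ω in B, (s : ℝ) ∂P ≤ ∫ ω in B, G s ω ∂P :=
    h.mean_G ms ls hB
  rw [setIntegral_const, smul_eq_mul] at g1
  have g2 : ∫ ω in B, D s ω ∂P = ∫ ω in B, D 0 ω ∂P := h.mean_D ms ls hB
  have jG : Integrable (G s) P := h.int_G ms ls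
  have jDs : Integrable (D s) P := h.mD.integrable s
  have g3 : ∫ ω in B, (D s ω - G s ω) ∂P ≤ lam / 16 * P.real B := by
    rw [integral_sub jDs.integrableOn jG.integrableOn, g2]
    have h1 : b * (P.real B * s) ≤ lam / 16 * P.real B := by
      rw [hs]
      have : b * (P.real B * (lam ^ 2 / 2)) = (b * lam) * (lam / 2 * P.real B) := by ring
      rw [this]
      have h2 : (b * lam) * (lam / 2 * P.real B) ≤ 1 / 8 * (lam / 2 * P.real B) :=
        mul_le_mul_of_nonneg_right hbl (by positivity)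
      linarith
    linarith
  set E : Set Ω := {ω | D 0 ω + lam / 16 < G s ω} with hE
  have hGm : Measurable (G s) := (h.aG s).mono (𝓕.le s) le_rfl
  have hEm : MeasurableSet E := measurableSet_lt ((h.mDt 0).add_const _) hGm
  -- pointwise comparison
  have u1 : ∫ ω in B, C.indicator (fun ω => D s ω - D 0 ω) ω ∂P ≤
      ∫ ω in B, ((D s ω - G s ω) + (lam / 16 + (1 / (16 * lam) * (D s ω - D 0 ω) ^ 2 +
        4 * lam * E.indicator (fun _ => (1 : ℝ)) ω))) ∂P := by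
    refine setIntegral_mono_on ((jDs.sub jD0).indicator hCm).integrableOn
      ((jDs.sub jG).integrableOn.add ((integrable_const _).integrableOn.add
        ((k2.const_mul _).integrableOn.add ((int_ind' hEm).const_mul _)))) hBm fun ω hω => ?_
    have hD := h.le s ω
    have hsq : 0 ≤ 1 / (16 * lam) * (D s ω - D 0 ω) ^ 2 := by positivity
    have hind : 0 ≤ 4 * lam * E.indicator (fun _ => (1 : ℝ)) ω := by
      by_cases hωE : ω ∈ E
      · simp only [Set.indicator_of_mem hωE]; positivity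
      · simp [Set.indicator_of_notMem hωE]
    have main : D s ω - D 0 ω ≤ (D s ω - G s ω) + (lam / 16 +
        (1 / (16 * lam) * (D s ω - D 0 ω) ^ 2 + 4 * lam * E.indicator (fun _ => (1 : ℝ)) ω)) := by
      by_cases hωE : ω ∈ E
      · have h1 : D 0 ω + lam / 16 < G s ω := hωE
        simp only [Set.indicator_of_mem hωE, mul_one]
        set y : ℝ := G s ω - D 0 ω - lam / 16 with hy
        have hy0 : 0 < y := by linarith
        have hyN : y ≤ D s ω - D 0 ω := by linarith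
        have hy2 : y ^ 2 ≤ (D s ω - D 0 ω) ^ 2 := pow_le_pow_left₀ hy0.le hyN 2
        have key : y ≤ 1 / (16 * lam) * y ^ 2 + 4 * lam := by
          rw [← sub_nonneg]
          have : 1 / (16 * lam) * y ^ 2 + 4 * lam - y = (y - 8 * lam) ^ 2 / (16 * lam) := by
            field_simp; ring
          rw [this]; positivity
        have h3 : 1 / (16 * lam) * y ^ 2 ≤ 1 / (16 * lam) * (D s ω - D 0 ω) ^ 2 :=
          mul_le_mul_of_nonneg_left hy2 (by positivity)
        linarith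
      · have h1 : G s ω ≤ D 0 ω + lam / 16 := not_lt.mp hωE
        simp only [Set.indicator_of_notMem hωE, mul_zero, add_zero]
        linarith
    by_cases hωC : ω ∈ C
    · simp only [Set.indicator_of_mem hωC]
      exact main
    · simp only [Set.indicator_of_notMem hωC]
      have : 0 ≤ D s ω - G s ω := by linarith
      have := hlam.le
      linarith
  have z1 : IntegrableOn (fun ω => D s ω - G s ω) B P := (jDs.sub jG).integrableOn
  have z2 : IntegrableOn (fun _ : Ω => lam / 16) B P := (integrable_const _).integrableOn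
  have z3 : IntegrableOn (fun ω => 1 / (16 * lam) * (D s ω - D 0 ω) ^ 2) B P :=
    (k2.const_mul _).integrableOn
  have z4 : IntegrableOn (fun ω => 4 * lam * E.indicator (fun _ => (1 : ℝ)) ω) B P :=
    (int_ind' hEm).const_mul _
  have z34 : IntegrableOn (fun ω => 1 / (16 * lam) * (D s ω - D 0 ω) ^ 2 +
      4 * lam * E.indicator (fun _ => (1 : ℝ)) ω) B P := z3.add z4
  have z234 : IntegrableOn (fun ω => lam / 16 + (1 / (16 * lam) * (D s ω - D 0 ω) ^ 2 +
      4 * lam * E.indicator (fun _ => (1 : ℝ)) ω)) B P := z2.add z34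
  rw [integral_add z1 z234, integral_add z2 z34, integral_add z3 z4, integral_const_mul,
    integral_const_mul, int_ind hEm, setIntegral_const, smul_eq_mul, integral_indicator hCm,
    Measure.restrict_restrict hCm, hCB, ← t5] at u1
  have w1 : 1 / (16 * lam) * ∫ ω in B, (D s ω - D 0 ω) ^ 2 ∂P ≤ lam / 16 * P.real B := by
    calc 1 / (16 * lam) * ∫ ω in B, (D s ω - D 0 ω) ^ 2 ∂P
        ≤ 1 / (16 * lam) * (lam ^ 2 * P.real B) := mul_le_mul_of_nonneg_left r3 (by positivity)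
      _ = lam / 16 * P.real B := by field_simp
  have w2 : lam / 4 * P.real B ≤ ∫ ω in C, (D (ρ ω) ω - D 0 ω) ∂P := by linarith
  have w3 : lam * (1 / 64 * P.real B) ≤ lam * P.real (E ∩ B) := by linarith
  exact le_of_mul_le_mul_left w3 hlam

end Gap

end Pool.Agent.Y982.HW
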