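import Mathlib
import Pool.Agent.Y982.HW.Climb

open MeasureTheory Filter Topology
open scoped NNReal ENNReal

namespace Pool.Agent.Y982.HW

variable {Ω : Type*} {m : MeasurableSpace Ω} {𝓕 : Filtration ℝ≥0 m} {P : Measure Ω}

/-- The filtration started at time `r`. -/
def shiftF (𝓕 : Filtration ℝ≥0 m) (r : ℝ≥0) : Filtration ℝ≥0 m where
  seq := fun u => 𝓕 (r + u)
  mono' := fun _ _ h => 𝓕.mono (add_le_add_right h r)
  le' := fun _ => 𝓕.le _

theorem shiftF_apply (𝓕 : Filtration ℝ≥0 m) (r u : ℝ≥0) :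
    (shiftF 𝓕 r) u = 𝓕 (r + u) := rfl

theorem mart_shift {N : ℝ≥0 → Ω → ℝ} (hN : Martingale N 𝓕 P) (r : ℝ≥0) :
    Martingale (fun u => N (r + u)) (shiftF 𝓕 r) P :=
  ⟨fun u => hN.1 (r + u), fun _ _ h => hN.2 _ _ (add_le_add_right h r)⟩

theorem mart_indicator [IsProbabilityMeasure P] {N : ℝ≥0 → Ω → ℝ} (hN : Martingale N 𝓕 P)
    {S : Set Ω} (hS : MeasurableSet[𝓕 0] S) :
    Martingale (fun t => S.indicator (N t)) 𝓕 P := by
  refine ⟨fun t => (hN.1 t).indicator (𝓕.mono zero_le _ hS), fun s t hst => ?_⟩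
  refine (condExp_indicator (hN.integrable t) (𝓕.mono zero_le _ hS)).trans ?_
  filter_upwards [hN.2 s t hst] with ω hω
  by_cases h : ω ∈ S
  · simp [h, hω]
  · simp [h]

theorem sel_eq {ι : Type*} [Fintype ι] [DecidableEq ι] (κ : Ω → ι) (f : ι → Ω → ℝ) :
    (fun ω => f (κ ω) ω) = fun ω => ∑ k, (κ ⁻¹' {k}).indicator (f k) ω := by
  funext ω
  rw [Finset.sum_eq_single (κ ω)]
  · simp
  · intro k _ hk
    have : ω ∉ κ ⁻¹' {k} := fun h => hk (by simpa using h.symm)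
    simp [Set.indicator_of_notMem this]
  · simp

theorem mart_select [IsProbabilityMeasure P] {ι : Type*} [Fintype ι] [DecidableEq ι]
    {κ : Ω → ι} (hκ : ∀ k, MeasurableSet[𝓕 0] (κ ⁻¹' {k})) {N : ι → ℝ≥0 → Ω → ℝ}
    (hN : ∀ k, Martingale (N k) 𝓕 P) : Martingale (fun t ω => N (κ ω) t ω) 𝓕 P := by
  have h1 : ∀ A : Finset ι, Martingale (fun t ω => ∑ k ∈ A, (κ ⁻¹' {k}).indicator (N k t) ω) 𝓕 P := by
    intro A
    induction A using Finset.induction_on with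
    | empty =>
      have h0 : (fun (t : ℝ≥0) ω => ∑ k ∈ (∅ : Finset ι), (κ ⁻¹' {k}).indicator (N k t) ω) =
          (0 : ℝ≥0 → Ω → ℝ) := by
        funext t ω
        simp
      rw [h0]
      exact martingale_zero ℝ 𝓕 P
    | insert a s ha ih =>
      have := (mart_indicator (hN a) (hκ a)).add ih
      have h0 : (fun (t : ℝ≥0) ω => ∑ k ∈ insert a s, (κ ⁻¹' {k}).indicator (N k t) ω) =
          (fun t => (κ ⁻¹' {a}).indicator (N a t)) +
              fun t ω => ∑ k ∈ s, (κ ⁻¹' {k}).indicator (N k t) ω := by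
        funext t ω
        rw [Finset.sum_insert ha]
        rfl
      rw [h0]
      exact this
  have h2 := h1 Finset.univ
  have h3 : (fun t ω => N (κ ω) t ω) =
      fun t ω => ∑ k, (κ ⁻¹' {k}).indicator (N k t) ω := by
    funext t
    exact sel_eq κ (fun k => N k t)
  rw [h3]
  exact h2

theorem memLp_select {ι : Type*} [Fintype ι] [DecidableEq ι]
    {κ : Ω → ι} (hκ : ∀ k, MeasurableSet (κ ⁻¹' {k})) {f : ι → Ω → ℝ}
    (hf : ∀ k, MemLp (f k) 2 P) : MemLp (fun ω => f (κ ω) ω) 2 P := by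
  rw [sel_eq]
  exact memLp_finsetSum _ fun k _ => (hf k).indicator (hκ k)

theorem meas_select {ι : Type*} [Fintype ι] [DecidableEq ι] {m' : MeasurableSpace Ω}
    {κ : Ω → ι} (hκ : ∀ k, MeasurableSet[m'] (κ ⁻¹' {k})) {f : ι → Ω → ℝ}
    (hf : ∀ k, Measurable[m'] (f k)) : Measurable[m'] (fun ω => f (κ ω) ω) := by
  rw [sel_eq]
  exact Finset.measurable_sum _ fun k _ => (hf k).indicator (hκ k)

/-- A continuous square-integrable martingale with bracket `t`. -/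
structure BM (𝓕 : Filtration ℝ≥0 m) (P : Measure Ω) (W : ℝ≥0 → Ω → ℝ) : Prop where
  c : ∀ ω, Continuous fun t => W t ω
  l2 : ∀ t, MemLp (W t) 2 P
  m : Martingale W 𝓕 P
  q : Martingale (fun t ω => (W t ω) ^ 2 - (t : ℝ)) 𝓕 P

namespace BM

variable {W : ℝ≥0 → Ω → ℝ}

theorem shift [IsProbabilityMeasure P] (h : BM 𝓕 P W) (r : ℝ≥0) :
    BM (shiftF 𝓕 r) P (fun u => W (r + u)) where
  c := fun ω => (h.c ω).comp (continuous_const.add continuous_id)
  l2 := fun t => h.l2 _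
  m := mart_shift h.m r
  q := by
    have h1 := (mart_shift h.q r).add (martingale_const (shiftF 𝓕 r) P (r : ℝ))
    have h2 : (fun t ω => (W (r + t) ω) ^ 2 - (t : ℝ)) =
        ((fun u => (fun t ω => (W t ω) ^ 2 - (t : ℝ)) (r + u)) + fun _ _ => (r : ℝ)) := by
      funext t ω
      simp only [Pi.add_apply, NNReal.coe_add]
      ring
    rw [h2]
    exact h1

theorem sq_incr [IsProbabilityMeasure P] (h : BM 𝓕 P W) {ρ : Ω → ℝ≥0}
    (hρ : ∀ t, MeasurableSet[𝓕 t] {ω | ρ ω ≤ t}) {T : ℝ≥0} (hT : ∀ ω, ρ ω ≤ T)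
    {B : Set Ω} (hB : MeasurableSet[𝓕 0] B) :
    Integrable (fun ω => (W (ρ ω) ω - W 0 ω) ^ 2) P ∧
    ∫ ω in B, (W (ρ ω) ω - W 0 ω) ^ 2 ∂P = ∫ ω in B, (ρ ω : ℝ) ∂P := by
  have hcont : ∀ ω, Continuous fun t : ℝ≥0 => (W t ω) ^ 2 - (t : ℝ) := fun ω =>
    ((h.c ω).pow 2).sub NNReal.continuous_coe
  have hq := os h.q hcont hρ hT
  have jt := int_time (P := P) hρ hT
  have j1 : Integrable (fun ω => (W (ρ ω) ω) ^ 2) P := by
    refine (hq.1.add jt).congr (Eventually.of_forall fun ω => ?_)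
    simp
  have c := cross h.m h.c (h.l2 0) hρ hT j1 hB
  have s1 := os0 h.q hcont hρ hT hB
  have j3 : Integrable (fun ω => (W 0 ω) ^ 2) P := (h.l2 0).integrable_sq
  rw [integral_sub j1.integrableOn jt.integrableOn] at s1
  simp only [NNReal.coe_zero, sub_zero] at s1
  have j2 : Integrable (fun ω => 2 * (W 0 ω * W (ρ ω) ω)) P := c.1.const_mul 2
  have j12 : Integrable (fun ω => (W (ρ ω) ω) ^ 2 - 2 * (W 0 ω * W (ρ ω) ω)) P := j1.sub j2
  have e : (fun ω => (W (ρ ω) ω - W 0 ω) ^ 2) =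
      fun ω => ((W (ρ ω) ω) ^ 2 - 2 * (W 0 ω * W (ρ ω) ω)) + (W 0 ω) ^ 2 := by
    funext ω; ring
  constructor
  · rw [e]; exact j12.add j3
  · rw [e, integral_add j12.integrableOn j3.integrableOn,
      integral_sub j1.integrableOn j2.integrableOn, integral_const_mul, c.2]
    linarith

theorem sq_const [IsProbabilityMeasure P] (h : BM 𝓕 P W) (t : ℝ≥0)
    {B : Set Ω} (hB : MeasurableSet[𝓕 0] B) :
    Integrable (fun ω => (W t ω - W 0 ω) ^ 2) P ∧
    ∫ ω in B, (W t ω - W 0 ω) ^ 2 ∂P = t * P.real B := by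
  have h1 := h.sq_incr (ρ := fun _ => t) (T := t)
    (fun s => by exact MeasurableSet.const (t ≤ s)) (fun _ => le_rfl) hB
  refine ⟨h1.1, ?_⟩
  rw [h1.2, setIntegral_const, smul_eq_mul, mul_comm]

/-- increments between two times -/
theorem sq_two [IsProbabilityMeasure P] (h : BM 𝓕 P W) {s t : ℝ≥0} (hst : s ≤ t)
    {B : Set Ω} (hB : MeasurableSet[𝓕 s] B) :
    Integrable (fun ω => (W t ω - W s ω) ^ 2) P ∧
    ∫ ω in B, (W t ω - W s ω) ^ 2 ∂P = ((t : ℝ) - s) * P.real B := by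
  have hB' : MeasurableSet[(shiftF 𝓕 s) 0] B := by
    rw [shiftF_apply, add_zero]; exact hB
  have h1 := (h.shift s).sq_const (t - s) hB'
  have e1 : s + (t - s) = t := add_tsub_cancel_of_le hst
  simp only [e1, add_zero] at h1
  rw [NNReal.coe_sub hst] at h1
  exact h1

end BM

end Pool.Agent.Y982.HW
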