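import Mathlib
import Pool.Agent.Y982.HW.Sel
import Pool.Agent.Y982.HW.Comb

open MeasureTheory Filter Topology
open scoped NNReal ENNReal

namespace Pool.Agent.Y982.HW

theorem sup_cont {n : ℕ} {T : Type*} [TopologicalSpace T] {f : T → Fin n → ℝ}
    (hf : ∀ i, Continuous fun t => f t i) (Γ : Finset (Fin n)) (h : Γ.Nonempty) :
    Continuous fun t => Γ.sup' h (f t) :=
  Continuous.finset_sup'_apply h fun i _ => hf i

theorem inf_cont {n : ℕ} {T : Type*} [TopologicalSpace T] {f : T → Fin n → ℝ}
    (hf : ∀ i, Continuous fun t => f t i) (Γ : Finset (Fin n)) (h : Γ.Nonempty) :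
    Continuous fun t => Γ.inf' h (f t) :=
  Continuous.finset_inf'_apply h fun i _ => hf i

theorem meas_ml {n : ℕ} (Γ : Finset (Fin n)) : Measurable (ml Γ) := by
  by_cases h : Γ.Nonempty
  · have h1 : ml Γ = fun x => ∑ i ∈ Γ, if x i = Γ.sup' h x then 1 else 0 := by
      funext x
      simp only [ml, h, dite_true, mult, Finset.card_filter]
    rw [h1]
    refine Finset.measurable_sum _ fun i _ => ?_
    refine Measurable.ite (measurableSet_eq_fun (measurable_pi_apply i) ?_) measurable_const
      measurable_const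
    exact (sup_cont (f := fun x : Fin n → ℝ => x) (fun i => continuous_apply i) Γ h).measurable
  · have h1 : ml Γ = fun _ => 0 := by
      funext x
      simp [ml, h]
    rw [h1]; exact measurable_const

theorem ml_le {n : ℕ} (Γ : Finset (Fin n)) (x : Fin n → ℝ) : ml Γ x ≤ n := by
  by_cases h : Γ.Nonempty
  · simp only [ml, h, dite_true, mult]
    calc (Γ.filter fun i => x i = Γ.sup' h x).card ≤ Γ.card := Finset.card_filter_le _ _
      _ ≤ n := by simpa using Finset.card_le_univ Γ
  · simp [ml, h]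

/-- A path functional integrated in time. -/
noncomputable def acc {n : ℕ} {Ω : Type*} (X : ℝ≥0 → Ω → Fin n → ℝ) (g : (Fin n → ℝ) → ℝ)
    (t : ℝ≥0) (ω : Ω) : ℝ := ∫ s in (0 : ℝ)..t, g (X s.toNNReal ω)

theorem acc_int {n : ℕ} {Ω : Type*} {X : ℝ≥0 → Ω → Fin n → ℝ} {ω : Ω}
    (hc : ∀ i, Continuous fun t => X t ω i) {g : (Fin n → ℝ) → ℝ} (hg : Measurable g) {C : ℝ}
    (hC : ∀ x, |g x| ≤ C) (a b : ℝ) :
    IntervalIntegrable (fun s : ℝ => g (X s.toNNReal ω)) volume a b := by
  have h1 : Continuous fun s : ℝ => X s.toNNReal ω :=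
    continuous_pi fun i => (hc i).comp continuous_real_toNNReal
  refine IntervalIntegrable.mono_fun (intervalIntegrable_const (c := C))
    (hg.comp h1.measurable).aestronglyMeasurable (Eventually.of_forall fun s => ?_)
  simp only [Real.norm_eq_abs]
  exact (hC _).trans (le_abs_self C)

theorem acc_sub {n : ℕ} {Ω : Type*} {X : ℝ≥0 → Ω → Fin n → ℝ} {ω : Ω}
    (hc : ∀ i, Continuous fun t => X t ω i) {g : (Fin n → ℝ) → ℝ} (hg : Measurable g) {C : ℝ}
    (hC : ∀ x, |g x| ≤ C) {a b : ℝ} (hab : ∀ x, a ≤ g x ∧ g x ≤ b) {s t : ℝ≥0} (hst : s ≤ t) :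
    a * (t - s) ≤ acc X g t ω - acc X g s ω ∧ acc X g t ω - acc X g s ω ≤ b * (t - s) := by
  unfold acc
  rw [intervalIntegral.integral_interval_sub_left (acc_int hc hg hC _ _) (acc_int hc hg hC _ _)]
  have hst' : (s : ℝ) ≤ t := by exact_mod_cast hst
  constructor
  · have := intervalIntegral.integral_mono_on hst'
      (intervalIntegrable_const (c := a)) (acc_int hc hg hC _ _) (fun u _ => (hab _).1)
    simpa [mul_comm] using this
  · have := intervalIntegral.integral_mono_on hst'
      (acc_int hc hg hC _ _) (intervalIntegrable_const (c := b)) (fun u _ => (hab _).2)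
    simpa [mul_comm] using this

theorem acc_cont {n : ℕ} {Ω : Type*} {X : ℝ≥0 → Ω → Fin n → ℝ} {ω : Ω}
    (hc : ∀ i, Continuous fun t => X t ω i) {g : (Fin n → ℝ) → ℝ} (hg : Measurable g) {C : ℝ}
    (hC : ∀ x, |g x| ≤ C) : Continuous fun t => acc X g t ω :=
  (intervalIntegral.continuous_primitive (fun a b => acc_int hc hg hC a b) 0).comp
    NNReal.continuous_coe

theorem acc_zero {n : ℕ} {Ω : Type*} (X : ℝ≥0 → Ω → Fin n → ℝ) (g : (Fin n → ℝ) → ℝ) (ω : Ω) :
    acc X g 0 ω = 0 := by simp [acc]

theorem acc_abs {n : ℕ} {Ω : Type*} {X : ℝ≥0 → Ω → Fin n → ℝ} {ω : Ω}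
    (hc : ∀ i, Continuous fun t => X t ω i) {g : (Fin n → ℝ) → ℝ} (hg : Measurable g) {C : ℝ}
    (hC : ∀ x, |g x| ≤ C) (t : ℝ≥0) : |acc X g t ω| ≤ C * t := by
  have h1 := acc_sub hc hg hC (a := -C) (b := C) (fun x => abs_le.mp (hC x))
    (zero_le : (0 : ℝ≥0) ≤ t)
  rw [acc_zero, NNReal.coe_zero, sub_zero, sub_zero] at h1
  rw [abs_le]
  constructor
  · linarith [h1.1]
  · exact h1.2

namespace HWSolution

variable {Ω : Type*} [MeasurableSpace Ω] {P : Measure Ω} [IsProbabilityMeasure P] {β : ℝ}
  {ν : Measure unitInterval} [IsFiniteMeasure ν] {n : ℕ} {x : Fin n → ℝ}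
  {X : ℝ≥0 → Ω → Fin n → ℝ}

set_option linter.unusedSectionVars false

/-- The natural filtration of a solution. -/
noncomputable def F (h : HWSolution P β ν x X) : Filtration ℝ≥0 ‹MeasurableSpace Ω› :=
  Filtration.natural X h.meas

theorem adX (h : HWSolution P β ν x X) (t : ℝ≥0) : Measurable[h.F t] (X t) := by
  have h1 : MeasurableSpace.comap (X t) inferInstance ≤ h.F t :=
    le_iSup₂_of_le t le_rfl le_rfl
  exact (comap_measurable (X t)).mono h1 le_rfl

theorem adXi (h : HWSolution P β ν x X) (t : ℝ≥0) (i : Fin n) :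
    Measurable[h.F t] (fun ω => X t ω i) :=
  (measurable_pi_apply i).comp (h.adX t)

/-- single particles are Brownian motions with drift -/
theorem bm (h : HWSolution P β ν x X) (i : Fin n) :
    BM h.F P (fun t ω => X t ω i - β * t) where
  c := fun ω => (h.cont ω i).sub (continuous_const.mul NNReal.continuous_coe)
  l2 := fun t => (h.sq t i).sub (memLp_const _)
  m := by
    have h1 := h.top {i} (Finset.singleton_nonempty i)
    have h2 : (fun (t : ℝ≥0) ω => ({i} : Finset (Fin n)).sup' (Finset.singleton_nonempty i) (X t ω) -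
        ∫ s in (0 : ℝ)..t, betaPlus β ν (mult {i} (Finset.singleton_nonempty i)
          (X s.toNNReal ω))) = fun t ω => X t ω i - β * t := by
      funext t ω
      have h3 : ∀ y : Fin n → ℝ, mult {i} (Finset.singleton_nonempty i) y = 1 := by
        intro y
        unfold mult
        rw [Finset.filter_true_of_mem (fun k hk => by
          rw [Finset.mem_singleton.mp hk, Finset.sup'_singleton])]
        exact Finset.card_singleton i
      simp only [Finset.sup'_singleton, h3]
      have h4 : betaPlus β ν 1 = β := by simp [betaPlus]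
      simp only [h4, intervalIntegral.integral_const, sub_zero, smul_eq_mul]
      ring
    rw [h2] at h1
    exact h1
  q := by
    have h1 := h.bracket i i
    have h2 : (fun (t : ℝ≥0) ω => (X t ω i - β * t) * (X t ω i - β * t) -
        ∫ s in (0 : ℝ)..t, (if X s.toNNReal ω i = X s.toNNReal ω i then (1 : ℝ) else 0)) =
        fun t ω => (X t ω i - β * t) ^ 2 - t := by
      funext t ω
      simp only [if_true, intervalIntegral.integral_const, sub_zero, smul_eq_mul]
      ring
    rw [h2] at h1
    exact h1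

theorem mD (h : HWSolution P β ν x X) (i j : Fin n) :
    Martingale (fun t ω => X t ω j - X t ω i) h.F P := by
  have h1 := (h.bm j).m.sub (h.bm i).m
  have h2 : (fun (t : ℝ≥0) ω => X t ω j - X t ω i) =
      (fun t ω => X t ω j - β * t) - (fun t ω => X t ω i - β * t) := by
    funext t ω
    simp only [Pi.sub_apply]
    ring
  rw [h2]; exact h1

theorem qD (h : HWSolution P β ν x X) (i j : Fin n) :
    Martingale (fun t ω => (X t ω j - X t ω i) ^ 2 -
      2 * away (fun t ω => X t ω j - X t ω i) t ω) h.F P := by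
  have h1 := ((h.bm j).q.add (h.bm i).q).sub ((h.bracket i j).smul (2 : ℝ))
  have h2 : (fun t ω => (X t ω j - X t ω i) ^ 2 -
      2 * away (fun t ω => X t ω j - X t ω i) t ω) =
      (((fun t ω => (X t ω j - β * t) ^ 2 - (t : ℝ)) + fun t ω => (X t ω i - β * t) ^ 2 - (t : ℝ)) -
      (2 : ℝ) • fun (t : ℝ≥0) ω => (X t ω i - β * t) * (X t ω j - β * t) -
      ∫ s in (0 : ℝ)..t, (if X s.toNNReal ω i = X s.toNNReal ω j then (1 : ℝ) else 0)) := by
    funext t ω
    simp only [Pi.sub_apply, Pi.add_apply, Pi.smul_apply, smul_eq_mul]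
    have h3 : away (fun t ω => X t ω j - X t ω i) t ω =
        t - ∫ s in (0 : ℝ)..t, (if X s.toNNReal ω i = X s.toNNReal ω j then (1 : ℝ) else 0) := by
      have hc : Continuous fun t : ℝ≥0 => X t ω j - X t ω i := (h.cont ω j).sub (h.cont ω i)
      have hi := away_int (D := fun t ω => X t ω j - X t ω i) hc 0 t
      have h4 : ∫ s in (0 : ℝ)..t, (if X s.toNNReal ω i = X s.toNNReal ω j then (1 : ℝ) else 0) =
          ∫ s in (0 : ℝ)..t, ((1 : ℝ) -
            (if X s.toNNReal ω j - X s.toNNReal ω i = 0 then (0 : ℝ) else 1)) := by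
        refine intervalIntegral.integral_congr fun s _ => ?_
        by_cases h5 : X s.toNNReal ω i = X s.toNNReal ω j
        · simp [h5]
        · have h6 : X s.toNNReal ω j - X s.toNNReal ω i ≠ 0 := fun h7 => h5 (by linarith)
          simp [h5, h6]
      rw [h4, intervalIntegral.integral_sub intervalIntegrable_const hi,
        intervalIntegral.integral_const]
      simp only [away, sub_zero, smul_eq_mul, mul_one]
      ring
    rw [h3]
    ring
  rw [h2]; exact h1

end HWSolution

end Pool.Agent.Y982.HW
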