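import Mathlib
import Pool.Agent.Y982.HW.Sol

open MeasureTheory Filter Topology
open scoped NNReal ENNReal

namespace Pool.Agent.Y982.HW

section general

variable {Ω : Type*} {m : MeasurableSpace Ω} {𝓕 : Filtration ℝ≥0 m} {P : Measure Ω}

theorem mart_sum {ι : Type*} [DecidableEq ι] (A : Finset ι) {N : ι → ℝ≥0 → Ω → ℝ}
    (hN : ∀ k ∈ A, Martingale (N k) 𝓕 P) :
    Martingale (fun t ω => ∑ k ∈ A, N k t ω) 𝓕 P := by
  induction A using Finset.induction_on with
  | empty =>
    have h0 : (fun (t : ℝ≥0) ω => ∑ k ∈ (∅ : Finset ι), N k t ω) = (0 : ℝ≥0 → Ω → ℝ) := by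
      funext t ω
      simp
    rw [h0]
    exact martingale_zero ℝ 𝓕 P
  | insert a s ha ih =>
    have := (hN a (Finset.mem_insert_self a s)).add
      (ih fun k hk => hN k (Finset.mem_insert_of_mem hk))
    have h0 : (fun (t : ℝ≥0) ω => ∑ k ∈ insert a s, N k t ω) =
        N a + fun t ω => ∑ k ∈ s, N k t ω := by
      funext t ω
      rw [Finset.sum_insert ha]
      rfl
    rw [h0]
    exact this

theorem mart_const0 [IsProbabilityMeasure P] {f : Ω → ℝ} (hf : Measurable[𝓕 0] f)
    (hi : Integrable f P) : Martingale (fun _ => f) 𝓕 P := by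
  refine martingale_const_fun 𝓕 P ?_ hi
  rw [bot_eq_zero]
  exact hf.stronglyMeasurable

end general

/-- least index with a property -/
noncomputable def pick {n : ℕ} (S : Fin n → Prop) (i0 : Fin n) : Fin n := by
  classical
  exact if h : (Finset.univ.filter S).Nonempty then (Finset.univ.filter S).min' h else i0

theorem pick_spec {n : ℕ} {S : Fin n → Prop} {i0 : Fin n} (h : ∃ i, S i) : S (pick S i0) := by
  classical
  obtain ⟨i, hi⟩ := h
  have h1 : (Finset.univ.filter S).Nonempty := ⟨i, by simp [hi]⟩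
  unfold pick
  rw [dif_pos h1]
  exact (Finset.mem_filter.mp ((Finset.univ.filter S).min'_mem h1)).2

theorem pick_iff {n : ℕ} {S : Fin n → Prop} {i0 k : Fin n} :
    pick S i0 = k ↔ (S k ∧ ∀ i, i < k → ¬ S i) ∨ ((∀ i, ¬ S i) ∧ k = i0) := by
  classical
  by_cases h : ∃ i, S i
  · have h1 : (Finset.univ.filter S).Nonempty := by
      obtain ⟨i, hi⟩ := h
      exact ⟨i, by simp [hi]⟩
    constructor
    · intro h2
      left
      constructor
      · rw [← h2]; exact pick_spec h
      · intro i hi hS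
        rw [← h2] at hi
        unfold pick at hi
        rw [dif_pos h1] at hi
        exact absurd ((Finset.univ.filter S).min'_le i (by simp [hS])) (not_le.mpr hi)
    · rintro (⟨h2, h3⟩ | ⟨h2, _⟩)
      · apply le_antisymm
        · unfold pick
          rw [dif_pos h1]
          exact (Finset.univ.filter S).min'_le k (by simp [h2])
        · by_contra h4
          exact h3 _ (not_le.mp h4) (pick_spec h)
      · obtain ⟨i, hi⟩ := h
        exact absurd hi (h2 i)
  · push Not at h
    have h1 : ¬ (Finset.univ.filter S).Nonempty := by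
      rintro ⟨i, hi⟩
      exact h i (Finset.mem_filter.mp hi).2
    constructor
    · intro h2
      right
      refine ⟨h, ?_⟩
      unfold pick at h2
      rw [dif_neg h1] at h2
      exact h2.symm
    · rintro (⟨h2, _⟩ | ⟨_, h3⟩)
      · exact absurd h2 (h k)
      · unfold pick
        rw [dif_neg h1]; exact h3.symm

theorem pick_meas {n : ℕ} {Ω : Type*} {m' : MeasurableSpace Ω} {S : Ω → Fin n → Prop}
    (hS : ∀ i, MeasurableSet[m'] {ω | S ω i}) (i0 k : Fin n) :
    MeasurableSet[m'] {ω | pick (S ω) i0 = k} := by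
  have h1 : {ω | pick (S ω) i0 = k} =
      ({ω | S ω k} ∩ ⋂ i : Fin n, ⋂ (_ : i < k), {ω | S ω i}ᶜ) ∪
        ((⋂ i : Fin n, {ω | S ω i}ᶜ) ∩ {_ω | k = i0}) := by
    ext ω
    simp only [Set.mem_ofPred_eq, pick_iff, Set.mem_union, Set.mem_inter_iff, Set.mem_iInter,
      Set.mem_compl_iff]
  rw [h1]
  refine MeasurableSet.union ?_ ?_
  · exact (hS k).inter (MeasurableSet.iInter fun i => MeasurableSet.iInter fun _ => (hS i).compl)
  · exact (MeasurableSet.iInter fun i => (hS i).compl).inter (MeasurableSet.const _)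

/-- an index of a maximal coordinate -/
noncomputable def imax {n : ℕ} (I : Finset (Fin n)) (hI : I.Nonempty) (y : Fin n → ℝ) : Fin n :=
  pick (fun i => i ∈ I ∧ y i = I.sup' hI y) hI.choose

/-- an index of a minimal coordinate -/
noncomputable def imin {n : ℕ} (J : Finset (Fin n)) (hJ : J.Nonempty) (y : Fin n → ℝ) : Fin n :=
  pick (fun i => i ∈ J ∧ y i = J.inf' hJ y) hJ.choose

theorem imax_spec {n : ℕ} (I : Finset (Fin n)) (hI : I.Nonempty) (y : Fin n → ℝ) :
    imax I hI y ∈ I ∧ y (imax I hI y) = I.sup' hI y := by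
  obtain ⟨j, hj, hj2⟩ := Finset.exists_mem_eq_sup' hI y
  exact pick_spec (S := fun i => i ∈ I ∧ y i = I.sup' hI y) ⟨j, hj, hj2.symm⟩

theorem imin_spec {n : ℕ} (J : Finset (Fin n)) (hJ : J.Nonempty) (y : Fin n → ℝ) :
    imin J hJ y ∈ J ∧ y (imin J hJ y) = J.inf' hJ y := by
  obtain ⟨j, hj, hj2⟩ := Finset.exists_mem_eq_inf' hJ y
  exact pick_spec (S := fun i => i ∈ J ∧ y i = J.inf' hJ y) ⟨j, hj, hj2.symm⟩

theorem imax_meas {n : ℕ} (I : Finset (Fin n)) (hI : I.Nonempty) {Ω : Type*}
    {m' : MeasurableSpace Ω} {Y : Ω → Fin n → ℝ} (hY : Measurable[m'] Y) (k : Fin n) :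
    MeasurableSet[m'] {ω | imax I hI (Y ω) = k} := by
  refine pick_meas (S := fun ω i => i ∈ I ∧ Y ω i = I.sup' hI (Y ω)) (fun i => ?_) _ k
  have h1 : Measurable fun y : Fin n → ℝ => I.sup' hI y :=
    (sup_cont (f := fun x : Fin n → ℝ => x) (fun i => continuous_apply i) I hI).measurable
  have h2 : MeasurableSet {y : Fin n → ℝ | i ∈ I ∧ y i = I.sup' hI y} :=
    (MeasurableSet.const _).inter (measurableSet_eq_fun (measurable_pi_apply i) h1)
  exact hY h2

theorem imin_meas {n : ℕ} (J : Finset (Fin n)) (hJ : J.Nonempty) {Ω : Type*}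
    {m' : MeasurableSpace Ω} {Y : Ω → Fin n → ℝ} (hY : Measurable[m'] Y) (k : Fin n) :
    MeasurableSet[m'] {ω | imin J hJ (Y ω) = k} := by
  refine pick_meas (S := fun ω i => i ∈ J ∧ Y ω i = J.inf' hJ (Y ω)) (fun i => ?_) _ k
  have h1 : Measurable fun y : Fin n → ℝ => J.inf' hJ y :=
    (inf_cont (f := fun x : Fin n → ℝ => x) (fun i => continuous_apply i) J hJ).measurable
  have h2 : MeasurableSet {y : Fin n → ℝ | i ∈ J ∧ y i = J.inf' hJ y} :=
    (MeasurableSet.const _).inter (measurableSet_eq_fun (measurable_pi_apply i) h1)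
  exact hY h2

theorem away_shift {Ω : Type*} {D : ℝ≥0 → Ω → ℝ} {ω : Ω} (hc : Continuous fun t => D t ω)
    (r u : ℝ≥0) : away (fun v => D (r + v)) u ω = away D (r + u) ω - away D r ω := by
  unfold away
  rw [intervalIntegral.integral_interval_sub_left (away_int hc _ _) (away_int hc _ _)]
  have h1 := intervalIntegral.integral_comp_add_left (a := (0 : ℝ)) (b := (u : ℝ))
    (fun s : ℝ => if D s.toNNReal ω = 0 then (0 : ℝ) else 1) (r : ℝ)
  rw [add_zero] at h1
  rw [NNReal.coe_add, ← h1]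
  refine intervalIntegral.integral_congr fun v hv => ?_
  rw [Set.uIcc_of_le (NNReal.coe_nonneg u)] at hv
  have h2 : ((r : ℝ) + v).toNNReal = r + v.toNNReal := by
    rw [Real.toNNReal_add (NNReal.coe_nonneg r) hv.1, Real.toNNReal_coe]
  simp only [h2]

namespace HWSolution

set_option linter.unusedSectionVars false

variable {Ω : Type*} [MeasurableSpace Ω] {P : Measure Ω} [IsProbabilityMeasure P] {β : ℝ}
  {ν : Measure unitInterval} [IsFiniteMeasure ν] {n : ℕ} {x : Fin n → ℝ}
  {X : ℝ≥0 → Ω → Fin n → ℝ}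

/-- drift of the maximum -/
noncomputable def dmax (β : ℝ) (ν : Measure unitInterval) {n : ℕ} (I : Finset (Fin n))
    (y : Fin n → ℝ) : ℝ := betaPlus β ν (ml I y)

theorem dmax_meas (I : Finset (Fin n)) : Measurable (dmax β ν I) :=
  (measurable_from_nat (f := betaPlus β ν)).comp (meas_ml I)

theorem dmax_bd (hν : FiniteSpeed ν) (I : Finset (Fin n)) (y : Fin n → ℝ) :
    β ≤ dmax β ν I y ∧ dmax β ν I y ≤ β + spd ν :=
  ⟨betaPlus_ge _ _ _, betaPlus_le _ hν _⟩

theorem dmax_abs (hν : FiniteSpeed ν) (I : Finset (Fin n)) (y : Fin n → ℝ) :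
    |dmax β ν I y| ≤ |β| + spd ν := by
  have h1 := dmax_bd (β := β) hν I y
  have h2 := spd_nonneg ν
  rw [abs_le]
  constructor
  · linarith [neg_abs_le β]
  · linarith [le_abs_self β]

theorem dmin_meas (J : Finset (Fin n)) : Measurable (dmin β ν J) := by
  unfold dmin
  refine Finset.measurable_sum _ fun Γ _ => ?_
  exact (dmax_meas Γ).const_mul _

theorem dmin_abs (hν : FiniteSpeed ν) (J : Finset (Fin n)) (y : Fin n → ℝ) :
    |dmin β ν J y| ≤ ∑ Γ ∈ J.powerset, |sg Γ| * (|β| + spd ν) := by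
  unfold dmin
  refine (Finset.abs_sum_le_sum_abs _ _).trans (Finset.sum_le_sum fun Γ _ => ?_)
  rw [abs_mul]
  exact mul_le_mul_of_nonneg_left (dmax_abs hν Γ y) (abs_nonneg _)

theorem mM (h : HWSolution P β ν x X) (I : Finset (Fin n)) (hI : I.Nonempty) :
    Martingale (fun t ω => I.sup' hI (X t ω) - acc X (dmax β ν I) t ω) h.F P := by
  have h1 := h.top I hI
  have h2 : (fun (t : ℝ≥0) ω => I.sup' hI (X t ω) - acc X (dmax β ν I) t ω) =
      fun t ω => I.sup' hI (X t ω) -
        ∫ s in (0 : ℝ)..t, betaPlus β ν (mult I hI (X s.toNNReal ω)) := by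
    funext t ω
    simp only [acc, dmax, ml, hI, dite_true]
  rw [h2]; exact h1

theorem mL (h : HWSolution P β ν x X) (hν : FiniteSpeed ν) (J : Finset (Fin n))
    (hJ : J.Nonempty) :
    Martingale (fun t ω => J.inf' hJ (X t ω) - acc X (dmin β ν J) t ω) h.F P := by
  have h1 : ∀ Γ ∈ J.powerset,
      Martingale (fun t ω => sg Γ * (mx Γ (X t ω) - acc X (dmax β ν Γ) t ω)) h.F P := by
    intro Γ _
    rcases Γ.eq_empty_or_nonempty with h5 | h5
    · have h0 : (fun (t : ℝ≥0) ω => sg Γ * (mx Γ (X t ω) - acc X (dmax β ν Γ) t ω)) =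
          (0 : ℝ≥0 → Ω → ℝ) := by
        funext t ω
        rw [h5, sg_empty]
        simp
      rw [h0]
      exact martingale_zero ℝ _ P
    · have h6 := (h.mM Γ h5).smul (sg Γ)
      have h0 : (fun (t : ℝ≥0) ω => sg Γ * (mx Γ (X t ω) - acc X (dmax β ν Γ) t ω)) =
          sg Γ • fun t ω => Γ.sup' h5 (X t ω) - acc X (dmax β ν Γ) t ω := by
        funext t ω
        simp only [Pi.smul_apply, smul_eq_mul, mx, h5, dite_true]
      rw [h0]; exact h6
  have h2 := mart_sum J.powerset h1
  have h3 : (fun t ω => J.inf' hJ (X t ω) - acc X (dmin β ν J) t ω) =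
      fun t ω => ∑ Γ ∈ J.powerset, sg Γ * (mx Γ (X t ω) - acc X (dmax β ν Γ) t ω) := by
    funext t ω
    rw [inf_eq J hJ (X t ω)]
    simp only [mul_sub, Finset.sum_sub_distrib]
    congr 1
    unfold acc dmin
    rw [intervalIntegral.integral_finsetSum]
    · simp only [intervalIntegral.integral_const_mul]
      rfl
    · intro Γ _
      exact (acc_int (h.cont ω) (dmax_meas (β := β) (ν := ν) Γ) (dmax_abs hν Γ) _ _).const_mul _
  rw [h3]; exact h2

theorem acc_ad {N : ℝ≥0 → Ω → ℝ} {g : (Fin n → ℝ) → ℝ} (h : HWSolution P β ν x X)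
    (hN : ∀ t, Measurable[h.F t] (N t))
    (hm : Martingale (fun t ω => N t ω - acc X g t ω) h.F P) (t : ℝ≥0) :
    Measurable[h.F t] (acc X g t) := by
  have h1 : acc X g t = fun ω => N t ω - (N t ω - acc X g t ω) := by
    funext ω; ring
  rw [h1]
  exact (hN t).sub (hm.1 t).measurable

theorem adM (h : HWSolution P β ν x X) (I : Finset (Fin n)) (hI : I.Nonempty) (t : ℝ≥0) :
    Measurable[h.F t] (fun ω => I.sup' hI (X t ω)) := by
  have h1 : Measurable fun y : Fin n → ℝ => I.sup' hI y :=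
    (sup_cont (f := fun x : Fin n → ℝ => x) (fun i => continuous_apply i) I hI).measurable
  exact h1.comp (h.adX t)

theorem adL (h : HWSolution P β ν x X) (J : Finset (Fin n)) (hJ : J.Nonempty) (t : ℝ≥0) :
    Measurable[h.F t] (fun ω => J.inf' hJ (X t ω)) := by
  have h1 : Measurable fun y : Fin n → ℝ => J.inf' hJ y :=
    (inf_cont (f := fun x : Fin n → ℝ => x) (fun i => continuous_apply i) J hJ).measurable
  exact h1.comp (h.adX t)

/-- The particle that is chosen at time `r`, after time `r`, is a Brownian motion with drift. -/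
theorem bm_select (h : HWSolution P β ν x X) (r : ℝ≥0) {κ : Ω → Fin n}
    (hκ : ∀ k, MeasurableSet[h.F r] {ω | κ ω = k}) :
    BM (shiftF h.F r) P (fun u ω => X (r + u) ω (κ ω) - β * ((r + u : ℝ≥0) : ℝ)) where
  c := fun ω => ((h.bm (κ ω)).shift r).c ω
  l2 := fun t => memLp_select (κ := κ) (fun k => h.F.le r _ (hκ k))
    (f := fun k ω => X (r + t) ω k - β * ((r + t : ℝ≥0) : ℝ)) (fun k => (h.bm k).l2 (r + t))
  m := mart_select (κ := κ) (fun k => by
      rw [shiftF_apply, add_zero]; exact hκ k) (fun k => ((h.bm k).shift r).m)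
  q := mart_select (κ := κ) (fun k => by
      rw [shiftF_apply, add_zero]; exact hκ k) (fun k => ((h.bm k).shift r).q)

end HWSolution

end Pool.Agent.Y982.HW
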