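import Mathlib
import Pool.Agent.Y982.HW.Sol2

open MeasureTheory Filter Topology
open scoped NNReal ENNReal

namespace Pool.Agent.Y982.HW

namespace HWSolution

set_option linter.unusedSectionVars false

variable {Ω : Type*} [MeasurableSpace Ω] {P : Measure Ω} [IsProbabilityMeasure P] {β : ℝ}
  {ν : Measure unitInterval} [IsFiniteMeasure ν] {n : ℕ} {x : Fin n → ℝ}
  {X : ℝ≥0 → Ω → Fin n → ℝ}

theorem int_of_bdd_acc {N : ℝ≥0 → Ω → ℝ} {g : (Fin n → ℝ) → ℝ} (h : HWSolution P β ν x X)
    (hN : ∀ t, Measurable[h.F t] (N t))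
    (hm : Martingale (fun t ω => N t ω - acc X g t ω) h.F P) (hg : Measurable g) {C : ℝ}
    (hC : ∀ y, |g y| ≤ C) (t : ℝ≥0) : Integrable (acc X g t) P := by
  refine Integrable.of_bound (C := C * t) ((h.acc_ad hN hm t).mono (h.F.le t) le_rfl).aestronglyMeasurable
    (Eventually.of_forall fun ω => ?_)
  rw [Real.norm_eq_abs]
  exact acc_abs (h.cont ω) hg hC t

/-- The gap structure of a cut, started at time `r`. -/
theorem gap_inst (h : HWSolution P β ν x X) (hν : FiniteSpeed ν) {I J : Finset (Fin n)}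
    (hI : I.Nonempty) (hJ : J.Nonempty) (r : ℝ≥0) :
    Gap (shiftF h.F r) P (2 * spd ν)
      (fun u ω => X (r + u) ω (imin J hJ (X r ω)) - X (r + u) ω (imax I hI (X r ω)))
      (fun u ω => J.inf' hJ (X (r + u) ω) - I.sup' hI (X (r + u) ω)) := by
  set κ : Ω → Fin n × Fin n := fun ω => (imax I hI (X r ω), imin J hJ (X r ω)) with hκ
  have mκ : ∀ k, MeasurableSet[(shiftF h.F r) 0] (κ ⁻¹' {k}) := by
    intro k
    rw [shiftF_apply, add_zero]
    have h1 : κ ⁻¹' {k} = {ω | imax I hI (X r ω) = k.1} ∩ {ω | imin J hJ (X r ω) = k.2} := by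
      ext ω
      simp [hκ, Prod.ext_iff]
    rw [h1]
    exact (imax_meas I hI (h.adX r) k.1).inter (imin_meas J hJ (h.adX r) k.2)
  have cD : ∀ i j ω, Continuous fun u : ℝ≥0 => X (r + u) ω j - X (r + u) ω i := fun i j ω =>
    ((h.cont ω j).comp (continuous_const.add continuous_id)).sub
      ((h.cont ω i).comp (continuous_const.add continuous_id))
  have cX : ∀ ω i, Continuous fun u : ℝ≥0 => X (r + u) ω i := fun ω i =>
    (h.cont ω i).comp (continuous_const.add continuous_id)
  have q1 : ∀ k : Fin n × Fin n, Martingale (fun u ω => (X (r + u) ω k.2 - X (r + u) ω k.1) ^ 2 -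
      2 * away (fun u ω => X (r + u) ω k.2 - X (r + u) ω k.1) u ω) (shiftF h.F r) P := by
    intro k
    have cD0 : ∀ ω, Continuous fun u : ℝ≥0 => X u ω k.2 - X u ω k.1 := fun ω =>
      (h.cont ω k.2).sub (h.cont ω k.1)
    have m0 : Measurable[h.F r] (fun ω => away (fun u ω => X u ω k.2 - X u ω k.1) r ω) := by
      have h1 := ((h.qD k.1 k.2).1 r).measurable
      have h3 : Measurable[h.F r] (fun ω => X r ω k.2 - X r ω k.1) :=
        (h.adXi r k.2).sub (h.adXi r k.1)
      have h2 : (fun ω => away (fun u ω => X u ω k.2 - X u ω k.1) r ω) =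
          fun ω => (1 / 2 : ℝ) * ((X r ω k.2 - X r ω k.1) ^ 2 -
            ((X r ω k.2 - X r ω k.1) ^ 2 - 2 * away (fun u ω => X u ω k.2 - X u ω k.1) r ω)) := by
        funext ω; ring
      rw [h2]
      exact ((h3.pow_const 2).sub h1).const_mul _
    have i0 : Integrable (fun ω => away (fun u ω => X u ω k.2 - X u ω k.1) r ω) P := by
      refine Integrable.of_bound (C := (r : ℝ)) (m0.mono (h.F.le r) le_rfl).aestronglyMeasurable
        (Eventually.of_forall fun ω => ?_)
      have h1 := away_sub (D := fun u ω => X u ω k.2 - X u ω k.1) (cD0 ω) (zero_le : (0 : ℝ≥0) ≤ r)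
      rw [away_zero] at h1
      rw [Real.norm_eq_abs, abs_le]
      have h3 : ((0 : ℝ≥0) : ℝ) = 0 := rfl
      constructor <;> linarith [h1.1, h1.2, NNReal.coe_nonneg r]
    have h2 := mart_const0 (𝓕 := shiftF h.F r) (P := P)
      (f := fun ω => 2 * away (fun u ω => X u ω k.2 - X u ω k.1) r ω)
      (by rw [shiftF_apply, add_zero]; exact m0.const_mul _) (i0.const_mul _)
    have h1 := (mart_shift (h.qD k.1 k.2) r).add h2
    have h3 : (fun u ω => (X (r + u) ω k.2 - X (r + u) ω k.1) ^ 2 -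
      2 * away (fun u ω => X (r + u) ω k.2 - X (r + u) ω k.1) u ω) =
      (fun u => (fun t ω => (X t ω k.2 - X t ω k.1) ^ 2 -
      2 * away (fun t ω => X t ω k.2 - X t ω k.1) t ω) (r + u)) +
      fun _ ω => 2 * away (fun u ω => X u ω k.2 - X u ω k.1) r ω := by
      funext u ω
      simp only [Pi.add_apply]
      rw [away_shift (D := fun u ω => X u ω k.2 - X u ω k.1) (cD0 ω) r u]
      ring
    rw [h3]; exact h1
  have cA := fun ω => acc_cont (h.cont ω) (dmax_meas (β := β) (ν := ν) I) (dmax_abs hν I)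
  have cB := fun ω => acc_cont (h.cont ω) (dmin_meas (β := β) (ν := ν) J) (dmin_abs hν J)
  have aA : Measurable[h.F r] (acc X (dmax β ν I) r) := h.acc_ad (h.adM I hI) (h.mM I hI) r
  have aB : Measurable[h.F r] (acc X (dmin β ν J) r) := h.acc_ad (h.adL J hJ) (h.mL hν J hJ) r
  have iA := h.int_of_bdd_acc (h.adM I hI) (h.mM I hI) (dmax_meas I) (dmax_abs hν I) r
  have iB := h.int_of_bdd_acc (h.adL J hJ) (h.mL hν J hJ) (dmin_meas J) (dmin_abs hν J) r
  refine ⟨?_, ?_, ?_, ?_, ?_, ?_, ?_, ?_, ?_⟩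
  · exact fun ω => cD _ _ ω
  · exact fun ω => (inf_cont (cX ω) J hJ).sub (sup_cont (cX ω) I hI)
  · intro t
    exact (h.adL J hJ (r + t)).sub (h.adM I hI (r + t))
  · intro t
    exact memLp_select (κ := κ) (fun k => (shiftF h.F r).le 0 _ (mκ k))
      (f := fun k ω => X (r + t) ω k.2 - X (r + t) ω k.1)
      (fun k => (h.sq _ _).sub (h.sq _ _))
  · exact mart_select (κ := κ) mκ (fun k => mart_shift (h.mD k.1 k.2) r)
  · exact mart_select (κ := κ) mκ q1
  · intro t ω
    have h1 := (imin_spec J hJ (X r ω)).1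
    have h2 := (imax_spec I hI (X r ω)).1
    have h3 : J.inf' hJ (X (r + t) ω) ≤ X (r + t) ω (imin J hJ (X r ω)) := Finset.inf'_le _ h1
    have h4 : X (r + t) ω (imax I hI (X r ω)) ≤ I.sup' hI (X (r + t) ω) := Finset.le_sup' _ h2
    linarith
  · intro ω
    have h1 := (imin_spec J hJ (X r ω)).2
    have h2 := (imax_spec I hI (X r ω)).2
    simp only [add_zero]
    rw [h1, h2]
  · refine ⟨fun u ω => (acc X (dmin β ν J) (r + u) ω - acc X (dmin β ν J) r ω) -
      (acc X (dmax β ν I) (r + u) ω - acc X (dmax β ν I) r ω), ?_, ?_, ?_, ?_⟩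
    · have h1 := (mart_shift (h.mL hν J hJ) r).sub (mart_shift (h.mM I hI) r)
      have h2 := mart_const0 (𝓕 := shiftF h.F r) (P := P)
        (f := fun ω => acc X (dmin β ν J) r ω - acc X (dmax β ν I) r ω)
        (by rw [shiftF_apply, add_zero]; exact aB.sub aA) (iB.sub iA)
      have h3 := h1.add h2
      have h4 : (fun (u : ℝ≥0) ω => (J.inf' hJ (X (r + u) ω) - I.sup' hI (X (r + u) ω)) -
          ((acc X (dmin β ν J) (r + u) ω - acc X (dmin β ν J) r ω) -
          (acc X (dmax β ν I) (r + u) ω - acc X (dmax β ν I) r ω))) =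
          (((fun u => (fun t ω => J.inf' hJ (X t ω) - acc X (dmin β ν J) t ω) (r + u)) -
          fun u => (fun t ω => I.sup' hI (X t ω) - acc X (dmax β ν I) t ω) (r + u)) +
          fun _ ω => acc X (dmin β ν J) r ω - acc X (dmax β ν I) r ω) := by
        funext u ω
        simp only [Pi.add_apply, Pi.sub_apply]
        ring
      rw [h4]; exact h3
    · intro ω
      exact (((cB ω).comp (continuous_const.add continuous_id)).sub continuous_const).sub
        (((cA ω).comp (continuous_const.add continuous_id)).sub continuous_const)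
    · intro ω s t hst
      have hrs : r + s ≤ r + t := add_le_add_right hst r
      have h1 := (acc_sub (X := X) (h.cont ω) (dmin_meas (β := β) (ν := ν) J) (dmin_abs hν J)
        (a := β - spd ν) (b := ∑ Γ ∈ J.powerset, |sg Γ| * (|β| + spd ν))
        (fun y => ⟨dmin_ge β hν hJ y, (le_abs_self _).trans (dmin_abs hν J y)⟩) hrs).1
      have h2 := (acc_sub (X := X) (h.cont ω) (dmax_meas (β := β) (ν := ν) I) (dmax_abs hν I)
        (fun y => dmax_bd hν I y) hrs).2
      simp only [NNReal.coe_add] at h1 h2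
      have e1 : (β - spd ν) * ((r : ℝ) + t - (r + s)) = (β - spd ν) * (t - s) := by ring
      have e2 : (β + spd ν) * ((r : ℝ) + t - (r + s)) = (β + spd ν) * (t - s) := by ring
      rw [e1] at h1
      rw [e2] at h2
      linarith
    · refine ⟨(∑ Γ ∈ J.powerset, |sg Γ| * (|β| + spd ν)) + (|β| + spd ν), fun ω t => ?_⟩
      have hrs : r ≤ r + t := le_self_add
      have h1 := acc_sub (X := X) (h.cont ω) (dmin_meas (β := β) (ν := ν) J) (dmin_abs hν J)
        (fun y => abs_le.mp (dmin_abs hν J y)) hrs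
      have h2 := acc_sub (X := X) (h.cont ω) (dmax_meas (β := β) (ν := ν) I) (dmax_abs hν I)
        (fun y => abs_le.mp (dmax_abs hν I y)) hrs
      simp only [NNReal.coe_add, add_sub_cancel_left] at h1 h2
      rw [abs_le]
      constructor
      · linarith [h1.1, h1.2, h2.1, h2.2]
      · linarith [h1.1, h1.2, h2.1, h2.2]

end HWSolution

end Pool.Agent.Y982.HW
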