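import Mathlib
import Pool.Agent.Y982.HW.Cut

open MeasureTheory Filter Topology
open scoped NNReal ENNReal

namespace Pool.Agent.Y982.HW

section general

variable {Ω : Type*} {m : MeasurableSpace Ω} {𝓕 : Filtration ℝ≥0 m} {P : Measure Ω}

theorem markov_sq [IsProbabilityMeasure P] {f : Ω → ℝ} {S : Set Ω} {C K : ℝ} (hC : 0 < C)
    (hS : MeasurableSet S) (hm : Measurable f) (hi : Integrable (fun ω => f ω ^ 2) P)
    (hK : ∫ ω in S, f ω ^ 2 ∂P ≤ K) : P.real ({ω | C < |f ω|} ∩ S) ≤ K / C ^ 2 := by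
  have hE : MeasurableSet {ω | C < |f ω|} :=
    measurableSet_lt measurable_const (continuous_abs.measurable.comp hm)
  have h1 : ∫ ω in S, C ^ 2 * ({ω | C < |f ω|}).indicator (fun _ => (1 : ℝ)) ω ∂P ≤
      ∫ ω in S, f ω ^ 2 ∂P := by
    refine setIntegral_mono_on ((int_ind' hE).const_mul _) hi.integrableOn hS fun ω _ => ?_
    by_cases h : ω ∈ {ω | C < |f ω|}
    · rw [Set.indicator_of_mem h, mul_one, ← sq_abs (f ω)]
      exact pow_le_pow_left₀ hC.le (le_of_lt h) 2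
    · rw [Set.indicator_of_notMem h, mul_zero]
      positivity
  rw [integral_const_mul, int_ind hE] at h1
  rw [le_div_iff₀ (by positivity), mul_comm]
  exact h1.trans hK

/-- Displacement of a Brownian particle on the event that the gap survives. -/
theorem Gap.tail [IsProbabilityMeasure P] {b : ℝ} {D G : ℝ≥0 → Ω → ℝ} (h : Gap 𝓕 P b D G)
    {W : ℝ≥0 → Ω → ℝ} (w : BM 𝓕 P W) {lam : ℝ} (hlam : 0 < lam)
    {s T : ℝ≥0} (hsT : s ≤ T) (hs : (s : ℝ) = lam ^ 2 / 2) (hb : 0 ≤ b) (hbl : b * lam ≤ 1 / 4)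
    {B : Set Ω} (hB : MeasurableSet[𝓕 0] B) (hB1 : ∀ ω ∈ B, 0 < D 0 ω ∧ D 0 ω ≤ lam) :
    ∫ ω in {ω | ∀ u ≤ s, 0 < G u ω} ∩ B, (W T ω - W 0 ω) ^ 2 ∂P ≤
      (4 * T / lam + 2 * lam) * ∫ ω in B, D 0 ω ∂P := by
  have hBm : MeasurableSet B := 𝓕.le 0 _ hB
  obtain ⟨f1, f2, -⟩ := h.first hlam hs hb hbl hB hB1
  set A : Set Ω := {ω | ∀ u ≤ s, 0 < G u ω} with hA
  set e0 : ℝ := ∫ ω in B, D 0 ω ∂P with he0
  have he0nn : 0 ≤ e0 := setIntegral_nonneg hBm fun ω hω => (hB1 ω hω).1.le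
  have hAm' : MeasurableSet[𝓕 s] A := meas_pos h.cG h.aG s
  have hABs : MeasurableSet[𝓕 s] (A ∩ B) := hAm'.inter (𝓕.mono zero_le _ hB)
  have hAB : MeasurableSet (A ∩ B) := 𝓕.le s _ hABs
  have m2 : ∀ t, MeasurableSet[𝓕 t] {ω | hit G s ω ≤ t} := fun t => hit_meas h.cG h.aG s t
  have l2 : ∀ ω, hit G s ω ≤ s := fun ω => hit_le _ _ _
  obtain ⟨i1, v1⟩ := w.sq_incr m2 l2 hB
  obtain ⟨i2, v2⟩ := w.sq_two hsT hABs
  have i0 : Integrable (fun ω => (W s ω - W 0 ω) ^ 2) P :=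
    (w.sq_two (zero_le : (0 : ℝ≥0) ≤ s) (MeasurableSet.univ : MeasurableSet[𝓕 0] Set.univ)).1
  have i3 : Integrable (fun ω => (W T ω - W 0 ω) ^ 2) P :=
    (w.sq_two (zero_le : (0 : ℝ≥0) ≤ T) (MeasurableSet.univ : MeasurableSet[𝓕 0] Set.univ)).1
  have u1 : ∫ ω in A ∩ B, (W s ω - W 0 ω) ^ 2 ∂P ≤ lam * e0 := by
    calc ∫ ω in A ∩ B, (W s ω - W 0 ω) ^ 2 ∂P
        = ∫ ω in A ∩ B, (W (hit G s ω) ω - W 0 ω) ^ 2 ∂P := by
          refine setIntegral_congr_fun hAB fun ω hω => ?_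
          have : hit G s ω = s := by
            rcases hit_mem (T := s) (h.cG ω) with h2 | h2
            · exact h2
            · exact absurd (hω.1 _ (l2 ω)) (not_lt.mpr h2)
          simp only [this]
      _ ≤ ∫ ω in B, (W (hit G s ω) ω - W 0 ω) ^ 2 ∂P :=
          setIntegral_mono_set i1.integrableOn (Eventually.of_forall fun ω => sq_nonneg _)
            (Set.inter_subset_right.eventuallyLE)
      _ ≤ lam * e0 := by rw [v1]; exact f1
  have u2 : ∫ ω in A ∩ B, (W T ω - W s ω) ^ 2 ∂P ≤ 2 * T / lam * e0 := by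
    rw [v2]
    have h1 : ((T : ℝ) - s) * P.real (A ∩ B) ≤ T * P.real (A ∩ B) :=
      mul_le_mul_of_nonneg_right (by linarith [NNReal.coe_nonneg s]) measureReal_nonneg
    have h2 : (T : ℝ) * P.real (A ∩ B) ≤ T * (2 / lam * e0) :=
      mul_le_mul_of_nonneg_left f2 (NNReal.coe_nonneg T)
    calc ((T : ℝ) - s) * P.real (A ∩ B) ≤ T * (2 / lam * e0) := h1.trans h2
      _ = 2 * T / lam * e0 := by ring
  have u3 : ∫ ω in A ∩ B, (W T ω - W 0 ω) ^ 2 ∂P ≤
      ∫ ω in A ∩ B, (2 * (W T ω - W s ω) ^ 2 + 2 * (W s ω - W 0 ω) ^ 2) ∂P := by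
    refine setIntegral_mono_on i3.integrableOn
      ((i2.const_mul 2).integrableOn.add (i0.const_mul 2).integrableOn) hAB fun ω _ => ?_
    nlinarith [sq_nonneg ((W T ω - W s ω) - (W s ω - W 0 ω))]
  rw [integral_add (i2.const_mul 2).integrableOn (i0.const_mul 2).integrableOn,
    integral_const_mul, integral_const_mul] at u3
  have e : (4 * T / lam + 2 * lam) * e0 = 2 * (2 * T / lam * e0) + 2 * (lam * e0) := by ring
  rw [e]
  linarith

end general

namespace HWSolution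

set_option linter.unusedSectionVars false

variable {Ω : Type*} [MeasurableSpace Ω] {P : Measure Ω} [IsProbabilityMeasure P] {β : ℝ}
  {ν : Measure unitInterval} [IsFiniteMeasure ν] {n : ℕ} {x : Fin n → ℝ}
  {X : ℝ≥0 → Ω → Fin n → ℝ}

/-- Repeated climbing. -/
theorem iter (h : HWSolution P β ν x X) (hν : FiniteSpeed ν) {I J : Finset (Fin n)}
    (hI : I.Nonempty) (hJ : J.Nonempty) {lam a : ℝ} (hlam : 0 < lam) (hla : lam ≤ a)
    {s : ℝ≥0} (hs : (s : ℝ) = lam ^ 2 / 2) (hbl : 2 * spd ν * lam ≤ 1 / 8) (r : ℝ≥0)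
    {B : Set Ω} (hB : MeasurableSet[h.F r] B)
    (hB1 : ∀ ω ∈ B, a < J.inf' hJ (X r ω) - I.sup' hI (X r ω)) (k : ℕ) :
    (1 / 64 : ℝ) ^ k * P.real B ≤ P.real ({ω | a + k * (lam / 16) <
      J.inf' hJ (X (r + k * s) ω) - I.sup' hI (X (r + k * s) ω)} ∩ B) := by
  induction k with
  | zero =>
    have : {ω | a + ((0 : ℕ) : ℝ) * (lam / 16) < J.inf' hJ (X (r + ((0 : ℕ) : ℝ≥0) * s) ω) -
        I.sup' hI (X (r + ((0 : ℕ) : ℝ≥0) * s) ω)} ∩ B = B := by
      rw [Set.inter_eq_right]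
      intro ω hω
      have := hB1 ω hω
      simpa using this
    rw [this]; simp
  | succ k ih =>
    set r' : ℝ≥0 := r + k * s with hr'
    set Bk : Set Ω := {ω | a + k * (lam / 16) <
      J.inf' hJ (X r' ω) - I.sup' hI (X r' ω)} ∩ B with hBk
    have hBkm : MeasurableSet[h.F r'] Bk := by
      refine MeasurableSet.inter ?_ (h.F.mono le_self_add _ hB)
      exact ((h.adL J hJ r').sub (h.adM I hI r')) measurableSet_Ioi
    have g := h.gap_inst hν hI hJ r'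
    have hBk0 : MeasurableSet[(shiftF h.F r') 0] Bk := by
      rw [shiftF_apply, add_zero]; exact hBkm
    have hk0 : (0 : ℝ) ≤ k * (lam / 16) := by positivity
    have h1 := g.climb hlam hs hbl hBk0 (fun ω hω => by
      rw [← g.eq ω]
      simp only [add_zero]
      have := hω.1
      simp only [Set.mem_ofPred_eq] at this
      linarith)
    have h2 : P.real ({ω | X (r' + 0) ω (imin J hJ (X r' ω)) -
        X (r' + 0) ω (imax I hI (X r' ω)) + lam / 16 <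
        J.inf' hJ (X (r' + s) ω) - I.sup' hI (X (r' + s) ω)} ∩ Bk) ≤
        P.real ({ω | a + ((k + 1 : ℕ) : ℝ) * (lam / 16) <
      J.inf' hJ (X (r + ((k + 1 : ℕ) : ℝ≥0) * s) ω) - I.sup' hI (X (r + ((k + 1 : ℕ) : ℝ≥0) * s) ω)} ∩ B) := by
      refine measureReal_mono ?_
      rintro ω ⟨h3, h4⟩
      refine ⟨?_, h4.2⟩
      have h5 := h4.1
      have h6 : r + ((k + 1 : ℕ) : ℝ≥0) * s = r' + s := by
        rw [hr']; push_cast; ring
      have h7 := g.eq ω
      simp only [add_zero] at h7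
      simp only [Set.mem_ofPred_eq, add_zero] at h3 h5 ⊢
      rw [h6]
      push_cast
      linarith
    calc (1 / 64 : ℝ) ^ (k + 1) * P.real B = 1 / 64 * ((1 / 64 : ℝ) ^ k * P.real B) := by
          rw [pow_succ]; ring
      _ ≤ 1 / 64 * P.real Bk := by
          apply mul_le_mul_of_nonneg_left ih (by norm_num)
      _ ≤ _ := h1
      _ ≤ _ := h2

end HWSolution

end Pool.Agent.Y982.HW
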