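import Mathlib
import Pool.Agent.Y982.HW.Small

open MeasureTheory Filter Topology
open scoped NNReal ENNReal

namespace Pool.Agent.Y982.HW

namespace HWSolution

set_option linter.unusedSectionVars false

variable {Ω : Type*} [MeasurableSpace Ω] {P : Measure Ω} [IsProbabilityMeasure P] {β : ℝ}
  {ν : Measure unitInterval} [IsFiniteMeasure ν] {n : ℕ} {x : Fin n → ℝ}
  {X : ℝ≥0 → Ω → Fin n → ℝ}

/-- The good event: at time `r + T` the gap is larger than `2` and its ends have not moved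
outwards by more than `C` since time `r`. -/
def good (X : ℝ≥0 → Ω → Fin n → ℝ) {I J : Finset (Fin n)} (hI : I.Nonempty) (hJ : J.Nonempty)
    (C : ℝ) (r t : ℝ≥0) : Set Ω :=
  {ω | 2 < J.inf' hJ (X t ω) - I.sup' hI (X t ω) ∧
    I.sup' hI (X r ω) - C ≤ I.sup' hI (X t ω) ∧ J.inf' hJ (X t ω) ≤ J.inf' hJ (X r ω) + C}

theorem meas_incr (h : HWSolution P β ν x X) (r t : ℝ≥0) {κ : Ω → Fin n}
    (hκ : ∀ k, MeasurableSet[h.F r] {ω | κ ω = k}) :
    Measurable fun ω => X t ω (κ ω) - X r ω (κ ω) := by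
  refine (meas_select (κ := κ) (f := fun k ω => X t ω k) (fun k => h.F.le r _ (hκ k))
    (fun k => ?_)).sub (meas_select (κ := κ) (f := fun k ω => X r ω k)
      (fun k => h.F.le r _ (hκ k)) (fun k => ?_))
  · exact (h.adXi t k).mono (h.F.le t) le_rfl
  · exact (h.adXi r k).mono (h.F.le r) le_rfl

/-- Passing from the Brownian part to the displacement. -/
theorem incr_le (h : HWSolution P β ν x X) (r T : ℝ≥0) {κ : Ω → Fin n}
    (hκ : ∀ k, MeasurableSet[h.F r] {ω | κ ω = k}) {S : Set Ω} (hS : MeasurableSet S) {K : ℝ}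
    (hK : ∫ ω in S, ((X (r + T) ω (κ ω) - β * ((r + T : ℝ≥0) : ℝ)) -
      (X (r + 0) ω (κ ω) - β * ((r + 0 : ℝ≥0) : ℝ))) ^ 2 ∂P ≤ K) :
    Integrable (fun ω => (X (r + T) ω (κ ω) - X r ω (κ ω)) ^ 2) P ∧
    ∫ ω in S, (X (r + T) ω (κ ω) - X r ω (κ ω)) ^ 2 ∂P ≤ 2 * K + 2 * (β * T) ^ 2 * P.real S := by
  have w := h.bm_select r hκ
  have l1 : MemLp (fun ω => X (r + T) ω (κ ω) - X r ω (κ ω)) 2 P :=
    (memLp_select (κ := κ) (fun k => h.F.le r _ (hκ k)) (fun k => h.sq (r + T) k)).sub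
      (memLp_select (κ := κ) (fun k => h.F.le r _ (hκ k)) (fun k => h.sq r k))
  have i1 := l1.integrable_sq
  have i2 : Integrable (fun ω => ((X (r + T) ω (κ ω) - β * ((r + T : ℝ≥0) : ℝ)) -
      (X (r + 0) ω (κ ω) - β * ((r + 0 : ℝ≥0) : ℝ))) ^ 2) P :=
    (w.sq_two (zero_le : (0 : ℝ≥0) ≤ T)
      (MeasurableSet.univ : MeasurableSet[(shiftF h.F r) 0] Set.univ)).1
  refine ⟨i1, ?_⟩
  have u : ∫ ω in S, (X (r + T) ω (κ ω) - X r ω (κ ω)) ^ 2 ∂P ≤
      ∫ ω in S, (2 * ((X (r + T) ω (κ ω) - β * ((r + T : ℝ≥0) : ℝ)) -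
      (X (r + 0) ω (κ ω) - β * ((r + 0 : ℝ≥0) : ℝ))) ^ 2 + 2 * (β * T) ^ 2) ∂P := by
    refine setIntegral_mono_on i1.integrableOn
      ((i2.const_mul 2).integrableOn.add (integrable_const _).integrableOn) hS fun ω _ => ?_
    simp only [add_zero, NNReal.coe_add]
    nlinarith [sq_nonneg ((X (r + T) ω (κ ω) - X r ω (κ ω)) - 2 * (β * T))]
  rw [integral_add (i2.const_mul 2).integrableOn (integrable_const _).integrableOn,
    integral_const_mul, setIntegral_const, smul_eq_mul] at u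
  linarith

theorem good_of (h : HWSolution P β ν x X) {I J : Finset (Fin n)}
    (hI : I.Nonempty) (hJ : J.Nonempty) (r T : ℝ≥0) {C K κ0 e0 : ℝ} (hC : 0 < C)
    (hCK : 4 * K ≤ κ0 * C ^ 2) (he0 : 0 ≤ e0) {S B : Set Ω} (hS : MeasurableSet S) (hSB : S ⊆ B)
    (h1 : κ0 * e0 ≤ P.real ({ω | 2 < J.inf' hJ (X (r + T) ω) - I.sup' hI (X (r + T) ω)} ∩ S))
    (h2 : ∫ ω in S, (X (r + T) ω (imax I hI (X r ω)) - X r ω (imax I hI (X r ω))) ^ 2 ∂P ≤ K * e0)
    (h3 : ∫ ω in S, (X (r + T) ω (imin J hJ (X r ω)) - X r ω (imin J hJ (X r ω))) ^ 2 ∂P ≤ K * e0)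
    (i2 : Integrable (fun ω => (X (r + T) ω (imax I hI (X r ω)) - X r ω (imax I hI (X r ω))) ^ 2) P)
    (i3 : Integrable (fun ω => (X (r + T) ω (imin J hJ (X r ω)) - X r ω (imin J hJ (X r ω))) ^ 2) P) :
    κ0 / 2 * e0 ≤ P.real (good X hI hJ C r (r + T) ∩ B) := by
  have m2 := h.meas_incr r (r + T) (κ := fun ω => imax I hI (X r ω)) (imax_meas I hI (h.adX r))
  have m3 := h.meas_incr r (r + T) (κ := fun ω => imin J hJ (X r ω)) (imin_meas J hJ (h.adX r))
  have k2 := markov_sq hC hS m2 i2 h2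
  have k3 := markov_sq hC hS m3 i3 h3
  have b1 : K * e0 / C ^ 2 ≤ κ0 / 4 * e0 := by
    rw [div_le_iff₀ (by positivity)]
    nlinarith
  have hsub : {ω | 2 < J.inf' hJ (X (r + T) ω) - I.sup' hI (X (r + T) ω)} ∩ S ⊆
      (good X hI hJ C r (r + T) ∩ B) ∪
        (({ω | C < |X (r + T) ω (imax I hI (X r ω)) - X r ω (imax I hI (X r ω))|} ∩ S) ∪
        ({ω | C < |X (r + T) ω (imin J hJ (X r ω)) - X r ω (imin J hJ (X r ω))|} ∩ S)) := by
    rintro ω ⟨hω1, hω2⟩
    by_cases c2 : C < |X (r + T) ω (imax I hI (X r ω)) - X r ω (imax I hI (X r ω))|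
    · exact Or.inr (Or.inl ⟨c2, hω2⟩)
    · by_cases c3 : C < |X (r + T) ω (imin J hJ (X r ω)) - X r ω (imin J hJ (X r ω))|
      · exact Or.inr (Or.inr ⟨c3, hω2⟩)
      · left
        refine ⟨⟨hω1, ?_, ?_⟩, hSB hω2⟩
        · have s1 := imax_spec I hI (X r ω)
          have s2 : X (r + T) ω (imax I hI (X r ω)) ≤ I.sup' hI (X (r + T) ω) :=
            Finset.le_sup' _ s1.1
          rw [← s1.2]
          have := (abs_le.mp (not_lt.mp c2)).1
          linarith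
        · have s1 := imin_spec J hJ (X r ω)
          have s2 : J.inf' hJ (X (r + T) ω) ≤ X (r + T) ω (imin J hJ (X r ω)) :=
            Finset.inf'_le _ s1.1
          rw [← s1.2]
          have := (abs_le.mp (not_lt.mp c3)).2
          linarith
  have u := (measureReal_mono (μ := P) hsub (measure_ne_top _ _)).trans
    ((measureReal_union_le _ _).trans (add_le_add le_rfl (measureReal_union_le _ _)))
  linarith

/-- Gaps that are small at time `r`. -/
theorem small1 (h : HWSolution P β ν x X) (hν : FiniteSpeed ν) {I J : Finset (Fin n)}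
    (hI : I.Nonempty) (hJ : J.Nonempty) {lam : ℝ} (hlam : 0 < lam) (hbl : 2 * spd ν * lam ≤ 1 / 4)
    {s : ℝ≥0} (hs : (s : ℝ) = (lam / 16) ^ 2 / 2) {k : ℕ} (hk : 2 ≤ k * (lam / 256)) {T : ℝ≥0}
    (hT : T = ((256 + k : ℕ) : ℝ≥0) * s) (r : ℝ≥0) {κ0 C K : ℝ}
    (hκ : κ0 ≤ (1 / 64 : ℝ) ^ k / (12 * lam))
    (hK : K = 2 * (4 * T / lam + 2 * lam) + 2 * (β * T) ^ 2 * (2 / lam)) (hC : 0 < C)
    (hCK : 4 * K ≤ κ0 * C ^ 2)
    {B : Set Ω} (hB : MeasurableSet[h.F r] B)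
    (hB1 : ∀ ω ∈ B, 0 < J.inf' hJ (X r ω) - I.sup' hI (X r ω) ∧
      J.inf' hJ (X r ω) - I.sup' hI (X r ω) ≤ lam) :
    κ0 / 2 * ∫ ω in B, (J.inf' hJ (X r ω) - I.sup' hI (X r ω)) ∂P ≤
      P.real (good X hI hJ C r (r + T) ∩ B) := by
  set s0 : ℝ≥0 := 256 * s with hs0
  have hs0r : (s0 : ℝ) = lam ^ 2 / 2 := by
    rw [hs0, NNReal.coe_mul, hs]; push_cast; ring
  have hTs : T = s0 + k * s := by rw [hT, hs0]; push_cast; ring
  have hsT : s0 ≤ T := by rw [hTs]; exact le_self_add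
  have g := h.gap_inst hν hI hJ r
  have hB0 : MeasurableSet[(shiftF h.F r) 0] B := by
    rw [shiftF_apply, add_zero]; exact hB
  have hBm : MeasurableSet B := h.F.le r _ hB
  have e1 : ∀ ω, X (r + 0) ω (imin J hJ (X r ω)) - X (r + 0) ω (imax I hI (X r ω)) =
      J.inf' hJ (X r ω) - I.sup' hI (X r ω) := by
    intro ω
    have := g.eq ω
    simp only [add_zero] at this ⊢
    exact this.symm
  have hB2 : ∀ ω ∈ B, 0 < X (r + 0) ω (imin J hJ (X r ω)) - X (r + 0) ω (imax I hI (X r ω)) ∧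
      X (r + 0) ω (imin J hJ (X r ω)) - X (r + 0) ω (imax I hI (X r ω)) ≤ lam := by
    intro ω hω
    rw [e1]; exact hB1 ω hω
  have hb0 : 0 ≤ 2 * spd ν := by have := spd_nonneg ν; linarith
  obtain ⟨-, f2, f3⟩ := g.first hlam hs0r hb0 hbl hB0 hB2
  simp only [e1] at f2 f3
  set e0 : ℝ := ∫ ω in B, (J.inf' hJ (X r ω) - I.sup' hI (X r ω)) ∂P with he0
  have he0nn : 0 ≤ e0 := setIntegral_nonneg hBm fun ω hω => (hB1 ω hω).1.le
  set A : Set Ω := {ω | ∀ u ≤ s0, 0 < J.inf' hJ (X (r + u) ω) - I.sup' hI (X (r + u) ω)} with hA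
  have hAm : MeasurableSet[h.F (r + s0)] A := meas_pos g.cG g.aG s0
  have hS : MeasurableSet (A ∩ B) := (h.F.le _ _ hAm).inter hBm
  -- lower bound for the probability
  set B' : Set Ω := (A ∩ {ω | lam / 8 < J.inf' hJ (X (r + s0) ω) - I.sup' hI (X (r + s0) ω)}) ∩ B
    with hB'
  have hB'm : MeasurableSet[h.F (r + s0)] B' := by
    refine (hAm.inter ?_).inter (h.F.mono le_self_add _ hB)
    exact ((h.adL J hJ (r + s0)).sub (h.adM I hI (r + s0))) measurableSet_Ioi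
  have hit1 := h.iter hν hI hJ (lam := lam / 16) (a := lam / 8) (by positivity) (by linarith) hs
    (by linarith) (r + s0) hB'm (fun ω hω => hω.1.2) k
  have hrT : r + s0 + k * s = r + T := by rw [hTs, add_assoc]
  rw [hrT] at hit1
  have low : κ0 * e0 ≤
      P.real ({ω | 2 < J.inf' hJ (X (r + T) ω) - I.sup' hI (X (r + T) ω)} ∩ (A ∩ B)) := by
    calc κ0 * e0 ≤ (1 / 64 : ℝ) ^ k / (12 * lam) * e0 := mul_le_mul_of_nonneg_right hκ he0nn
      _ = (1 / 64 : ℝ) ^ k * (1 / (12 * lam) * e0) := by ring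
      _ ≤ (1 / 64 : ℝ) ^ k * P.real B' := mul_le_mul_of_nonneg_left f3 (by positivity)
      _ ≤ _ := hit1
      _ ≤ _ := by
        refine measureReal_mono ?_ (measure_ne_top _ _)
        rintro ω ⟨w1, w2⟩
        refine ⟨?_, w2.1.1, w2.2⟩
        simp only [Set.mem_ofPred_eq] at w1 ⊢
        have : (k : ℝ) * (lam / 16 / 16) = k * (lam / 256) := by ring
        rw [this] at w1
        linarith
  have t1 := h.incr_le r T (κ := fun ω => imax I hI (X r ω)) (imax_meas I hI (h.adX r)) hS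
    (g.tail (h.bm_select r (imax_meas I hI (h.adX r))) hlam hsT hs0r hb0 hbl hB0 hB2)
  have t2 := h.incr_le r T (κ := fun ω => imin J hJ (X r ω)) (imin_meas J hJ (h.adX r)) hS
    (g.tail (h.bm_select r (imin_meas J hJ (h.adX r))) hlam hsT hs0r hb0 hbl hB0 hB2)
  simp only [e1] at t1 t2
  have hKe : 2 * ((4 * T / lam + 2 * lam) * e0) + 2 * (β * T) ^ 2 * P.real (A ∩ B) ≤ K * e0 := by
    have h5 : 2 * (β * T) ^ 2 * P.real (A ∩ B) ≤ 2 * (β * T) ^ 2 * (2 / lam * e0) :=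
      mul_le_mul_of_nonneg_left f2 (by positivity)
    rw [hK]
    have h6 : (2 * (4 * T / lam + 2 * lam) + 2 * (β * T) ^ 2 * (2 / lam)) * e0 =
      2 * ((4 * T / lam + 2 * lam) * e0) + 2 * (β * T) ^ 2 * (2 / lam * e0) := by ring
    rw [h6]
    linarith
  exact h.good_of hI hJ r T hC hCK he0nn hS Set.inter_subset_right low (t1.2.trans hKe)
    (t2.2.trans hKe) t1.1 t2.1

/-- Gaps that are not small at time `r`. -/
theorem small2 (h : HWSolution P β ν x X) (hν : FiniteSpeed ν) {I J : Finset (Fin n)}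
    (hI : I.Nonempty) (hJ : J.Nonempty) {lam H : ℝ} (hlam : 0 < lam) (hH : 0 < H)
    (hbl : 2 * spd ν * lam ≤ 1 / 4)
    {s : ℝ≥0} (hs : (s : ℝ) = (lam / 16) ^ 2 / 2) {k : ℕ} (hk : 2 ≤ k * (lam / 256)) {T : ℝ≥0}
    (hT : T = ((256 + k : ℕ) : ℝ≥0) * s) (r : ℝ≥0) {κ0 C K : ℝ}
    (hκ : κ0 ≤ (1 / 64 : ℝ) ^ (256 + k) / H)
    (hK : K = 2 * (4 * T / lam + 2 * lam) + 2 * (β * T) ^ 2 * (2 / lam)) (hC : 0 < C)
    (hCK : 4 * K ≤ κ0 * C ^ 2)
    {B : Set Ω} (hB : MeasurableSet[h.F r] B)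
    (hB1 : ∀ ω ∈ B, lam < J.inf' hJ (X r ω) - I.sup' hI (X r ω) ∧
      J.inf' hJ (X r ω) - I.sup' hI (X r ω) ≤ H) :
    κ0 / 2 * ∫ ω in B, (J.inf' hJ (X r ω) - I.sup' hI (X r ω)) ∂P ≤
      P.real (good X hI hJ C r (r + T) ∩ B) := by
  have hBm : MeasurableSet B := h.F.le r _ hB
  have g := h.gap_inst hν hI hJ r
  have ig : Integrable (fun ω => J.inf' hJ (X r ω) - I.sup' hI (X r ω)) P := by
    have := g.int_G (ρ := fun _ => 0) (T := 0)
      (fun s => by exact MeasurableSet.const (0 ≤ s)) (fun _ => le_rfl)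
    simpa only [add_zero] using this
  set e0 : ℝ := ∫ ω in B, (J.inf' hJ (X r ω) - I.sup' hI (X r ω)) ∂P with he0
  have he0nn : 0 ≤ e0 := setIntegral_nonneg hBm fun ω hω => (hlam.trans (hB1 ω hω).1).le
  have up : e0 ≤ H * P.real B := by
    have : e0 ≤ ∫ ω in B, H ∂P := setIntegral_mono_on ig.integrableOn
      (integrable_const _).integrableOn hBm fun ω hω => (hB1 ω hω).2
    rw [setIntegral_const, smul_eq_mul] at this
    linarith
  have lo : lam * P.real B ≤ e0 := by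
    have : ∫ ω in B, lam ∂P ≤ e0 := setIntegral_mono_on
      (integrable_const _).integrableOn ig.integrableOn hBm fun ω hω => (hB1 ω hω).1.le
    rw [setIntegral_const, smul_eq_mul] at this
    linarith
  have lo2 : P.real B ≤ 1 / lam * e0 := by
    rw [div_mul_eq_mul_div, le_div_iff₀ hlam]; linarith
  have hit1 := h.iter hν hI hJ (lam := lam / 16) (a := lam / 8) (by positivity) (by linarith) hs
    (by linarith) r hB (fun ω hω => by have := (hB1 ω hω).1; linarith) (256 + k)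
  rw [← hT] at hit1
  have low : κ0 * e0 ≤
      P.real ({ω | 2 < J.inf' hJ (X (r + T) ω) - I.sup' hI (X (r + T) ω)} ∩ B) := by
    calc κ0 * e0 ≤ (1 / 64 : ℝ) ^ (256 + k) / H * e0 := mul_le_mul_of_nonneg_right hκ he0nn
      _ ≤ (1 / 64 : ℝ) ^ (256 + k) / H * (H * P.real B) :=
          mul_le_mul_of_nonneg_left up (by positivity)
      _ = (1 / 64 : ℝ) ^ (256 + k) * P.real B := by field_simp
      _ ≤ _ := hit1
      _ ≤ _ := by
        refine measureReal_mono ?_ (measure_ne_top _ _)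
        rintro ω ⟨w1, w2⟩
        refine ⟨?_, w2⟩
        simp only [Set.mem_ofPred_eq] at w1 ⊢
        have : ((256 + k : ℕ) : ℝ) * (lam / 16 / 16) = lam + k * (lam / 256) := by
          push_cast; ring
        rw [this] at w1
        linarith
  have hB0 : MeasurableSet[(shiftF h.F r) 0] B := by
    rw [shiftF_apply, add_zero]; exact hB
  have t1 := h.incr_le r T (κ := fun ω => imax I hI (X r ω)) (imax_meas I hI (h.adX r)) hBm
    ((h.bm_select r (imax_meas I hI (h.adX r))).sq_const T hB0).2.le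
  have t2 := h.incr_le r T (κ := fun ω => imin J hJ (X r ω)) (imin_meas J hJ (h.adX r)) hBm
    ((h.bm_select r (imin_meas J hJ (h.adX r))).sq_const T hB0).2.le
  have hKe : 2 * (T * P.real B) + 2 * (β * T) ^ 2 * P.real B ≤ K * e0 := by
    have h4 : 2 * (T * P.real B) ≤ 2 * (T * (1 / lam * e0)) := by
      have := NNReal.coe_nonneg T
      gcongr
    have h5 : 2 * (β * T) ^ 2 * P.real B ≤ 2 * (β * T) ^ 2 * (1 / lam * e0) :=
      mul_le_mul_of_nonneg_left lo2 (by positivity)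
    rw [hK]
    have h7 : 0 ≤ 1 / lam * e0 := by positivity
    have h8 : 0 ≤ (T : ℝ) * (1 / lam * e0) := mul_nonneg (NNReal.coe_nonneg T) h7
    have h9 : 0 ≤ (β * T) ^ 2 * (1 / lam * e0) := mul_nonneg (sq_nonneg _) h7
    have h10 : 0 ≤ lam * e0 := by positivity
    have h6 : (2 * (4 * T / lam + 2 * lam) + 2 * (β * T) ^ 2 * (2 / lam)) * e0 =
      8 * (T * (1 / lam * e0)) + 4 * (lam * e0) + 4 * ((β * T) ^ 2 * (1 / lam * e0)) := by ring
    rw [h6]
    linarith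
  exact h.good_of hI hJ r T hC hCK he0nn hBm subset_rfl low (t1.2.trans hKe)
    (t2.2.trans hKe) t1.1 t2.1

end HWSolution

end Pool.Agent.Y982.HW
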