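import Mathlib
import Pool.Agent.Y982.HW.Small2

open MeasureTheory Filter Topology
open scoped NNReal ENNReal

namespace Pool.Agent.Y982.HW

namespace HWSolution

set_option linter.unusedSectionVars false

variable {Ω : Type*} [MeasurableSpace Ω] {P : Measure Ω} [IsProbabilityMeasure P] {β : ℝ}
  {ν : Measure unitInterval} [IsFiniteMeasure ν] {n : ℕ} {x : Fin n → ℝ}
  {X : ℝ≥0 → Ω → Fin n → ℝ}

theorem intM (h : HWSolution P β ν x X) (hν : FiniteSpeed ν) (I : Finset (Fin n))
    (hI : I.Nonempty) (t : ℝ≥0) : Integrable (fun ω => I.sup' hI (X t ω)) P := by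
  have h1 := (h.mM I hI).integrable t
  have h2 := h.int_of_bdd_acc (h.adM I hI) (h.mM I hI) (dmax_meas I) (dmax_abs hν I) t
  refine (h1.add h2).congr (Eventually.of_forall fun ω => ?_)
  simp

theorem intL (h : HWSolution P β ν x X) (hν : FiniteSpeed ν) (J : Finset (Fin n))
    (hJ : J.Nonempty) (t : ℝ≥0) : Integrable (fun ω => J.inf' hJ (X t ω)) P := by
  have h1 := (h.mL hν J hJ).integrable t
  have h2 := h.int_of_bdd_acc (h.adL J hJ) (h.mL hν J hJ) (dmin_meas J) (dmin_abs hν J) t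
  refine (h1.add h2).congr (Eventually.of_forall fun ω => ?_)
  simp

theorem mean_sup (h : HWSolution P β ν x X) (hν : FiniteSpeed ν) (I : Finset (Fin n))
    (hI : I.Nonempty) (r T : ℝ≥0) {B : Set Ω} (hB : MeasurableSet[h.F r] B) :
    ∫ ω in B, (I.sup' hI (X (r + T) ω) - I.sup' hI (X r ω)) ∂P ≤
      (β + spd ν) * T * P.real B := by
  have hBm : MeasurableSet B := h.F.le r _ hB
  have m1 := (h.mM I hI).setIntegral_eq (le_self_add : r ≤ r + T) hB
  have i1 := h.intM hν I hI (r + T)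
  have i2 := h.intM hν I hI r
  have a1 := h.int_of_bdd_acc (h.adM I hI) (h.mM I hI) (dmax_meas I) (dmax_abs hν I) (r + T)
  have a2 := h.int_of_bdd_acc (h.adM I hI) (h.mM I hI) (dmax_meas I) (dmax_abs hν I) r
  rw [integral_sub i2.integrableOn a2.integrableOn,
    integral_sub i1.integrableOn a1.integrableOn] at m1
  rw [integral_sub i1.integrableOn i2.integrableOn]
  have u : ∫ ω in B, (acc X (dmax β ν I) (r + T) ω - acc X (dmax β ν I) r ω) ∂P ≤
      ∫ ω in B, (β + spd ν) * T ∂P := by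
    refine setIntegral_mono (a1.sub a2).integrableOn (integrable_const _).integrableOn fun ω => ?_
    have := (acc_sub (X := X) (h.cont ω) (dmax_meas (β := β) (ν := ν) I) (dmax_abs hν I)
      (fun y => dmax_bd hν I y) (le_self_add : r ≤ r + T)).2
    simpa only [NNReal.coe_add, add_sub_cancel_left] using this
  rw [integral_sub a1.integrableOn a2.integrableOn, setIntegral_const, smul_eq_mul] at u
  linarith

theorem mean_inf (h : HWSolution P β ν x X) (hν : FiniteSpeed ν) (J : Finset (Fin n))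
    (hJ : J.Nonempty) (r T : ℝ≥0) {B : Set Ω} (hB : MeasurableSet[h.F r] B) :
    (β - spd ν) * T * P.real B ≤
      ∫ ω in B, (J.inf' hJ (X (r + T) ω) - J.inf' hJ (X r ω)) ∂P := by
  have hBm : MeasurableSet B := h.F.le r _ hB
  have m1 := (h.mL hν J hJ).setIntegral_eq (le_self_add : r ≤ r + T) hB
  have i1 := h.intL hν J hJ (r + T)
  have i2 := h.intL hν J hJ r
  have a1 := h.int_of_bdd_acc (h.adL J hJ) (h.mL hν J hJ) (dmin_meas J) (dmin_abs hν J) (r + T)
  have a2 := h.int_of_bdd_acc (h.adL J hJ) (h.mL hν J hJ) (dmin_meas J) (dmin_abs hν J) r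
  rw [integral_sub i2.integrableOn a2.integrableOn,
    integral_sub i1.integrableOn a1.integrableOn] at m1
  rw [integral_sub i1.integrableOn i2.integrableOn]
  have u : ∫ ω in B, (β - spd ν) * T ∂P ≤
      ∫ ω in B, (acc X (dmin β ν J) (r + T) ω - acc X (dmin β ν J) r ω) ∂P := by
    refine setIntegral_mono (integrable_const _).integrableOn (a1.sub a2).integrableOn fun ω => ?_
    have := (acc_sub (X := X) (h.cont ω) (dmin_meas (β := β) (ν := ν) J) (dmin_abs hν J)
        (a := β - spd ν) (b := ∑ Γ ∈ J.powerset, |sg Γ| * (|β| + spd ν))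
        (fun y => ⟨dmin_ge β hν hJ y, (le_abs_self _).trans (dmin_abs hν J y)⟩)
        (le_self_add : r ≤ r + T)).1
    simpa only [NNReal.coe_add, add_sub_cancel_left] using this
  rw [integral_sub a1.integrableOn a2.integrableOn, setIntegral_const, smul_eq_mul] at u
  linarith

/-- Mean and absolute displacement of a particle chosen at time `r`. -/
theorem disp (h : HWSolution P β ν x X) (r T : ℝ≥0) {κ : Ω → Fin n}
    (hκ : ∀ k, MeasurableSet[h.F r] {ω | κ ω = k}) {B : Set Ω} (hB : MeasurableSet[h.F r] B) :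
    Integrable (fun ω => X (r + T) ω (κ ω) - X r ω (κ ω)) P ∧
    ∫ ω in B, (X (r + T) ω (κ ω) - X r ω (κ ω)) ∂P = β * T * P.real B ∧
    ∫ ω in B, |X (r + T) ω (κ ω) - X r ω (κ ω)| ∂P ≤ (|β| * T + (T + 1) / 2) * P.real B := by
  have hBm : MeasurableSet B := h.F.le r _ hB
  have w := h.bm_select r hκ
  have hB0 : MeasurableSet[(shiftF h.F r) 0] B := by
    rw [shiftF_apply, add_zero]; exact hB
  obtain ⟨iq, vq⟩ := w.sq_const T hB0
  have m1 := w.m.setIntegral_eq (zero_le : (0 : ℝ≥0) ≤ T) hB0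
  have j0 := w.m.integrable 0
  have jT := w.m.integrable T
  have e : ∀ ω, X (r + T) ω (κ ω) - X r ω (κ ω) =
      ((X (r + T) ω (κ ω) - β * ((r + T : ℝ≥0) : ℝ)) -
      (X (r + 0) ω (κ ω) - β * ((r + 0 : ℝ≥0) : ℝ))) + β * T := by
    intro ω
    simp only [add_zero, NNReal.coe_add]
    ring
  have jd : Integrable (fun ω => (X (r + T) ω (κ ω) - β * ((r + T : ℝ≥0) : ℝ)) -
      (X (r + 0) ω (κ ω) - β * ((r + 0 : ℝ≥0) : ℝ))) P := jT.sub j0
  have i1 : Integrable (fun ω => X (r + T) ω (κ ω) - X r ω (κ ω)) P := by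
    simp only [e]
    exact jd.add (integrable_const _)
  refine ⟨i1, ?_, ?_⟩
  · simp only [e]
    rw [integral_add jd.integrableOn (integrable_const _).integrableOn,
      integral_sub jT.integrableOn j0.integrableOn, m1, sub_self, setIntegral_const, smul_eq_mul]
    ring
  · have u : ∫ ω in B, |X (r + T) ω (κ ω) - X r ω (κ ω)| ∂P ≤
        ∫ ω in B, ((1 / 2) * ((X (r + T) ω (κ ω) - β * ((r + T : ℝ≥0) : ℝ)) -
          (X (r + 0) ω (κ ω) - β * ((r + 0 : ℝ≥0) : ℝ))) ^ 2 + (1 / 2 + |β| * T)) ∂P := by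
      refine setIntegral_mono i1.abs.integrableOn
        ((iq.const_mul _).integrableOn.add (integrable_const _).integrableOn) fun ω => ?_
      simp only [e]
      set z := (X (r + T) ω (κ ω) - β * ((r + T : ℝ≥0) : ℝ)) -
          (X (r + 0) ω (κ ω) - β * ((r + 0 : ℝ≥0) : ℝ)) with hz
      have h1 : |z + β * T| ≤ |z| + |β| * T := by
        refine (abs_add_le _ _).trans ?_
        rw [abs_mul, abs_of_nonneg (NNReal.coe_nonneg T)]
      have h2 : |z| ≤ 1 / 2 * z ^ 2 + 1 / 2 := by
        rw [← sq_abs]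
        nlinarith [sq_nonneg (|z| - 1)]
      linarith
    rw [integral_add (iq.const_mul _).integrableOn (integrable_const _).integrableOn,
      integral_const_mul, vq, setIntegral_const, smul_eq_mul] at u
    linarith

theorem addM (h : HWSolution P β ν x X) (hν : FiniteSpeed ν) (I : Finset (Fin n))
    (hI : I.Nonempty) (r T : ℝ≥0) {B : Set Ω} (hB : MeasurableSet[h.F r] B) :
    ∫ ω in B, max (I.sup' hI (X (r + T) ω) - I.sup' hI (X r ω)) 0 ∂P ≤
      (spd ν * T + |β| * T + (T + 1) / 2) * P.real B := by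
  have hBm : MeasurableSet B := h.F.le r _ hB
  obtain ⟨d1, d2, d3⟩ := h.disp r T (κ := fun ω => imax I hI (X r ω))
    (imax_meas I hI (h.adX r)) hB
  have i1 : Integrable (fun ω => I.sup' hI (X (r + T) ω) - I.sup' hI (X r ω)) P :=
    (h.intM hν I hI (r + T)).sub (h.intM hν I hI r)
  have u : ∫ ω in B, max (I.sup' hI (X (r + T) ω) - I.sup' hI (X r ω)) 0 ∂P ≤
      ∫ ω in B, (((I.sup' hI (X (r + T) ω) - I.sup' hI (X r ω)) -
        (X (r + T) ω (imax I hI (X r ω)) - X r ω (imax I hI (X r ω)))) +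
        |X (r + T) ω (imax I hI (X r ω)) - X r ω (imax I hI (X r ω))|) ∂P := by
    refine setIntegral_mono (i1.pos_part).integrableOn
      ((i1.sub d1).integrableOn.add d1.abs.integrableOn) fun ω => ?_
    have s1 := imax_spec I hI (X r ω)
    have s2 : X (r + T) ω (imax I hI (X r ω)) ≤ I.sup' hI (X (r + T) ω) := Finset.le_sup' _ s1.1
    have s3 := s1.2
    refine max_le ?_ ?_
    · linarith [le_abs_self (X (r + T) ω (imax I hI (X r ω)) - X r ω (imax I hI (X r ω)))]
    · linarith [abs_nonneg (X (r + T) ω (imax I hI (X r ω)) - X r ω (imax I hI (X r ω)))]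
  have i3 : Integrable (fun ω => (I.sup' hI (X (r + T) ω) - I.sup' hI (X r ω)) -
        (X (r + T) ω (imax I hI (X r ω)) - X r ω (imax I hI (X r ω)))) P := i1.sub d1
  rw [integral_add i3.integrableOn d1.abs.integrableOn,
    integral_sub i1.integrableOn d1.integrableOn, d2] at u
  have m1 := h.mean_sup hν I hI r T hB
  linarith

theorem addL (h : HWSolution P β ν x X) (hν : FiniteSpeed ν) (J : Finset (Fin n))
    (hJ : J.Nonempty) (r T : ℝ≥0) {B : Set Ω} (hB : MeasurableSet[h.F r] B) :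
    ∫ ω in B, max (J.inf' hJ (X r ω) - J.inf' hJ (X (r + T) ω)) 0 ∂P ≤
      (spd ν * T + |β| * T + (T + 1) / 2) * P.real B := by
  have hBm : MeasurableSet B := h.F.le r _ hB
  obtain ⟨d1, d2, d3⟩ := h.disp r T (κ := fun ω => imin J hJ (X r ω))
    (imin_meas J hJ (h.adX r)) hB
  have i1 : Integrable (fun ω => J.inf' hJ (X (r + T) ω) - J.inf' hJ (X r ω)) P :=
    (h.intL hν J hJ (r + T)).sub (h.intL hν J hJ r)
  have i1' : Integrable (fun ω => J.inf' hJ (X r ω) - J.inf' hJ (X (r + T) ω)) P :=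
    (h.intL hν J hJ r).sub (h.intL hν J hJ (r + T))
  have u : ∫ ω in B, max (J.inf' hJ (X r ω) - J.inf' hJ (X (r + T) ω)) 0 ∂P ≤
      ∫ ω in B, (((X (r + T) ω (imin J hJ (X r ω)) - X r ω (imin J hJ (X r ω))) -
        (J.inf' hJ (X (r + T) ω) - J.inf' hJ (X r ω))) +
        |X (r + T) ω (imin J hJ (X r ω)) - X r ω (imin J hJ (X r ω))|) ∂P := by
    refine setIntegral_mono (i1'.pos_part).integrableOn
      ((d1.sub i1).integrableOn.add d1.abs.integrableOn) fun ω => ?_
    have s1 := imin_spec J hJ (X r ω)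
    have s2 : J.inf' hJ (X (r + T) ω) ≤ X (r + T) ω (imin J hJ (X r ω)) := Finset.inf'_le _ s1.1
    have s3 := s1.2
    refine max_le ?_ ?_
    · linarith [neg_abs_le (X (r + T) ω (imin J hJ (X r ω)) - X r ω (imin J hJ (X r ω)))]
    · linarith [abs_nonneg (X (r + T) ω (imin J hJ (X r ω)) - X r ω (imin J hJ (X r ω)))]
  have i3 : Integrable (fun ω => (X (r + T) ω (imin J hJ (X r ω)) - X r ω (imin J hJ (X r ω))) -
        (J.inf' hJ (X (r + T) ω) - J.inf' hJ (X r ω))) P := d1.sub i1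
  rw [integral_add i3.integrableOn d1.abs.integrableOn,
    integral_sub d1.integrableOn i1.integrableOn, d2] at u
  have m1 := h.mean_inf hν J hJ r T hB
  linarith

end HWSolution

end Pool.Agent.Y982.HW
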