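import Mathlib
import Pool.Agent.Y982.HW.Add

open MeasureTheory Filter Topology
open scoped NNReal ENNReal

namespace Pool.Agent.Y982.HW

section sets

variable {n : ℕ}

/-- The points between the coordinates in `I` and the other coordinates. -/
def gapS (I : Finset (Fin n)) (y : Fin n → ℝ) : Set ℝ :=
  {z | (∀ i ∈ I, y i < z) ∧ (∀ i ∉ I, z < y i)}

/-- The points `z` such that `[z, z+1]` lies between the coordinates in `I` and the other
coordinates. -/
def tgtS (I : Finset (Fin n)) (y : Fin n → ℝ) : Set ℝ :=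
  {z | (∀ i ∈ I, y i < z) ∧ (∀ i ∉ I, z + 1 < y i)}

noncomputable def lenG (a b : ℝ) (I : Finset (Fin n)) (y : Fin n → ℝ) : ℝ :=
  volume.real (Set.Icc a b ∩ gapS I y)

noncomputable def lenT (a b : ℝ) (I : Finset (Fin n)) (y : Fin n → ℝ) : ℝ :=
  volume.real (Set.Icc a b ∩ tgtS I y)

/-- The points of the window whose unit interval is free of particles. -/
def freeS (a b : ℝ) (y : Fin n → ℝ) : Set ℝ :=
  {z | z ∈ Set.Icc a b ∧ ∀ i, y i ∉ Set.Icc z (z + 1)}

theorem gapS_meas (I : Finset (Fin n)) (y : Fin n → ℝ) : MeasurableSet (gapS I y) := by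
  have : gapS I y = (⋂ i, ⋂ (_ : i ∈ I), Set.Ioi (y i)) ∩ ⋂ i, ⋂ (_ : i ∉ I), Set.Iio (y i) := by
    ext z; simp [gapS]
  rw [this]
  exact (MeasurableSet.iInter fun i => MeasurableSet.iInter fun _ => measurableSet_Ioi).inter
    (MeasurableSet.iInter fun i => MeasurableSet.iInter fun _ => measurableSet_Iio)

theorem tgtS_meas (I : Finset (Fin n)) (y : Fin n → ℝ) : MeasurableSet (tgtS I y) := by
  have : tgtS I y = (⋂ i, ⋂ (_ : i ∈ I), Set.Ioi (y i)) ∩
      ⋂ i, ⋂ (_ : i ∉ I), Set.Iio (y i - 1) := by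
    ext z; simp [tgtS, lt_sub_iff_add_lt]
  rw [this]
  exact (MeasurableSet.iInter fun i => MeasurableSet.iInter fun _ => measurableSet_Ioi).inter
    (MeasurableSet.iInter fun i => MeasurableSet.iInter fun _ => measurableSet_Iio)

theorem lenG_measurable (a b : ℝ) (I : Finset (Fin n)) : Measurable (lenG a b I) := by
  have hS : MeasurableSet {p : (Fin n → ℝ) × ℝ | p.2 ∈ Set.Icc a b ∩ gapS I p.1} := by
    have : {p : (Fin n → ℝ) × ℝ | p.2 ∈ Set.Icc a b ∩ gapS I p.1} =
        {p | p.2 ∈ Set.Icc a b} ∩ ((⋂ i, ⋂ (_ : i ∈ I), {p | p.1 i < p.2}) ∩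
          ⋂ i, ⋂ (_ : i ∉ I), {p | p.2 < p.1 i}) := by
      ext p; simp [gapS]
    rw [this]
    refine (measurable_snd measurableSet_Icc).inter
      ((MeasurableSet.iInter fun i => MeasurableSet.iInter fun _ => ?_).inter
        (MeasurableSet.iInter fun i => MeasurableSet.iInter fun _ => ?_))
    · exact measurableSet_lt ((measurable_pi_apply i).comp measurable_fst) measurable_snd
    · exact measurableSet_lt measurable_snd ((measurable_pi_apply i).comp measurable_fst)
  exact (measurable_measure_prodMk_left (ν := (volume : Measure ℝ)) hS).ennreal_toReal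

theorem lenT_measurable (a b : ℝ) (I : Finset (Fin n)) : Measurable (lenT a b I) := by
  have hS : MeasurableSet {p : (Fin n → ℝ) × ℝ | p.2 ∈ Set.Icc a b ∩ tgtS I p.1} := by
    have : {p : (Fin n → ℝ) × ℝ | p.2 ∈ Set.Icc a b ∩ tgtS I p.1} =
        {p | p.2 ∈ Set.Icc a b} ∩ ((⋂ i, ⋂ (_ : i ∈ I), {p | p.1 i < p.2}) ∩
          ⋂ i, ⋂ (_ : i ∉ I), {p | p.2 + 1 < p.1 i}) := by
      ext p; simp [tgtS]
    rw [this]
    refine (measurable_snd measurableSet_Icc).inter
      ((MeasurableSet.iInter fun i => MeasurableSet.iInter fun _ => ?_).inter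
        (MeasurableSet.iInter fun i => MeasurableSet.iInter fun _ => ?_))
    · exact measurableSet_lt ((measurable_pi_apply i).comp measurable_fst) measurable_snd
    · exact measurableSet_lt (measurable_snd.add_const _)
        ((measurable_pi_apply i).comp measurable_fst)
  exact (measurable_measure_prodMk_left (ν := (volume : Measure ℝ)) hS).ennreal_toReal

theorem len_bd {a b : ℝ} (hab : a ≤ b) (S : Set ℝ) :
    0 ≤ volume.real (Set.Icc a b ∩ S) ∧ volume.real (Set.Icc a b ∩ S) ≤ b - a := by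
  refine ⟨measureReal_nonneg, ?_⟩
  have h1 : volume.real (Set.Icc a b ∩ S) ≤ volume.real (Set.Icc a b) :=
    measureReal_mono Set.inter_subset_left (by rw [Real.volume_Icc]; exact ENNReal.ofReal_ne_top)
  rw [Real.volume_real_Icc_of_le hab] at h1
  exact h1

theorem ne_top_of_Icc {a b : ℝ} {S : Set ℝ} (h : S ⊆ Set.Icc a b) : volume S ≠ ∞ :=
  ((measure_mono h).trans_lt (by rw [Real.volume_Icc]; exact ENNReal.ofReal_lt_top)).ne

theorem sumG {a b : ℝ} (hab : a ≤ b) (y : Fin n → ℝ) :
    b - a ≤ ∑ I : Finset (Fin n), lenG a b I y := by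
  classical
  have hsub : Set.Icc a b ⊆ (Set.range y) ∪ ⋃ I ∈ (Finset.univ : Finset (Finset (Fin n))),
      (Set.Icc a b ∩ gapS I y) := by
    intro z hz
    by_cases hr : z ∈ Set.range y
    · exact Or.inl hr
    · right
      simp only [Finset.mem_univ, Set.iUnion_true, Set.mem_iUnion]
      refine ⟨Finset.univ.filter fun i => y i < z, hz, ?_, ?_⟩
      · intro i hi
        exact (Finset.mem_filter.mp hi).2
      · intro i hi
        have h1 : ¬ (y i < z) := fun h => hi (by simp [h])
        rcases lt_or_eq_of_le (not_lt.mp h1) with h2 | h2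
        · exact h2
        · exact absurd ⟨i, h2.symm⟩ hr
  have h1 : volume.real (Set.Icc a b) ≤ volume.real (Set.range y) +
      volume.real (⋃ I ∈ (Finset.univ : Finset (Finset (Fin n))), (Set.Icc a b ∩ gapS I y)) := by
    refine (measureReal_mono hsub ?_).trans (measureReal_union_le _ _)
    have h2 : volume (Set.range y) = 0 := (Set.finite_range y).measure_zero _
    have h3 : volume (⋃ I ∈ (Finset.univ : Finset (Finset (Fin n))),
        (Set.Icc a b ∩ gapS I y)) ≠ ∞ :=
      ne_top_of_Icc (a := a) (b := b) (by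
        intro z hz
        simp only [Set.mem_iUnion] at hz
        obtain ⟨_, _, h4⟩ := hz
        exact h4.1)
    refine ((measure_union_le _ _).trans_lt ?_).ne
    rw [h2, zero_add]
    exact lt_top_iff_ne_top.mpr h3
  have h2 : volume.real (Set.range y) = 0 := by
    simp [Measure.real, (Set.finite_range y).measure_zero]
  rw [Real.volume_real_Icc_of_le hab, h2, zero_add] at h1
  refine h1.trans ?_
  exact measureReal_biUnion_finset_le _ _

theorem sumT {a b : ℝ} (y : Fin n → ℝ) :
    ∑ I : Finset (Fin n), lenT a b I y ≤ volume.real (freeS a b y) := by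
  classical
  have hd : Set.PairwiseDisjoint (↑(Finset.univ : Finset (Finset (Fin n))))
      (fun I => Set.Icc a b ∩ tgtS I y) := by
    intro I _ J _ hIJ
    rw [Function.onFun, Set.disjoint_left]
    rintro z ⟨_, h1⟩ ⟨_, h2⟩
    apply hIJ
    ext i
    constructor
    · intro hi
      by_contra hj
      have h3 := h1.1 i hi
      have h4 := h2.2 i hj
      linarith
    · intro hj
      by_contra hi
      have h3 := h2.1 i hj
      have h4 := h1.2 i hi
      linarith
  have h1 := measureReal_biUnion_finset (μ := (volume : Measure ℝ))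
    (s := (Finset.univ : Finset (Finset (Fin n)))) (f := fun I => Set.Icc a b ∩ tgtS I y) hd
    (fun I _ => measurableSet_Icc.inter (tgtS_meas I y))
    (fun I _ => ne_top_of_Icc Set.inter_subset_left)
  unfold lenT
  rw [← h1]
  refine measureReal_mono ?_ (ne_top_of_Icc (a := a) (b := b) fun z hz => hz.1)
  intro z hz
  simp only [Set.mem_iUnion] at hz
  obtain ⟨I, _, h2, h3⟩ := hz
  refine ⟨h2, fun i hi => ?_⟩
  by_cases hI : i ∈ I
  · have := h3.1 i hI
    linarith [hi.1]
  · have := h3.2 i hI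
    linarith [hi.2]

theorem gapS_eq {I : Finset (Fin n)} (hI : I.Nonempty) (hJ : Iᶜ.Nonempty) (y : Fin n → ℝ) :
    gapS I y = Set.Ioo (I.sup' hI y) (Iᶜ.inf' hJ y) := by
  ext z
  simp only [gapS, Set.mem_ofPred_eq, Set.mem_Ioo, Finset.sup'_lt_iff, Finset.lt_inf'_iff,
    Finset.mem_compl]

theorem tgtS_eq {I : Finset (Fin n)} (hI : I.Nonempty) (hJ : Iᶜ.Nonempty) (y : Fin n → ℝ) :
    tgtS I y = Set.Ioo (I.sup' hI y) (Iᶜ.inf' hJ y - 1) := by
  ext z
  simp only [tgtS, Set.mem_ofPred_eq, Set.mem_Ioo, Finset.sup'_lt_iff, lt_sub_iff_add_lt,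
    Finset.lt_inf'_iff, Finset.mem_compl]

/-- outward displacement of the left end -/
noncomputable def exM (I : Finset (Fin n)) (y y' : Fin n → ℝ) : ℝ :=
  if hI : I.Nonempty then max (I.sup' hI y' - I.sup' hI y) 0 else 0

/-- outward displacement of the right end -/
noncomputable def exL (J : Finset (Fin n)) (y y' : Fin n → ℝ) : ℝ :=
  if hJ : J.Nonempty then max (J.inf' hJ y - J.inf' hJ y') 0 else 0

theorem vol_Icc (u v : ℝ) : volume.real (Set.Icc u v) = max (v - u) 0 := by
  simp [Measure.real, Real.volume_Icc, ENNReal.toReal_ofReal']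

theorem add_pt {a b a1 b1 : ℝ} (ha : a ≤ a1) (hb : b1 ≤ b)
    (I : Finset (Fin n)) (y y' : Fin n → ℝ) :
    lenG a1 b1 I y ≤ lenT a b I y' + (exM I y y' + (exL Iᶜ y y' + 1)) := by
  classical
  set SM : Set ℝ := if hI : I.Nonempty then Set.Icc (I.sup' hI y) (I.sup' hI y') else ∅ with hSM
  set SL : Set ℝ := if hJ : Iᶜ.Nonempty then Set.Icc (Iᶜ.inf' hJ y' - 1) (Iᶜ.inf' hJ y) else ∅
    with hSL
  have hsub : Set.Icc a1 b1 ∩ gapS I y ⊆ (Set.Icc a b ∩ tgtS I y') ∪ (SM ∪ SL) := by
    rintro z ⟨hz, hg⟩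
    by_cases h1 : ∀ i ∈ I, y' i < z
    · by_cases h2 : ∀ i ∉ I, z + 1 < y' i
      · left
        exact ⟨⟨ha.trans hz.1, hz.2.trans hb⟩, h1, h2⟩
      · right; right
        push Not at h2
        obtain ⟨i, hi, h3⟩ := h2
        have hi' : i ∈ Iᶜ := Finset.mem_compl.mpr hi
        have hJ : Iᶜ.Nonempty := ⟨i, hi'⟩
        simp only [hSL, hJ, dite_true]
        constructor
        · have := Finset.inf'_le y' hi'
          linarith
        · rw [Finset.le_inf'_iff]
          intro j hj
          exact (hg.2 j (Finset.mem_compl.mp hj)).le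
    · right; left
      push Not at h1
      obtain ⟨i, hi, h3⟩ := h1
      have hI : I.Nonempty := ⟨i, hi⟩
      simp only [hSM, hI, dite_true]
      constructor
      · rw [Finset.sup'_le_iff]
        intro j hj
        exact (hg.1 j hj).le
      · exact h3.trans (Finset.le_sup' y' hi)
  have vM : volume SM ≠ ∞ := by
    by_cases hI : I.Nonempty
    · simp only [hSM, hI, dite_true]; exact ne_top_of_Icc subset_rfl
    · simp [hSM, hI]
  have vL : volume SL ≠ ∞ := by
    by_cases hJ : Iᶜ.Nonempty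
    · simp only [hSL, hJ, dite_true]; exact ne_top_of_Icc subset_rfl
    · simp [hSL, hJ]
  have rM : volume.real SM ≤ exM I y y' := by
    by_cases hI : I.Nonempty
    · simp only [hSM, exM, hI, dite_true]; rw [vol_Icc]
    · simp [hSM, exM, hI]
  have rL : volume.real SL ≤ exL Iᶜ y y' + 1 := by
    by_cases hJ : Iᶜ.Nonempty
    · simp only [hSL, exL, hJ, dite_true]
      rw [vol_Icc]
      refine max_le ?_ ?_
      · have := le_max_left (Iᶜ.inf' hJ y - Iᶜ.inf' hJ y') 0
        linarith
      · have := le_max_right (Iᶜ.inf' hJ y - Iᶜ.inf' hJ y') 0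
        linarith
    · simp [hSL, exL, hJ]
  have fin : volume ((Set.Icc a b ∩ tgtS I y') ∪ (SM ∪ SL)) ≠ ∞ := by
    have h1 : volume (Set.Icc a b ∩ tgtS I y') ≠ ∞ := ne_top_of_Icc Set.inter_subset_left
    exact measure_union_ne_top h1 (measure_union_ne_top vM vL)
  have h1 := (measureReal_mono hsub fin).trans ((measureReal_union_le _ _).trans
    (add_le_add le_rfl (measureReal_union_le _ _)))
  unfold lenG lenT
  linarith

end sets

end Pool.Agent.Y982.HW
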