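import Mathlib
import Pool.Agent.Y982.HW.Win

open MeasureTheory Filter Topology
open scoped NNReal ENNReal

namespace Pool.Agent.Y982.HW

/-- The constants of the argument. -/
structure Par (β : ℝ) (ν : Measure unitInterval) where
  lam : ℝ
  s : ℝ≥0
  k : ℕ
  T : ℝ≥0
  C4 : ℝ
  κ : ℝ
  K : ℝ
  C : ℝ
  hlam : 0 < lam
  hbl : 2 * spd ν * lam ≤ 1 / 4
  hs : (s : ℝ) = (lam / 16) ^ 2 / 2
  hk : 2 ≤ k * (lam / 256)
  hT : T = ((256 + k : ℕ) : ℝ≥0) * s
  hC4 : C4 = 2 * (spd ν * T + |β| * T + (T + 1) / 2) + 1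
  hκ : κ = (1 / 64 : ℝ) ^ (256 + k) / (12 * lam + 2 * C4)
  hK : K = 2 * (4 * T / lam + 2 * lam) + 2 * (β * T) ^ 2 * (2 / lam)
  hC : 0 < C
  hCK : 4 * K ≤ κ * C ^ 2

theorem exists_par (β : ℝ) (ν : Measure unitInterval) : Nonempty (Par β ν) := by
  have hb := spd_nonneg ν
  set lam : ℝ := 1 / (8 * spd ν + 1) with hlam
  have hl : 0 < lam := by positivity
  have hbl : 2 * spd ν * lam ≤ 1 / 4 := by
    rw [hlam, mul_one_div, div_le_div_iff₀ (by positivity) (by norm_num)]
    linarith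
  set s : ℝ≥0 := ⟨(lam / 16) ^ 2 / 2, by positivity⟩ with hs
  obtain ⟨k, hk⟩ := exists_nat_ge (512 / lam)
  have hk' : 2 ≤ k * (lam / 256) := by
    rw [div_le_iff₀ hl] at hk
    linarith
  set T : ℝ≥0 := ((256 + k : ℕ) : ℝ≥0) * s with hT
  set C4 : ℝ := 2 * (spd ν * T + |β| * T + (T + 1) / 2) + 1 with hC4
  have hC4p : 0 < C4 := by
    have := NNReal.coe_nonneg T
    positivity
  set κ : ℝ := (1 / 64 : ℝ) ^ (256 + k) / (12 * lam + 2 * C4) with hκ
  have hκp : 0 < κ := by positivity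
  set K : ℝ := 2 * (4 * T / lam + 2 * lam) + 2 * (β * T) ^ 2 * (2 / lam) with hK
  have hKp : 0 < K := by
    have := NNReal.coe_nonneg T
    positivity
  refine ⟨⟨lam, s, k, T, C4, κ, K, Real.sqrt (4 * K / κ), hl, hbl, rfl, hk', hT, hC4, hκ, hK,
    Real.sqrt_pos.mpr (by positivity), ?_⟩⟩
  rw [Real.sq_sqrt (by positivity)]
  rw [mul_div_cancel₀ _ hκp.ne']

namespace Par

variable {β : ℝ} {ν : Measure unitInterval} (p : Par β ν)

theorem C4_ge : 2 ≤ p.C4 := by
  have h1 := spd_nonneg ν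
  have h2 := NNReal.coe_nonneg p.T
  have h3 := abs_nonneg β
  rw [p.hC4]
  have h4 : 0 ≤ spd ν * p.T := mul_nonneg h1 h2
  have h5 : 0 ≤ |β| * p.T := mul_nonneg h3 h2
  linarith

theorem κ_pos : 0 < p.κ := by
  have h1 := p.C4_ge
  have h2 := p.hlam
  rw [p.hκ]
  positivity

theorem κ_le1 : p.κ ≤ 1 := by
  have h1 := p.C4_ge
  have h2 := p.hlam
  rw [p.hκ, div_le_one (by positivity)]
  have : (1 / 64 : ℝ) ^ (256 + p.k) ≤ 1 := pow_le_one₀ (by norm_num) (by norm_num)
  linarith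

theorem κ_le2 : p.κ ≤ (1 / 64 : ℝ) ^ p.k / (12 * p.lam) := by
  have h1 := p.C4_ge
  have h2 := p.hlam
  rw [p.hκ]
  apply div_le_div₀ (by positivity) _ (by positivity) (by linarith)
  exact pow_le_pow_of_le_one (by norm_num) (by norm_num) (by omega)

theorem κ_le3 : p.κ ≤ (1 / 64 : ℝ) ^ (256 + p.k) / (2 * p.C4) := by
  have h1 := p.C4_ge
  have h2 := p.hlam
  rw [p.hκ]
  exact div_le_div₀ (by positivity) le_rfl (by positivity) (by linarith)

end Par

namespace HWSolution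

set_option linter.unusedSectionVars false

variable {Ω : Type*} [MeasurableSpace Ω] {P : Measure Ω} [IsProbabilityMeasure P] {β : ℝ}
  {ν : Measure unitInterval} [IsFiniteMeasure ν] {n : ℕ} {x : Fin n → ℝ}
  {X : ℝ≥0 → Ω → Fin n → ℝ}

theorem mX (h : HWSolution P β ν x X) (t : ℝ≥0) : Measurable (X t) := (h.meas t).measurable

theorem int_lenG (h : HWSolution P β ν x X) {a b : ℝ} (hab : a ≤ b) (I : Finset (Fin n))
    (t : ℝ≥0) : Integrable (fun ω => lenG a b I (X t ω)) P := by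
  refine Integrable.of_bound (C := b - a) ((lenG_measurable a b I).comp (h.mX t)).aestronglyMeasurable
    (Eventually.of_forall fun ω => ?_)
  have := len_bd hab (gapS I (X t ω))
  unfold lenG
  rw [Real.norm_eq_abs, abs_of_nonneg this.1]
  exact this.2

theorem int_lenT (h : HWSolution P β ν x X) {a b : ℝ} (hab : a ≤ b) (I : Finset (Fin n))
    (t : ℝ≥0) : Integrable (fun ω => lenT a b I (X t ω)) P := by
  refine Integrable.of_bound (C := b - a) ((lenT_measurable a b I).comp (h.mX t)).aestronglyMeasurable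
    (Eventually.of_forall fun ω => ?_)
  have := len_bd hab (tgtS I (X t ω))
  unfold lenT
  rw [Real.norm_eq_abs, abs_of_nonneg this.1]
  exact this.2

theorem exp_exM (h : HWSolution P β ν x X) (hν : FiniteSpeed ν) (I : Finset (Fin n))
    (r T : ℝ≥0) {B : Set Ω} (hB : MeasurableSet[h.F r] B) :
    Integrable (fun ω => exM I (X r ω) (X (r + T) ω)) P ∧
    ∫ ω in B, exM I (X r ω) (X (r + T) ω) ∂P ≤
      (spd ν * T + |β| * T + (T + 1) / 2) * P.real B := by
  by_cases hI : I.Nonempty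
  · simp only [exM, hI, dite_true]
    have i1 : Integrable (fun ω => I.sup' hI (X (r + T) ω) - I.sup' hI (X r ω)) P :=
      (h.intM hν I hI (r + T)).sub (h.intM hν I hI r)
    exact ⟨i1.pos_part, h.addM hν I hI r T hB⟩
  · simp only [exM, hI, dite_false]
    refine ⟨integrable_zero _ _ _, ?_⟩
    have h1 := spd_nonneg ν
    have h2 := NNReal.coe_nonneg T
    have h3 := abs_nonneg β
    rw [integral_zero]
    positivity

theorem exp_exL (h : HWSolution P β ν x X) (hν : FiniteSpeed ν) (J : Finset (Fin n))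
    (r T : ℝ≥0) {B : Set Ω} (hB : MeasurableSet[h.F r] B) :
    Integrable (fun ω => exL J (X r ω) (X (r + T) ω)) P ∧
    ∫ ω in B, exL J (X r ω) (X (r + T) ω) ∂P ≤
      (spd ν * T + |β| * T + (T + 1) / 2) * P.real B := by
  by_cases hJ : J.Nonempty
  · simp only [exL, hJ, dite_true]
    have i1 : Integrable (fun ω => J.inf' hJ (X r ω) - J.inf' hJ (X (r + T) ω)) P :=
      (h.intL hν J hJ r).sub (h.intL hν J hJ (r + T))
    exact ⟨i1.pos_part, h.addL hν J hJ r T hB⟩
  · simp only [exL, hJ, dite_false]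
    refine ⟨integrable_zero _ _ _, ?_⟩
    have h1 := spd_nonneg ν
    have h2 := NNReal.coe_nonneg T
    have h3 := abs_nonneg β
    rw [integral_zero]
    positivity

/-- Additive comparison. -/
theorem exp_add (h : HWSolution P β ν x X) (hν : FiniteSpeed ν) (p : Par β ν)
    {a b a1 b1 : ℝ} (ha : a ≤ a1) (hb : b1 ≤ b) (hab : a1 ≤ b1)
    (I : Finset (Fin n)) (r : ℝ≥0) {B : Set Ω} (hB : MeasurableSet[h.F r] B) :
    ∫ ω in B, lenG a1 b1 I (X r ω) ∂P ≤
      ∫ ω in B, lenT a b I (X (r + p.T) ω) ∂P + p.C4 * P.real B := by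
  have hBm : MeasurableSet B := h.F.le r _ hB
  obtain ⟨i1, v1⟩ := h.exp_exM hν I r p.T hB
  obtain ⟨i2, v2⟩ := h.exp_exL hν Iᶜ r p.T hB
  have iT := h.int_lenT (ha.trans (hab.trans hb)) I (r + p.T)
  have i3 : Integrable (fun ω => exL Iᶜ (X r ω) (X (r + p.T) ω) + 1) P :=
    i2.add (integrable_const _)
  have i4 : Integrable (fun ω => exM I (X r ω) (X (r + p.T) ω) +
      (exL Iᶜ (X r ω) (X (r + p.T) ω) + 1)) P := i1.add i3
  have u : ∫ ω in B, lenG a1 b1 I (X r ω) ∂P ≤ ∫ ω in B, (lenT a b I (X (r + p.T) ω) +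
      (exM I (X r ω) (X (r + p.T) ω) + (exL Iᶜ (X r ω) (X (r + p.T) ω) + 1))) ∂P :=
    setIntegral_mono (h.int_lenG hab I r).integrableOn (iT.add i4).integrableOn
      fun ω => add_pt ha hb I _ _
  rw [integral_add iT.integrableOn i4.integrableOn, integral_add i1.integrableOn i3.integrableOn,
    integral_add i2.integrableOn (integrable_const _).integrableOn, setIntegral_const,
    smul_eq_mul] at u
  rw [p.hC4]
  linarith

/-- Gaps inside the inner window. -/
theorem inner (h : HWSolution P β ν x X) (hν : FiniteSpeed ν) (p : Par β ν)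
    {a b : ℝ} (hab : a + p.C ≤ b - p.C)
    {I : Finset (Fin n)} (hI : I.Nonempty) (hJ : Iᶜ.Nonempty) (r : ℝ≥0) :
    p.κ / 2 * ∫ ω in {ω | a + p.C ≤ I.sup' hI (X r ω) ∧ Iᶜ.inf' hJ (X r ω) ≤ b - p.C ∧
        I.sup' hI (X r ω) < Iᶜ.inf' hJ (X r ω)}, lenG (a + p.C) (b - p.C) I (X r ω) ∂P ≤
      ∫ ω in {ω | a + p.C ≤ I.sup' hI (X r ω) ∧ Iᶜ.inf' hJ (X r ω) ≤ b - p.C ∧
        I.sup' hI (X r ω) < Iᶜ.inf' hJ (X r ω)}, lenT a b I (X (r + p.T) ω) ∂P := by
  have hC := p.hC
  have hκp := p.κ_pos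
  have hκ1 := p.κ_le1
  set B : Set Ω := {ω | a + p.C ≤ I.sup' hI (X r ω) ∧ Iᶜ.inf' hJ (X r ω) ≤ b - p.C ∧
        I.sup' hI (X r ω) < Iᶜ.inf' hJ (X r ω)} with hBdef
  have mM := h.adM I hI r
  have mL := h.adL Iᶜ hJ r
  have hB : MeasurableSet[h.F r] B :=
    (mM measurableSet_Ici).inter ((mL measurableSet_Iic).inter (measurableSet_lt mM mL))
  have hBm : MeasurableSet B := h.F.le r _ hB
  have mg : Measurable[h.F r] (fun ω => Iᶜ.inf' hJ (X r ω) - I.sup' hI (X r ω)) := mL.sub mM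
  have eqG : ∀ ω ∈ B, lenG (a + p.C) (b - p.C) I (X r ω) =
      Iᶜ.inf' hJ (X r ω) - I.sup' hI (X r ω) := by
    intro ω hω
    unfold lenG
    rw [gapS_eq hI hJ]
    have h1 : Set.Icc (a + p.C) (b - p.C) ∩ Set.Ioo (I.sup' hI (X r ω)) (Iᶜ.inf' hJ (X r ω)) =
        Set.Ioo (I.sup' hI (X r ω)) (Iᶜ.inf' hJ (X r ω)) := by
      rw [Set.inter_eq_right]
      intro z hz
      exact ⟨hω.1.trans hz.1.le, hz.2.le.trans hω.2.1⟩
    rw [h1, Real.volume_real_Ioo_of_le hω.2.2.le]
  have iG := h.int_lenG hab I r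
  have iT := h.int_lenT (a := a) (b := b) (by linarith) I (r + p.T)
  have nnT : ∀ ω, 0 ≤ lenT a b I (X (r + p.T) ω) := fun ω => measureReal_nonneg
  -- on the good event the free length is at least one
  have one_le : ∀ B' : Set Ω, MeasurableSet B' → B' ⊆ B →
      P.real (good X hI hJ p.C r (r + p.T) ∩ B') ≤ ∫ ω in B', lenT a b I (X (r + p.T) ω) ∂P := by
    intro B' hB' hsub
    have hgm : MeasurableSet (good X hI hJ p.C r (r + p.T)) := by
      have m1 := (h.adM I hI (r + p.T)).mono (h.F.le _) le_rfl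
      have m2 := (h.adL Iᶜ hJ (r + p.T)).mono (h.F.le _) le_rfl
      have m3 := mM.mono (h.F.le _) le_rfl
      have m4 := mL.mono (h.F.le _) le_rfl
      exact (measurableSet_lt measurable_const (m2.sub m1)).inter
        ((measurableSet_le (m3.sub_const _) m1).inter (measurableSet_le m2 (m4.add_const _)))
    rw [← int_ind hgm]
    refine setIntegral_mono_on (int_ind' hgm) iT.integrableOn hB' fun ω hω => ?_
    by_cases hg : ω ∈ good X hI hJ p.C r (r + p.T)
    · rw [Set.indicator_of_mem hg]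
      have hω' := hsub hω
      have g1 := hg.1
      have g2 := hg.2.1
      have g3 := hg.2.2
      have w1 := hω'.1
      have w2 := hω'.2.1
      unfold lenT
      rw [tgtS_eq hI hJ]
      have h1 : Set.Icc a b ∩ Set.Ioo (I.sup' hI (X (r + p.T) ω))
          (Iᶜ.inf' hJ (X (r + p.T) ω) - 1) = Set.Ioo (I.sup' hI (X (r + p.T) ω))
          (Iᶜ.inf' hJ (X (r + p.T) ω) - 1) := by
        rw [Set.inter_eq_right]
        intro z hz
        exact ⟨by linarith [hz.1], by linarith [hz.2]⟩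
      rw [h1, Real.volume_real_Ioo_of_le (by linarith)]
      linarith
    · rw [Set.indicator_of_notMem hg]
      exact nnT ω
  set S1 : Set Ω := {ω | Iᶜ.inf' hJ (X r ω) - I.sup' hI (X r ω) ≤ p.lam} with hS1
  set S2 : Set Ω := {ω | Iᶜ.inf' hJ (X r ω) - I.sup' hI (X r ω) ≤ 2 * p.C4} with hS2
  have mS1 : MeasurableSet[h.F r] S1 := mg measurableSet_Iic
  have mS2 : MeasurableSet[h.F r] S2 := mg measurableSet_Iic
  -- part 1
  have q1 : p.κ / 2 * ∫ ω in B ∩ S1, lenG (a + p.C) (b - p.C) I (X r ω) ∂P ≤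
      ∫ ω in B ∩ S1, lenT a b I (X (r + p.T) ω) ∂P := by
    have e1 : ∫ ω in B ∩ S1, lenG (a + p.C) (b - p.C) I (X r ω) ∂P =
        ∫ ω in B ∩ S1, (Iᶜ.inf' hJ (X r ω) - I.sup' hI (X r ω)) ∂P :=
      setIntegral_congr_fun (h.F.le r _ (hB.inter mS1)) fun ω hω => eqG ω hω.1
    rw [e1]
    refine (h.small1 hν hI hJ p.hlam p.hbl p.hs p.hk p.hT r p.κ_le2 p.hK hC p.hCK
      (hB.inter mS1) (fun ω hω => ⟨by linarith [hω.1.2.2], hω.2⟩)).trans ?_
    exact one_le _ (h.F.le r _ (hB.inter mS1)) Set.inter_subset_left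
  have q2 : p.κ / 2 * ∫ ω in (B \ S1) ∩ S2, lenG (a + p.C) (b - p.C) I (X r ω) ∂P ≤
      ∫ ω in (B \ S1) ∩ S2, lenT a b I (X (r + p.T) ω) ∂P := by
    have mm : MeasurableSet[h.F r] ((B \ S1) ∩ S2) := (hB.diff mS1).inter mS2
    have e1 : ∫ ω in (B \ S1) ∩ S2, lenG (a + p.C) (b - p.C) I (X r ω) ∂P =
        ∫ ω in (B \ S1) ∩ S2, (Iᶜ.inf' hJ (X r ω) - I.sup' hI (X r ω)) ∂P :=
      setIntegral_congr_fun (h.F.le r _ mm) fun ω hω => eqG ω hω.1.1
    rw [e1]
    have hH : 0 < 2 * p.C4 := by have := p.C4_ge; linarith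
    refine (h.small2 hν hI hJ p.hlam hH p.hbl p.hs p.hk p.hT r p.κ_le3 p.hK hC p.hCK
      mm (fun ω hω => ⟨not_le.mp hω.1.2, hω.2⟩)).trans ?_
    exact one_le _ (h.F.le r _ mm) fun ω hω => hω.1.1
  have q3 : p.κ / 2 * ∫ ω in (B \ S1) \ S2, lenG (a + p.C) (b - p.C) I (X r ω) ∂P ≤
      ∫ ω in (B \ S1) \ S2, lenT a b I (X (r + p.T) ω) ∂P := by
    have mm : MeasurableSet[h.F r] ((B \ S1) \ S2) := (hB.diff mS1).diff mS2
    have mm' := h.F.le r _ mm
    have u := h.exp_add hν p (a := a) (b := b) (by linarith) (by linarith) hab I r mm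
    have u2 : 2 * p.C4 * P.real ((B \ S1) \ S2) ≤
        ∫ ω in (B \ S1) \ S2, lenG (a + p.C) (b - p.C) I (X r ω) ∂P := by
      have : ∫ ω in (B \ S1) \ S2, 2 * p.C4 ∂P ≤
          ∫ ω in (B \ S1) \ S2, lenG (a + p.C) (b - p.C) I (X r ω) ∂P := by
        refine setIntegral_mono_on (integrable_const _).integrableOn iG.integrableOn mm'
          fun ω hω => ?_
        rw [eqG ω hω.1.1]
        exact (not_le.mp hω.2).le
      rw [setIntegral_const, smul_eq_mul] at this
      linarith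
    have u3 : 0 ≤ ∫ ω in (B \ S1) \ S2, lenG (a + p.C) (b - p.C) I (X r ω) ∂P :=
      setIntegral_nonneg mm' fun ω _ => measureReal_nonneg
    have u4 : p.κ / 2 * ∫ ω in (B \ S1) \ S2, lenG (a + p.C) (b - p.C) I (X r ω) ∂P ≤
        1 / 2 * ∫ ω in (B \ S1) \ S2, lenG (a + p.C) (b - p.C) I (X r ω) ∂P :=
      mul_le_mul_of_nonneg_right (by linarith) u3
    linarith
  have sp : ∀ f : Ω → ℝ, Integrable f P → ∫ ω in B, f ω ∂P = ∫ ω in B ∩ S1, f ω ∂P +
      (∫ ω in (B \ S1) ∩ S2, f ω ∂P + ∫ ω in (B \ S1) \ S2, f ω ∂P) := by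
    intro f hf
    rw [integral_inter_add_sdiff (h.F.le r _ mS2) hf.integrableOn,
      integral_inter_add_sdiff (h.F.le r _ mS1) hf.integrableOn]
  rw [sp _ iG, sp _ iT]
  linarith

/-- The event that a given point lies in the gap of `I` at time `r`. -/
def at_gap (X : ℝ≥0 → Ω → Fin n → ℝ) (r : ℝ≥0) (z : ℝ) (I : Finset (Fin n)) : Set Ω :=
  {ω | z ∈ gapS I (X r ω)}

theorem at_gap_meas (h : HWSolution P β ν x X) (r : ℝ≥0) (z : ℝ) (I : Finset (Fin n)) :
    MeasurableSet[h.F r] (at_gap X r z I) := by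
  have h1 : at_gap X r z I = (⋂ i, ⋂ (_ : i ∈ I), {ω | X r ω i < z}) ∩
      ⋂ i, ⋂ (_ : i ∉ I), {ω | z < X r ω i} := by
    ext ω; simp [at_gap, gapS]
  rw [h1]
  refine (MeasurableSet.iInter fun i => MeasurableSet.iInter fun _ => ?_).inter
    (MeasurableSet.iInter fun i => MeasurableSet.iInter fun _ => ?_)
  · exact (h.adXi r i) measurableSet_Iio
  · exact (h.adXi r i) measurableSet_Ioi

theorem at_gap_sum (h : HWSolution P β ν x X) (r : ℝ≥0) (z : ℝ) :
    ∑ I : Finset (Fin n), P.real (at_gap X r z I) ≤ 1 := by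
  classical
  have hd : Set.PairwiseDisjoint (↑(Finset.univ : Finset (Finset (Fin n))))
      (fun I => at_gap X r z I) := by
    intro I _ J _ hIJ
    rw [Function.onFun, Set.disjoint_left]
    intro ω h1 h2
    apply hIJ
    ext i
    constructor
    · intro hi
      by_contra hj
      exact absurd (h1.1 i hi) (not_lt.mpr (h2.2 i hj).le)
    · intro hj
      by_contra hi
      exact absurd (h2.1 i hj) (not_lt.mpr (h1.2 i hi).le)
  have h1 := measureReal_biUnion_finset (μ := P)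
    (s := (Finset.univ : Finset (Finset (Fin n)))) (f := fun I => at_gap X r z I) hd
    (fun I _ => h.F.le r _ (h.at_gap_meas r z I))
  rw [← h1]
  exact measureReal_le_one

theorem cut_sum (h : HWSolution P β ν x X) (hν : FiniteSpeed ν) (p : Par β ν)
    {a b : ℝ} (hab : a + p.C ≤ b - p.C) (I : Finset (Fin n)) (r : ℝ≥0) :
    p.κ / 2 * ∫ ω, lenG (a + p.C) (b - p.C) I (X r ω) ∂P ≤
      ∫ ω, lenT a b I (X (r + p.T) ω) ∂P +
        p.C4 * (P.real (at_gap X r (a + p.C) I) + P.real (at_gap X r (b - p.C) I)) := by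
  have hC := p.hC
  have hκp := p.κ_pos
  have hκ1 := p.κ_le1
  have hC4 := p.C4_ge
  have iG := h.int_lenG hab I r
  have iT := h.int_lenT (a := a) (b := b) (by linarith) I (r + p.T)
  have nnT : ∀ ω, 0 ≤ lenT a b I (X (r + p.T) ω) := fun ω => measureReal_nonneg
  have nnG : ∀ ω, 0 ≤ lenG (a + p.C) (b - p.C) I (X r ω) := fun ω => measureReal_nonneg
  set St : Set Ω := at_gap X r (a + p.C) I ∪ at_gap X r (b - p.C) I with hSt
  have mSt : MeasurableSet[h.F r] St := (h.at_gap_meas r _ I).union (h.at_gap_meas r _ I)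
  have mSt' := h.F.le r _ mSt
  have u1 := h.exp_add hν p (a := a) (b := b) (by linarith) (by linarith) hab I r mSt
  have u2 : p.κ / 2 * ∫ ω in St, lenG (a + p.C) (b - p.C) I (X r ω) ∂P ≤
      ∫ ω in St, lenT a b I (X (r + p.T) ω) ∂P + p.C4 * P.real St := by
    have u3 : 0 ≤ ∫ ω in St, lenG (a + p.C) (b - p.C) I (X r ω) ∂P :=
      setIntegral_nonneg mSt' fun ω _ => nnG ω
    have u4 : p.κ / 2 * ∫ ω in St, lenG (a + p.C) (b - p.C) I (X r ω) ∂P ≤
        1 * ∫ ω in St, lenG (a + p.C) (b - p.C) I (X r ω) ∂P :=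
      mul_le_mul_of_nonneg_right (by linarith) u3
    linarith
  have u3 : P.real St ≤ P.real (at_gap X r (a + p.C) I) + P.real (at_gap X r (b - p.C) I) :=
    measureReal_union_le _ _
  have u4 : p.C4 * P.real St ≤
      p.C4 * (P.real (at_gap X r (a + p.C) I) + P.real (at_gap X r (b - p.C) I)) :=
    mul_le_mul_of_nonneg_left u3 (by linarith)
  have spG := integral_add_compl mSt' iG
  have spT := integral_add_compl mSt' iT
  -- the complement
  have u5 : p.κ / 2 * ∫ ω in Stᶜ, lenG (a + p.C) (b - p.C) I (X r ω) ∂P ≤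
      ∫ ω in Stᶜ, lenT a b I (X (r + p.T) ω) ∂P := by
    by_cases hIJ : I.Nonempty ∧ Iᶜ.Nonempty
    · obtain ⟨hI, hJ⟩ := hIJ
      have u6 := h.inner hν p hab hI hJ r
      set B : Set Ω := {ω | a + p.C ≤ I.sup' hI (X r ω) ∧ Iᶜ.inf' hJ (X r ω) ≤ b - p.C ∧
        I.sup' hI (X r ω) < Iᶜ.inf' hJ (X r ω)} with hBdef
      have mM := h.adM I hI r
      have mL := h.adL Iᶜ hJ r
      have hB : MeasurableSet[h.F r] B :=
        (mM measurableSet_Ici).inter ((mL measurableSet_Iic).inter (measurableSet_lt mM mL))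
      have hBm : MeasurableSet B := h.F.le r _ hB
      have hsub : B ⊆ Stᶜ := by
        intro ω hω hs
        rcases hs with h1 | h1
        · have h2 : a + p.C ∈ gapS I (X r ω) := h1
          rw [gapS_eq hI hJ] at h2
          linarith [hω.1, h2.1]
        · have h2 : b - p.C ∈ gapS I (X r ω) := h1
          rw [gapS_eq hI hJ] at h2
          linarith [hω.2.1, h2.2]
      have z1 : ∫ ω in Stᶜ, lenG (a + p.C) (b - p.C) I (X r ω) ∂P =
          ∫ ω in B, lenG (a + p.C) (b - p.C) I (X r ω) ∂P := by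
        refine setIntegral_eq_of_subset_of_forall_sdiff_eq_zero mSt'.compl hsub ?_
        intro ω hω
        unfold lenG
        have h1 : Set.Icc (a + p.C) (b - p.C) ∩ gapS I (X r ω) = ∅ := by
          rw [Set.eq_empty_iff_forall_notMem]
          rintro z ⟨hz, hg⟩
          rw [gapS_eq hI hJ] at hg
          apply hω.2
          refine ⟨?_, ?_, hg.1.trans hg.2⟩
          · by_contra hcon
            apply hω.1
            left
            change a + p.C ∈ gapS I (X r ω)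
            rw [gapS_eq hI hJ]
            exact ⟨not_le.mp hcon, hz.1.trans_lt hg.2⟩
          · by_contra hcon
            apply hω.1
            right
            change b - p.C ∈ gapS I (X r ω)
            rw [gapS_eq hI hJ]
            exact ⟨hg.1.trans_le hz.2, not_le.mp hcon⟩
        rw [h1]
        simp
      rw [z1]
      refine u6.trans ?_
      exact setIntegral_mono_set iT.integrableOn (Eventually.of_forall fun ω => nnT ω)
        hsub.eventuallyLE
    · have z1 : ∫ ω in Stᶜ, lenG (a + p.C) (b - p.C) I (X r ω) ∂P = 0 := by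
        refine setIntegral_eq_zero_of_forall_eq_zero fun ω hω => ?_
        unfold lenG
        have h1 : Set.Icc (a + p.C) (b - p.C) ∩ gapS I (X r ω) = ∅ := by
          rw [Set.eq_empty_iff_forall_notMem]
          rintro z ⟨hz, hg⟩
          apply hω
          by_cases hI : I.Nonempty
          · have hJ : ¬ Iᶜ.Nonempty := fun hJ => hIJ ⟨hI, hJ⟩
            right
            refine ⟨fun i hi => (hg.1 i hi).trans_le hz.2, fun i hi => ?_⟩
            exact absurd ⟨i, Finset.mem_compl.mpr hi⟩ hJ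
          · left
            refine ⟨fun i hi => absurd ⟨i, hi⟩ hI, fun i hi => hz.1.trans_lt (hg.2 i hi)⟩
        rw [h1]
        simp
      rw [z1, mul_zero]
      exact setIntegral_nonneg mSt'.compl fun ω _ => nnT ω
  rw [← spG, ← spT]
  linarith

/-- The window estimate: on average over a long window, a unit interval is free of particles
with probability bounded away from zero. -/
theorem window (h : HWSolution P β ν x X) (hν : FiniteSpeed ν) (p : Par β ν)
    {a b : ℝ} (hab : 4 * p.C + 8 * p.C4 / p.κ ≤ b - a) (r : ℝ≥0) :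
    p.κ / 4 * (b - a) ≤ ∫ ω, ∑ I : Finset (Fin n), lenT a b I (X (r + p.T) ω) ∂P := by
  have hC := p.hC
  have hκp := p.κ_pos
  have hκ1 := p.κ_le1
  have hC4 := p.C4_ge
  have h8 : 0 ≤ 8 * p.C4 / p.κ := by positivity
  have hab' : a + p.C ≤ b - p.C := by linarith
  have h1 : ∀ I : Finset (Fin n), _ := fun I => h.cut_sum hν p hab' I r
  have h2 := Finset.sum_le_sum (s := Finset.univ) fun I _ => h1 I
  rw [← Finset.mul_sum, Finset.sum_add_distrib, ← Finset.mul_sum, Finset.sum_add_distrib] at h2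
  have h3 := h.at_gap_sum r (a + p.C)
  have h4 := h.at_gap_sum r (b - p.C)
  rw [integral_finsetSum _ fun I _ => h.int_lenT (a := a) (b := b) (by linarith) I (r + p.T)]
  have h5 : (b - p.C) - (a + p.C) ≤ ∑ I : Finset (Fin n),
      ∫ ω, lenG (a + p.C) (b - p.C) I (X r ω) ∂P := by
    rw [← integral_finsetSum _ fun I _ => h.int_lenG hab' I r]
    have : ∫ ω, ((b - p.C) - (a + p.C)) ∂P ≤
        ∫ ω, ∑ I : Finset (Fin n), lenG (a + p.C) (b - p.C) I (X r ω) ∂P :=
      integral_mono (integrable_const _)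
        (integrable_finsetSum _ fun I _ => h.int_lenG hab' I r) fun ω => sumG hab' _
    simpa using this
  have h6 : p.κ / 2 * ((b - p.C) - (a + p.C)) ≤ p.κ / 2 * ∑ I : Finset (Fin n),
      ∫ ω, lenG (a + p.C) (b - p.C) I (X r ω) ∂P :=
    mul_le_mul_of_nonneg_left h5 (by linarith)
  have h7 : p.C4 * (∑ I : Finset (Fin n), P.real (at_gap X r (a + p.C) I) +
      ∑ I : Finset (Fin n), P.real (at_gap X r (b - p.C) I)) ≤ p.C4 * 2 :=
    mul_le_mul_of_nonneg_left (by linarith) (by linarith)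
  have h9 : p.κ / 4 * (4 * p.C + 8 * p.C4 / p.κ) ≤ p.κ / 4 * (b - a) :=
    mul_le_mul_of_nonneg_left hab (by linarith)
  have h10 : p.κ / 4 * (4 * p.C + 8 * p.C4 / p.κ) = p.κ * p.C + 2 * p.C4 := by
    field_simp; ring
  linarith

end HWSolution

end Pool.Agent.Y982.HW
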