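import Mathlib
import Pool.Agent.Y982.HW.Win2

open MeasureTheory ProbabilityTheory Filter Topology
open scoped NNReal ENNReal

namespace Pool.Agent.Y982.HW

namespace HWSolution

set_option linter.unusedSectionVars false

variable {Ω : Type*} [MeasurableSpace Ω] {P : Measure Ω} [IsProbabilityMeasure P] {β : ℝ}
  {ν : Measure unitInterval} [IsFiniteMeasure ν] {n : ℕ} {x : Fin n → ℝ}
  {X : ℝ≥0 → Ω → Fin n → ℝ}

theorem free_meas (h : HWSolution P β ν x X) (a b : ℝ) (t : ℝ≥0) :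
    MeasurableSet {p : Ω × ℝ | p.2 ∈ freeS a b (X t p.1)} := by
  have h1 : {p : Ω × ℝ | p.2 ∈ freeS a b (X t p.1)} =
      {p | p.2 ∈ Set.Icc a b} ∩ ⋂ i, ({p | p.2 ≤ X t p.1 i} ∩ {p | X t p.1 i ≤ p.2 + 1})ᶜ := by
    ext p
    simp [freeS, Set.mem_Icc]
  rw [h1]
  refine (measurable_snd measurableSet_Icc).inter (MeasurableSet.iInter fun i => ?_)
  have h2 : Measurable fun p : Ω × ℝ => X t p.1 i :=
    ((measurable_pi_apply i).comp (h.mX t)).comp measurable_fst
  exact ((measurableSet_le measurable_snd h2).inter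
    (measurableSet_le h2 (measurable_snd.add_const _))).compl

/-- The window estimate in terms of probabilities. -/
theorem window_prob (h : HWSolution P β ν x X) (hν : FiniteSpeed ν) (p : Par β ν)
    {a b : ℝ} (hab : 4 * p.C + 8 * p.C4 / p.κ ≤ b - a) (r : ℝ≥0) :
    ENNReal.ofReal (p.κ / 4 * (b - a)) ≤
      ∫⁻ z in Set.Icc a b, P {ω | ∀ i, X (r + p.T) ω i ∈ (Set.Icc z (z + 1))ᶜ} := by
  have hC := p.hC
  have hκp := p.κ_pos
  have hC4 := p.C4_ge
  have h8 : 0 ≤ 8 * p.C4 / p.κ := by positivity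
  have hab' : a ≤ b := by linarith
  have h1 := h.window hν p hab r
  have hS := h.free_meas a b (r + p.T)
  have hm := measurable_measure_prodMk_left (ν := (volume : Measure ℝ)) hS
  have hfin : ∀ ω, volume (freeS a b (X (r + p.T) ω)) ≠ ∞ := fun ω =>
    ne_top_of_Icc (a := a) (b := b) fun z hz => hz.1
  have h2 : ∫ ω, ∑ I : Finset (Fin n), lenT a b I (X (r + p.T) ω) ∂P ≤
      ∫ ω, volume.real (freeS a b (X (r + p.T) ω)) ∂P := by
    refine integral_mono (integrable_finsetSum _ fun I _ => h.int_lenT hab' I (r + p.T)) ?_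
      fun ω => sumT _
    refine Integrable.of_bound (C := b - a) ?_ (Eventually.of_forall fun ω => ?_)
    · exact hm.ennreal_toReal.aestronglyMeasurable
    · rw [Real.norm_eq_abs, abs_of_nonneg measureReal_nonneg]
      have := measureReal_mono (μ := (volume : Measure ℝ))
        (fun z hz => hz.1 : freeS a b (X (r + p.T) ω) ⊆ Set.Icc a b)
        (by rw [Real.volume_Icc]; exact ENNReal.ofReal_ne_top)
      rwa [Real.volume_real_Icc_of_le hab'] at this
  have h3 : ENNReal.ofReal (p.κ / 4 * (b - a)) ≤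
      ∫⁻ ω, volume (freeS a b (X (r + p.T) ω)) ∂P := by
    have h4 : ∫ ω, volume.real (freeS a b (X (r + p.T) ω)) ∂P =
        (∫⁻ ω, volume (freeS a b (X (r + p.T) ω)) ∂P).toReal :=
      integral_toReal hm.aemeasurable (Eventually.of_forall fun ω => (hfin ω).lt_top)
    rw [h4] at h2
    exact ENNReal.ofReal_le_of_le_toReal (h1.trans h2)
  refine h3.trans (le_of_eq ?_)
  have h5 := Measure.prod_apply (μ := P) (ν := (volume : Measure ℝ)) hS
  have h6 := Measure.prod_apply_symm (μ := P) (ν := (volume : Measure ℝ)) hS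
  have h7 : ∫⁻ ω, volume (freeS a b (X (r + p.T) ω)) ∂P =
      ∫⁻ ω, volume (Prod.mk ω ⁻¹' {p_1 : Ω × ℝ | p_1.2 ∈ freeS a b (X (r + p.T) p_1.1)}) ∂P := rfl
  rw [h7, ← h5, h6, ← lintegral_indicator measurableSet_Icc]
  refine lintegral_congr fun z => ?_
  by_cases hz : z ∈ Set.Icc a b
  · rw [Set.indicator_of_mem hz]
    congr 1
    ext ω
    simp only [Set.mem_preimage, Set.mem_ofPred_eq, freeS, Set.mem_compl_iff]
    constructor
    · exact fun h9 => h9.2
    · exact fun h9 => ⟨hz, h9⟩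
  · rw [Set.indicator_of_notMem hz]
    have : (fun ω : Ω => (ω, z)) ⁻¹' {p_1 : Ω × ℝ | p_1.2 ∈ freeS a b (X (r + p.T) p_1.1)} = ∅ := by
      ext ω
      simp only [Set.mem_preimage, Set.mem_ofPred_eq, freeS, Set.mem_empty_iff_false, iff_false]
      exact fun h9 => hz h9.1
    rw [this, measure_empty]

end HWSolution

theorem pow_tendsto {f : ℝ≥0∞} (hf : f ≤ 1) :
    Tendsto (fun n : ℕ => f ^ n) atTop (𝓝 (if f = 1 then 1 else 0)) := by
  by_cases h : f = 1
  · simp [h]
  · rw [if_neg h]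
    exact ENNReal.tendsto_pow_atTop_nhds_zero_of_lt_one (lt_of_le_of_ne hf h)

section flow

variable {Ω : Type*} [MeasurableSpace Ω] {P : Measure Ω} [IsProbabilityMeasure P] {β : ℝ}
  {ν : Measure unitInterval} [IsFiniteMeasure ν] {K : ℝ → ℝ → Kernel (Ω × ℝ) ℝ}

/-- The mass that the kernel gives to the complement of a unit interval. -/
noncomputable def coMass (K : ℝ → ℝ → Kernel (Ω × ℝ) ℝ) (t : ℝ) (p : Ω × ℝ) : ℝ≥0∞ :=
  K 0 t (p.1, 0) (Set.Icc p.2 (p.2 + 1))ᶜ

theorem coMass_meas (hK : IsKernelFlow P K) (t : ℝ) : Measurable (coMass K t) := by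
  have := hK.markov 0 t
  set η : Kernel (Ω × ℝ) ℝ := (K 0 t).comap (fun p : Ω × ℝ => (p.1, (0 : ℝ)))
    (measurable_fst.prodMk measurable_const) with hη
  have hS : MeasurableSet {q : (Ω × ℝ) × ℝ | q.2 ∈ (Set.Icc q.1.2 (q.1.2 + 1))ᶜ} := by
    have h1 : {q : (Ω × ℝ) × ℝ | q.2 ∈ (Set.Icc q.1.2 (q.1.2 + 1))ᶜ} =
        ({q | q.1.2 ≤ q.2} ∩ {q | q.2 ≤ q.1.2 + 1})ᶜ := by
      ext q; simp [Set.mem_Icc]
    rw [h1]
    have m1 : Measurable fun q : (Ω × ℝ) × ℝ => q.1.2 := measurable_snd.comp measurable_fst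
    exact ((measurableSet_le m1 measurable_snd).inter
      (measurableSet_le measurable_snd (m1.add_const _))).compl
  have h2 := Kernel.measurable_kernel_prodMk_left (κ := η) hS
  exact h2

theorem coMass_le (hK : IsKernelFlow P K) (t : ℝ) (p : Ω × ℝ) : coMass K t p ≤ 1 := by
  have := hK.markov 0 t
  exact prob_le_one

theorem coMass_one (hK : IsKernelFlow P K) (t z : ℝ) (ω : Ω) :
    coMass K t (ω, z) = 1 ↔ K 0 t (ω, 0) (Set.Icc z (z + 1)) = 0 := by
  have := hK.markov 0 t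
  exact prob_compl_eq_one_iff measurableSet_Icc

/-- The window estimate for the flow. -/
theorem flow_window (hK : IsHowittWarren β ν P K) (hν : FiniteSpeed ν) (p : Par β ν)
    {a b : ℝ} (hab : 4 * p.C + 8 * p.C4 / p.κ ≤ b - a) {t : ℝ} (ht : p.T ≤ t) :
    ENNReal.ofReal (p.κ / 4 * (b - a)) ≤
      ∫⁻ z in Set.Icc a b, P {ω | K 0 t (ω, 0) (Set.Icc z (z + 1)) = 0} := by
  have hm := coMass_meas hK.toIsKernelFlow t
  have ht0 : 0 ≤ t := (NNReal.coe_nonneg _).trans ht
  set t' : ℝ≥0 := ⟨t, ht0⟩ with ht'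
  have hT : p.T ≤ t' := ht
  obtain ⟨r, hr⟩ : ∃ r, t' = r + p.T := ⟨t' - p.T, (tsub_add_cancel_of_le hT).symm⟩
  have h1 : ∀ n : ℕ, ENNReal.ofReal (p.κ / 4 * (b - a)) ≤
      ∫⁻ z in Set.Icc a b, ∫⁻ ω, coMass K t (ω, z) ^ n ∂P := by
    intro n
    obtain ⟨Ω', mΩ', P', X, hP', hX, hmom⟩ := hK.npoint n (fun _ => 0)
    have h2 := hX.window_prob hν p hab r
    refine h2.trans (le_of_eq ?_)
    refine lintegral_congr fun z => ?_
    rw [← hr]
    have h3 := hmom t' (fun _ => (Set.Icc z (z + 1))ᶜ) (fun _ => measurableSet_Icc.compl)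
    rw [h3]
    refine lintegral_congr fun ω => ?_
    rw [Finset.prod_const, Finset.card_univ, Fintype.card_fin]
    rfl
  have h2 : ∀ z, Tendsto (fun n : ℕ => ∫⁻ ω, coMass K t (ω, z) ^ n ∂P) atTop
      (𝓝 (P {ω | K 0 t (ω, 0) (Set.Icc z (z + 1)) = 0})) := by
    intro z
    have hmz : Measurable fun ω => coMass K t (ω, z) := hm.comp (measurable_id.prodMk measurable_const)
    have h3 : P {ω | K 0 t (ω, 0) (Set.Icc z (z + 1)) = 0} =
        ∫⁻ ω, (if coMass K t (ω, z) = 1 then 1 else 0) ∂P := by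
      have h4 : {ω | K 0 t (ω, 0) (Set.Icc z (z + 1)) = 0} = {ω | coMass K t (ω, z) = 1} := by
        ext ω
        exact (coMass_one hK.toIsKernelFlow t z ω).symm
      have h5 : MeasurableSet {ω | coMass K t (ω, z) = 1} := hmz (measurableSet_singleton 1)
      rw [h4, ← lintegral_indicator_one h5]
      refine lintegral_congr fun ω => ?_
      by_cases h6 : coMass K t (ω, z) = 1
      · rw [if_pos h6, Set.indicator_of_mem (by exact h6)]; rfl
      · rw [if_neg h6, Set.indicator_of_notMem (by exact h6)]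
    rw [h3]
    refine tendsto_lintegral_of_dominated_convergence (fun _ => 1)
      (fun n => hmz.pow_const n) (fun n => Eventually.of_forall fun ω => ?_) (by simp)
      (Eventually.of_forall fun ω => pow_tendsto (coMass_le hK.toIsKernelFlow t (ω, z)))
    exact pow_le_one₀ (zero_le) (coMass_le hK.toIsKernelFlow t (ω, z))
  have h3 : Tendsto (fun n : ℕ => ∫⁻ z in Set.Icc a b, ∫⁻ ω, coMass K t (ω, z) ^ n ∂P) atTop
      (𝓝 (∫⁻ z in Set.Icc a b, P {ω | K 0 t (ω, 0) (Set.Icc z (z + 1)) = 0})) := by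
    refine tendsto_lintegral_of_dominated_convergence (fun _ => 1) (fun n => ?_)
      (fun n => Eventually.of_forall fun z => ?_) ?_ (Eventually.of_forall fun z => h2 z)
    · exact (hm.pow_const n).lintegral_prod_left'
    · refine (lintegral_mono fun ω => pow_le_one₀ (zero_le)
        (coMass_le hK.toIsKernelFlow t (ω, z))).trans ?_
      simp
    · simp
  exact ge_of_tendsto h3 (Eventually.of_forall h1)

end flow

end Pool.Agent.Y982.HW
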