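import Mathlib
import Pool.Agent.Y982.HW.Flow

open MeasureTheory ProbabilityTheory Filter Topology
open scoped NNReal ENNReal

namespace Pool.Agent.Y982.HW

section law

variable {Ω : Type*} [MeasurableSpace Ω] {P : Measure Ω} [IsProbabilityMeasure P]
  {K : ℝ → ℝ → Kernel (Ω × ℝ) ℝ}

theorem zero_meas (hK : IsKernelFlow P K) (t z : ℝ) :
    MeasurableSet {ω | K 0 t (ω, 0) (Set.Icc z (z + 1)) = 0} := by
  have h4 : {ω | K 0 t (ω, 0) (Set.Icc z (z + 1)) = 0} = {ω | coMass K t (ω, z) = 1} := by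
    ext ω
    exact (coMass_one (P := P) hK t z ω).symm
  rw [h4]
  have hmz : Measurable fun ω => coMass K t (ω, z) :=
    (coMass_meas (P := P) hK t).comp (measurable_id.prodMk measurable_const)
  exact hmz (measurableSet_singleton 1)

theorem normalised_pos {x : ℝ} {a b : ℝ → ℝ} {t : ℝ} {ω : Ω} (hb : 0 < b t)
    (h : K 0 t (ω, 0) (Set.Icc (t * x) (t * x + 1)) = 0) : normalised K x a b t ω = ⊤ := by
  unfold normalised
  rw [h, ENNReal.log_zero, EReal.neg_bot, EReal.top_sub_coe]
  exact EReal.top_div_of_pos_ne_top (by exact_mod_cast hb) (EReal.coe_ne_top _)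

theorem normalised_neg {x : ℝ} {a b : ℝ → ℝ} {t : ℝ} {ω : Ω} (hb : b t < 0)
    (h : K 0 t (ω, 0) (Set.Icc (t * x) (t * x + 1)) = 0) : normalised K x a b t ω = ⊥ := by
  unfold normalised
  rw [h, ENNReal.log_zero, EReal.neg_bot, EReal.top_sub_coe]
  exact EReal.top_div_of_neg_ne_bot (by exact_mod_cast hb) (EReal.coe_ne_bot _)

theorem atoms_countable (χ : Measure ℝ) [IsProbabilityMeasure χ] :
    {u : ℝ | 0 < χ {u}}.Countable := by
  refine Measure.countable_meas_pos_of_disjoint_iUnion (μ := χ) (As := fun u : ℝ => {u})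
    (fun u => measurableSet_singleton u) ?_
  intro u v huv
  simpa [Function.onFun] using huv

theorem exists_cont {χ : Measure ℝ} [IsProbabilityMeasure χ] {u v : ℝ} (huv : u < v) :
    ∃ w, u < w ∧ w < v ∧ χ {w} = 0 := by
  have h1 : Dense ({u : ℝ | 0 < χ {u}}ᶜ) := (atoms_countable χ).dense_compl ℝ
  obtain ⟨w, hw, hw2⟩ := h1.exists_between huv
  refine ⟨w, hw2.1, hw2.2, ?_⟩
  have : ¬ (0 < χ {w}) := hw
  exact le_antisymm (not_lt.mp this) zero_le

/-- If the kernel gives no mass to the interval with probability bounded away from zero, for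
large times, then no normalisation gives convergence in law to a law on the real line. -/
theorem not_conv (hK : IsKernelFlow P K) {x : ℝ} {a b : ℝ → ℝ} (hb : ∀ᶠ t in atTop, b t ≠ 0)
    {δ : ℝ≥0∞} (hδ : 0 < δ)
    (hf : ∀ᶠ t : ℝ in atTop, δ ≤ P {ω | K 0 t (ω, 0) (Set.Icc (t * x) (t * x + 1)) = 0})
    (χ : Measure ℝ) [IsProbabilityMeasure χ] :
    ¬ ConvergesInLaw P (normalised K x a b) χ := by
  intro hconv
  have hor : (∃ᶠ t : ℝ in atTop, b t < 0 ∧
      δ ≤ P {ω | K 0 t (ω, 0) (Set.Icc (t * x) (t * x + 1)) = 0}) ∨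
      (∃ᶠ t : ℝ in atTop, 0 < b t ∧
      δ ≤ P {ω | K 0 t (ω, 0) (Set.Icc (t * x) (t * x + 1)) = 0}) := by
    rw [← frequently_or_distrib]
    refine (hb.and hf).frequently.mono fun t ht => ?_
    rcases lt_or_gt_of_ne ht.1 with h | h
    · exact Or.inl ⟨h, ht.2⟩
    · exact Or.inr ⟨h, ht.2⟩
  rcases hor with hf' | hf'
  · -- negative scaling: mass at `-∞`
    have h1 : ∀ u : ℝ, χ {u} = 0 → δ ≤ χ (Set.Iic u) := by
      intro u hu
      have h2 := hconv u hu
      by_contra h3
      push Not at h3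
      have h4 : ∀ᶠ t in atTop, P {ω | normalised K x a b t ω ≤ (u : EReal)} < δ :=
        h2.eventually (gt_mem_nhds h3)
      obtain ⟨t, ⟨ht, h5⟩, h6⟩ := (hf'.and_eventually h4).exists
      have h7 : {ω | K 0 t (ω, 0) (Set.Icc (t * x) (t * x + 1)) = 0} ⊆
          {ω | normalised K x a b t ω ≤ (u : EReal)} := by
        intro ω hω
        have := normalised_neg (K := K) (x := x) (a := a) ht hω
        simp only [Set.mem_ofPred_eq, this]
        exact bot_le
      exact absurd ((h5.trans (measure_mono h7)).trans_lt h6) (lt_irrefl _)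
    have h2 : Tendsto (fun u : ℝ => χ (Set.Iic u)) atBot (𝓝 0) := by
      have h20 := (ENNReal.continuous_ofReal.tendsto 0).comp (tendsto_cdf_atBot χ)
      rw [ENNReal.ofReal_zero] at h20
      refine h20.congr fun u => ?_
      exact ofReal_cdf χ u
    have h3 : ∀ᶠ u : ℝ in atBot, χ (Set.Iic u) < δ := h2.eventually (gt_mem_nhds hδ)
    obtain ⟨u, hu⟩ := h3.exists
    obtain ⟨w, hw1, hw2, hw3⟩ := exists_cont (χ := χ) (show u - 1 < u by linarith)
    have h4 := h1 w hw3
    have h5 : χ (Set.Iic w) ≤ χ (Set.Iic u) := measure_mono (Set.Iic_subset_Iic.mpr hw2.le)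
    exact absurd ((h4.trans h5).trans_lt hu) (lt_irrefl _)
  · -- positive scaling: mass at `+∞`
    have h1 : ∀ u : ℝ, χ {u} = 0 → χ (Set.Iic u) ≤ 1 - δ := by
      intro u hu
      have h2 := hconv u hu
      by_contra h3
      push Not at h3
      have h4 : ∀ᶠ t in atTop, 1 - δ < P {ω | normalised K x a b t ω ≤ (u : EReal)} :=
        h2.eventually (lt_mem_nhds h3)
      obtain ⟨t, ⟨ht, h5⟩, h6⟩ := (hf'.and_eventually h4).exists
      have h7 : {ω | normalised K x a b t ω ≤ (u : EReal)} ⊆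
          {ω | K 0 t (ω, 0) (Set.Icc (t * x) (t * x + 1)) = 0}ᶜ := by
        intro ω hω hω2
        have := normalised_pos (K := K) (x := x) (a := a) ht hω2
        simp only [Set.mem_ofPred_eq, this] at hω
        exact absurd hω (not_le.mpr (EReal.coe_lt_top u))
      have h8 : P {ω | normalised K x a b t ω ≤ (u : EReal)} ≤ 1 - δ := by
        refine (measure_mono h7).trans ?_
        rw [prob_compl_eq_one_sub (zero_meas (P := P) hK t (t * x))]
        exact tsub_le_tsub_left h5 1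
      exact absurd (h8.trans_lt h6) (lt_irrefl _)
    have h2 : Tendsto (fun u : ℝ => χ (Set.Iic u)) atTop (𝓝 1) := by
      have := tendsto_measure_Iic_atTop χ
      simpa using this
    have hδ1 : (1 : ℝ≥0∞) - δ < 1 := ENNReal.sub_lt_self ENNReal.one_ne_top one_ne_zero hδ.ne'
    have h3 : ∀ᶠ u : ℝ in atTop, 1 - δ < χ (Set.Iic u) := h2.eventually (lt_mem_nhds hδ1)
    obtain ⟨u, hu⟩ := h3.exists
    obtain ⟨w, hw1, hw2, hw3⟩ := exists_cont (χ := χ) (show u < u + 1 by linarith)
    have h4 := h1 w hw3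
    have h5 : χ (Set.Iic u) ≤ χ (Set.Iic w) := measure_mono (Set.Iic_subset_Iic.mpr hw1.le)
    exact absurd (hu.trans_le (h5.trans h4)) (lt_irrefl _)

end law

end Pool.Agent.Y982.HW
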