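import Mathlib
import Pool.Agent.Y982.HW.Sel

open MeasureTheory Filter Topology
open scoped NNReal ENNReal

namespace Pool.Agent.Y982.HW

variable {Ω : Type*} {m : MeasurableSpace Ω} {𝓕 : Filtration ℝ≥0 m} {P : Measure Ω}

/-- The sigma-algebra of events before a stopping time. -/
@[instance_reducible]
def Hs (𝓕 : Filtration ℝ≥0 m) (ρ : Ω → ℝ≥0) (hρ : ∀ t, MeasurableSet[𝓕 t] {ω | ρ ω ≤ t}) :
    MeasurableSpace Ω where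
  MeasurableSet' s := ∀ t, MeasurableSet[𝓕 t] (s ∩ {ω | ρ ω ≤ t})
  measurableSet_empty := fun t => by
    rw [Set.empty_inter]
    exact @MeasurableSet.empty _ (𝓕 t)
  measurableSet_compl := fun s hs t => by
    have : sᶜ ∩ {ω | ρ ω ≤ t} = {ω | ρ ω ≤ t} \ (s ∩ {ω | ρ ω ≤ t}) := by
      ext ω
      simp only [Set.mem_inter_iff, Set.mem_compl_iff, Set.mem_sdiff]
      tauto
    rw [this]
    exact (hρ t).diff (hs t)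
  measurableSet_iUnion := fun f hf t => by
    rw [Set.iUnion_inter]
    exact MeasurableSet.iUnion fun i => hf i t

theorem Hs_le {ρ : Ω → ℝ≥0} (hρ : ∀ t, MeasurableSet[𝓕 t] {ω | ρ ω ≤ t}) {T : ℝ≥0}
    (hT : ∀ ω, ρ ω ≤ T) : Hs 𝓕 ρ hρ ≤ m := by
  intro s hs
  have h1 := hs T
  have h2 : s ∩ {ω | ρ ω ≤ T} = s := by
    ext ω; simp [hT ω]
  rw [h2] at h1
  exact 𝓕.le T _ h1

theorem Hs_zero {B : Set Ω} (hB : MeasurableSet[𝓕 0] B) {ρ : Ω → ℝ≥0}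
    (hρ : ∀ t, MeasurableSet[𝓕 t] {ω | ρ ω ≤ t}) : MeasurableSet[Hs 𝓕 ρ hρ] B :=
  fun t => inter_of_zero hB hρ t

theorem meas_Hs {N : ℝ≥0 → Ω → ℝ} (hc : ∀ ω, Continuous (fun t => N t ω))
    (ha : ∀ t, Measurable[𝓕 t] (N t)) {ρ : Ω → ℝ≥0}
    (hρ : ∀ t, MeasurableSet[𝓕 t] {ω | ρ ω ≤ t}) :
    Measurable[Hs 𝓕 ρ hρ] (fun ω => N (ρ ω) ω) := by
  intro A hA t
  have h1 := prog hc ha hρ t
  have h2 : (fun ω => N (ρ ω) ω) ⁻¹' A ∩ {ω | ρ ω ≤ t} =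
      (fun ω => N (min (ρ ω) t) ω) ⁻¹' A ∩ {ω | ρ ω ≤ t} := by
    ext ω
    simp only [Set.mem_inter_iff, Set.mem_preimage, Set.mem_ofPred_eq]
    constructor
    · rintro ⟨h3, h4⟩
      rw [min_eq_left h4]; exact ⟨h3, h4⟩
    · rintro ⟨h3, h4⟩
      rw [min_eq_left h4] at h3; exact ⟨h3, h4⟩
  rw [h2]
  exact (h1 hA).inter (hρ t)

theorem meas_Hs_self {ρ : Ω → ℝ≥0} (hρ : ∀ t, MeasurableSet[𝓕 t] {ω | ρ ω ≤ t}) :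
    Measurable[Hs 𝓕 ρ hρ] (fun ω => (ρ ω : ℝ)) :=
  meas_Hs (N := fun t _ => (t : ℝ)) (fun _ => NNReal.continuous_coe)
    (fun _ => measurable_const) hρ

theorem condExp_stop [IsProbabilityMeasure P] {N : ℝ≥0 → Ω → ℝ} (hN : Martingale N 𝓕 P)
    (hc : ∀ ω, Continuous (fun t => N t ω)) {ρ1 ρ2 : Ω → ℝ≥0}
    (h1 : ∀ t, MeasurableSet[𝓕 t] {ω | ρ1 ω ≤ t}) (h2 : ∀ t, MeasurableSet[𝓕 t] {ω | ρ2 ω ≤ t})
    (h12 : ∀ ω, ρ1 ω ≤ ρ2 ω) {T : ℝ≥0} (hT : ∀ ω, ρ2 ω ≤ T) :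
    P[fun ω => N (ρ2 ω) ω | Hs 𝓕 ρ1 h1] =ᵐ[P] fun ω => N (ρ1 ω) ω := by
  have hT1 : ∀ ω, ρ1 ω ≤ T := fun ω => (h12 ω).trans (hT ω)
  obtain ⟨i1, o1⟩ := os hN hc h1 hT1
  obtain ⟨i2, o2⟩ := os hN hc h2 hT
  refine (ae_eq_condExp_of_forall_setIntegral_eq (Hs_le h1 hT1) i2
    (fun s _ _ => i1.integrableOn) (fun s hs _ => ?_) ?_).symm
  · have hs1 : ∀ t, MeasurableSet[𝓕 t] (s ∩ {ω | ρ1 ω ≤ t}) := hs
    have hs2 : ∀ t, MeasurableSet[𝓕 t] (s ∩ {ω | ρ2 ω ≤ t}) := by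
      intro t
      have : s ∩ {ω | ρ2 ω ≤ t} = (s ∩ {ω | ρ1 ω ≤ t}) ∩ {ω | ρ2 ω ≤ t} := by
        ext ω
        simp only [Set.mem_inter_iff, Set.mem_ofPred_eq]
        constructor
        · rintro ⟨h3, h4⟩
          exact ⟨⟨h3, (h12 ω).trans h4⟩, h4⟩
        · rintro ⟨⟨h3, _⟩, h4⟩
          exact ⟨h3, h4⟩
      rw [this]
      exact (hs1 t).inter (h2 t)
    rw [o1 s hs1, o2 s hs2]
  · exact (meas_Hs hc (fun t => (hN.1 t).measurable) h1).stronglyMeasurable.aestronglyMeasurable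

/-- Optional stopping against a bounded weight. -/
theorem os_weight [IsProbabilityMeasure P] {N : ℝ≥0 → Ω → ℝ} (hN : Martingale N 𝓕 P)
    (hc : ∀ ω, Continuous (fun t => N t ω)) {ρ1 ρ2 : Ω → ℝ≥0}
    (h1 : ∀ t, MeasurableSet[𝓕 t] {ω | ρ1 ω ≤ t}) (h2 : ∀ t, MeasurableSet[𝓕 t] {ω | ρ2 ω ≤ t})
    (h12 : ∀ ω, ρ1 ω ≤ ρ2 ω) {T : ℝ≥0} (hT : ∀ ω, ρ2 ω ≤ T) {g : Ω → ℝ}
    (hg : Measurable[Hs 𝓕 ρ1 h1] g) {C : ℝ} (hC : ∀ ω, |g ω| ≤ C) :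
    Integrable (fun ω => g ω * (N (ρ2 ω) ω - N (ρ1 ω) ω)) P ∧
    ∫ ω, g ω * (N (ρ2 ω) ω - N (ρ1 ω) ω) ∂P = 0 := by
  have hT1 : ∀ ω, ρ1 ω ≤ T := fun ω => (h12 ω).trans (hT ω)
  have i1 := (os hN hc h1 hT1).1
  have i2 := (os hN hc h2 hT).1
  have hgm : Measurable g := hg.mono (Hs_le h1 hT1) le_rfl
  have j1 : Integrable (g * fun ω => N (ρ1 ω) ω) P := by
    refine i1.bdd_mul hgm.aestronglyMeasurable (c := C) (Eventually.of_forall fun ω => ?_)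
    rw [Real.norm_eq_abs]; exact hC ω
  have j2 : Integrable (g * fun ω => N (ρ2 ω) ω) P := by
    refine i2.bdd_mul hgm.aestronglyMeasurable (c := C) (Eventually.of_forall fun ω => ?_)
    rw [Real.norm_eq_abs]; exact hC ω
  have e : (fun ω => g ω * (N (ρ2 ω) ω - N (ρ1 ω) ω)) =
      fun ω => (g * fun ω => N (ρ2 ω) ω) ω - (g * fun ω => N (ρ1 ω) ω) ω := by
    funext ω
    simp only [Pi.mul_apply]
    ring
  refine ⟨by rw [e]; exact j2.sub j1, ?_⟩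
  rw [e, integral_sub j2 j1, sub_eq_zero]
  have h3 : P[g * (fun ω => N (ρ2 ω) ω) | Hs 𝓕 ρ1 h1] =ᵐ[P]
      g * P[fun ω => N (ρ2 ω) ω | Hs 𝓕 ρ1 h1] :=
    condExp_mul_of_stronglyMeasurable_left hg.stronglyMeasurable j2 i2
  rw [← integral_condExp (Hs_le h1 hT1)]
  refine integral_congr_ae ?_
  filter_upwards [h3, condExp_stop hN hc h1 h2 h12 hT] with ω h4 h5
  rw [h4, Pi.mul_apply, h5, Pi.mul_apply]

end Pool.Agent.Y982.HW
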