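import Mathlib
import Pool.Agent.Y982.HW.Wt

open MeasureTheory Filter Topology
open scoped NNReal ENNReal

namespace Pool.Agent.Y982.HW

variable {Ω : Type*} {m : MeasurableSpace Ω} {𝓕 : Filtration ℝ≥0 m} {P : Measure Ω}

/-- The control function for the next grid time. -/
noncomputable def ctl (Z : ℝ≥0 → Ω → ℝ) (ε : ℝ) (τ : Ω → ℝ≥0) (s : ℝ≥0) (ω : Ω) : ℝ :=
  min (ε - |Z s ω - Z (min (τ ω) s) ω|) (ε - ((s : ℝ) - ((min (τ ω) s : ℝ≥0) : ℝ)))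

/-- The next grid time. -/
noncomputable def nxt (Z : ℝ≥0 → Ω → ℝ) (ε : ℝ) (T : ℝ≥0) (ρ τ : Ω → ℝ≥0) (ω : Ω) : ℝ≥0 :=
  min (ρ ω) (hit (ctl Z ε τ) T ω)

theorem ctl_cont {Z : ℝ≥0 → Ω → ℝ} (hc : ∀ ω, Continuous (fun t => Z t ω)) (ε : ℝ)
    (τ : Ω → ℝ≥0) (ω : Ω) : Continuous fun s => ctl Z ε τ s ω := by
  have h1 : Continuous fun s : ℝ≥0 => min (τ ω) s := continuous_const.min continuous_id
  exact (continuous_const.sub ((hc ω).sub ((hc ω).comp h1)).abs).min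
    (continuous_const.sub (NNReal.continuous_coe.sub (NNReal.continuous_coe.comp h1)))

theorem ctl_meas {Z : ℝ≥0 → Ω → ℝ} (hc : ∀ ω, Continuous (fun t => Z t ω))
    (ha : ∀ t, Measurable[𝓕 t] (Z t)) (ε : ℝ) {τ : Ω → ℝ≥0}
    (hτ : ∀ t, MeasurableSet[𝓕 t] {ω | τ ω ≤ t}) (s : ℝ≥0) :
    Measurable[𝓕 s] (ctl Z ε τ s) := by
  have h1 := prog hc ha hτ s
  have h2 : Measurable[𝓕 s] (fun ω => ((min (τ ω) s : ℝ≥0) : ℝ)) :=
    prog (N := fun t _ => (t : ℝ)) (fun _ => NNReal.continuous_coe)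
      (fun _ => measurable_const) hτ s
  have h3 : Measurable[𝓕 s] (fun ω => |Z s ω - Z (min (τ ω) s) ω|) :=
    continuous_abs.measurable.comp ((ha s).sub h1)
  exact Measurable.min (h3.const_sub ε) ((h2.const_sub (s : ℝ)).const_sub ε)

section step

variable {Z : ℝ≥0 → Ω → ℝ} {ε : ℝ} {T : ℝ≥0} {ρ τ : Ω → ℝ≥0}

theorem nxt_stop (hc : ∀ ω, Continuous (fun t => Z t ω)) (ha : ∀ t, Measurable[𝓕 t] (Z t))
    (hρ : ∀ t, MeasurableSet[𝓕 t] {ω | ρ ω ≤ t}) (hτ : ∀ t, MeasurableSet[𝓕 t] {ω | τ ω ≤ t})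
    (t : ℝ≥0) : MeasurableSet[𝓕 t] {ω | nxt Z ε T ρ τ ω ≤ t} := by
  have h1 : {ω | nxt Z ε T ρ τ ω ≤ t} = {ω | ρ ω ≤ t} ∪ {ω | hit (ctl Z ε τ) T ω ≤ t} := by
    ext ω; simp [nxt]
  rw [h1]
  exact (hρ t).union (hit_meas (ctl_cont hc ε τ) (ctl_meas hc ha ε hτ) T t)

theorem nxt_le (ω : Ω) : nxt Z ε T ρ τ ω ≤ ρ ω := min_le_left _ _

theorem le_nxt (hc : ∀ ω, Continuous (fun t => Z t ω)) (hε : 0 < ε) (h1 : ∀ ω, τ ω ≤ ρ ω)
    (h2 : ∀ ω, ρ ω ≤ T) (ω : Ω) : τ ω ≤ nxt Z ε T ρ τ ω := by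
  refine le_min (h1 ω) ?_
  by_contra hcon
  push Not at hcon
  have h3 : hit (ctl Z ε τ) T ω ≠ T := (hcon.trans_le ((h1 ω).trans (h2 ω))).ne
  rcases hit_mem (T := T) (ctl_cont hc ε τ ω) with h4 | h4
  · exact h3 h4
  · unfold ctl at h4
    set s := hit (fun s ω => min (ε - |Z s ω - Z (min (τ ω) s) ω|)
      (ε - ((s : ℝ) - ((min (τ ω) s : ℝ≥0) : ℝ)))) T ω with hs
    have h5 : min (τ ω) s = s := min_eq_right hcon.le
    rw [h5] at h4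
    simp only [sub_self, abs_zero, sub_zero, min_self] at h4
    linarith

theorem nxt_incr (hc : ∀ ω, Continuous (fun t => Z t ω)) (hε : 0 < ε) (h1 : ∀ ω, τ ω ≤ ρ ω)
    (h2 : ∀ ω, ρ ω ≤ T) (ω : Ω) : |Z (nxt Z ε T ρ τ ω) ω - Z (τ ω) ω| ≤ ε ∧
      (nxt Z ε T ρ τ ω : ℝ) - τ ω ≤ ε := by
  have h3 : 0 ≤ ctl Z ε τ (nxt Z ε T ρ τ ω) ω := by
    rcases lt_or_eq_of_le (min_le_right (ρ ω) (hit (ctl Z ε τ) T ω)) with h4 | h4
    · exact (pos_of_lt_hit h4).le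
    · have h5 : nxt Z ε T ρ τ ω = hit (ctl Z ε τ) T ω := h4
      rw [h5]
      refine hit_nonneg (ctl_cont hc ε τ ω) ?_
      unfold ctl
      simp [hε.le]
  have h4 : min (τ ω) (nxt Z ε T ρ τ ω) = τ ω := min_eq_left (le_nxt hc hε h1 h2 ω)
  unfold ctl at h3
  rw [h4] at h3
  have h5 := le_min_iff.mp h3
  exact ⟨by linarith [h5.1], by linarith [h5.2]⟩

theorem nxt_lt (hc : ∀ ω, Continuous (fun t => Z t ω)) (hε : 0 < ε) (h1 : ∀ ω, τ ω ≤ ρ ω)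
    (h2 : ∀ ω, ρ ω ≤ T) (ω : Ω) (h : nxt Z ε T ρ τ ω < ρ ω) :
    ε ≤ |Z (nxt Z ε T ρ τ ω) ω - Z (τ ω) ω| ∨ ε ≤ (nxt Z ε T ρ τ ω : ℝ) - τ ω := by
  have h5 : nxt Z ε T ρ τ ω = hit (ctl Z ε τ) T ω := by
    unfold nxt at h ⊢
    rcases min_lt_iff.mp h with h6 | h6
    · exact absurd h6 (lt_irrefl _)
    · exact min_eq_right h6.le
  have h3 : ctl Z ε τ (nxt Z ε T ρ τ ω) ω ≤ 0 := by
    rcases hit_mem (T := T) (ctl_cont hc ε τ ω) with h4 | h4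
    · rw [← h5] at h4
      rw [h4] at h
      exact absurd (h2 ω) (not_le.mpr h)
    · rw [h5]; exact h4
  have h4 : min (τ ω) (nxt Z ε T ρ τ ω) = τ ω := min_eq_left (le_nxt hc hε h1 h2 ω)
  unfold ctl at h3
  rw [h4] at h3
  rcases min_le_iff.mp h3 with h6 | h6
  · left; linarith
  · right; linarith

end step

/-- The grid times. -/
noncomputable def grid (Z : ℝ≥0 → Ω → ℝ) (ε : ℝ) (T : ℝ≥0) (ρ : Ω → ℝ≥0) : ℕ → Ω → ℝ≥0
  | 0 => fun _ => 0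
  | k + 1 => nxt Z ε T ρ (grid Z ε T ρ k)

section grid

variable {Z : ℝ≥0 → Ω → ℝ} {ε : ℝ} {T : ℝ≥0} {ρ : Ω → ℝ≥0}

theorem grid_stop (hc : ∀ ω, Continuous (fun t => Z t ω)) (ha : ∀ t, Measurable[𝓕 t] (Z t))
    (hρ : ∀ t, MeasurableSet[𝓕 t] {ω | ρ ω ≤ t}) (k : ℕ) (t : ℝ≥0) :
    MeasurableSet[𝓕 t] {ω | grid Z ε T ρ k ω ≤ t} := by
  induction k generalizing t with
  | zero =>
    have : {ω : Ω | grid Z ε T ρ 0 ω ≤ t} = Set.univ := by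
      ext ω; simp [grid]
    rw [this]; exact MeasurableSet.univ
  | succ k ih => exact nxt_stop hc ha hρ ih t

theorem grid_le (k : ℕ) (ω : Ω) : grid Z ε T ρ k ω ≤ ρ ω := by
  cases k with
  | zero => exact zero_le
  | succ k => exact nxt_le ω

theorem grid_mono (hc : ∀ ω, Continuous (fun t => Z t ω)) (hε : 0 < ε)
    (h2 : ∀ ω, ρ ω ≤ T) (k : ℕ) (ω : Ω) : grid Z ε T ρ k ω ≤ grid Z ε T ρ (k + 1) ω :=
  le_nxt hc hε (grid_le k) h2 ω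

theorem grid_eventually (hc : ∀ ω, Continuous (fun t => Z t ω)) (hε : 0 < ε)
    (h2 : ∀ ω, ρ ω ≤ T) (ω : Ω) : ∀ᶠ k in atTop, grid Z ε T ρ k ω = ρ ω := by
  have hmono : Monotone fun k => grid Z ε T ρ k ω :=
    monotone_nat_of_le_succ fun k => grid_mono hc hε h2 k ω
  by_cases h : ∃ k, grid Z ε T ρ k ω = ρ ω
  · obtain ⟨k, hk⟩ := h
    filter_upwards [eventually_ge_atTop k] with l hl
    exact le_antisymm (grid_le l ω) (hk ▸ hmono hl)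
  · exfalso
    push Not at h
    have hlt : ∀ k, grid Z ε T ρ k ω < ρ ω := fun k => lt_of_le_of_ne (grid_le k ω) (h k)
    have hbd : BddAbove (Set.range fun k => grid Z ε T ρ k ω) :=
      ⟨ρ ω, by rintro _ ⟨k, rfl⟩; exact grid_le k ω⟩
    have hlim := tendsto_atTop_ciSup hmono hbd
    set L := ⨆ k, grid Z ε T ρ k ω with hL
    have l1 : Tendsto (fun k => Z (grid Z ε T ρ k ω) ω) atTop (𝓝 (Z L ω)) :=
      ((hc ω).tendsto L).comp hlim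
    have l2 : Tendsto (fun k => (grid Z ε T ρ k ω : ℝ)) atTop (𝓝 (L : ℝ)) :=
      (NNReal.continuous_coe.tendsto L).comp hlim
    have l3 : Tendsto (fun k => |Z (grid Z ε T ρ (k + 1) ω) ω - Z (grid Z ε T ρ k ω) ω|) atTop
        (𝓝 0) := by
      have := ((l1.comp (tendsto_add_atTop_nat 1)).sub l1).abs
      simpa using this
    have l4 : Tendsto (fun k => (grid Z ε T ρ (k + 1) ω : ℝ) - grid Z ε T ρ k ω) atTop
        (𝓝 0) := by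
      have := (l2.comp (tendsto_add_atTop_nat 1)).sub l2
      simpa using this
    obtain ⟨k, hk1, hk2⟩ := ((l3.eventually (gt_mem_nhds hε)).and
      (l4.eventually (gt_mem_nhds hε))).exists
    rcases nxt_lt hc hε (grid_le k) h2 ω (hlt (k + 1)) with h3 | h3
    · exact absurd (h3.trans_lt hk1) (lt_irrefl _)
    · exact absurd (h3.trans_lt hk2) (lt_irrefl _)

end grid

theorem taylor_bound {c ε a d : ℝ} (hc : 0 ≤ c) (hε1 : ε * (1 + c / 2) ≤ 1)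
    (hε2 : ε ≤ 1) (ha : |a| ≤ ε) (hd0 : 0 ≤ d) (hd : d ≤ ε) :
    |Real.exp (a - c / 2 * d) - 1 - a - (a ^ 2 - c * d) / 2| ≤
      ε * (2 * (1 + c / 2) + (1 + c / 2) * c ^ 2 / 2 + c / 2 + c ^ 2 / 8) * (a ^ 2 + d) := by
  have hε0 : 0 ≤ ε := (abs_nonneg a).trans ha
  set w : ℝ := a - c / 2 * d with hw
  have hw1 : |w| ≤ ε * (1 + c / 2) := by
    have h1 : |w| ≤ |a| + |c / 2 * d| := by rw [hw]; exact abs_sub _ _
    rw [abs_of_nonneg (by positivity : 0 ≤ c / 2 * d)] at h1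
    have h2 : c / 2 * d ≤ c / 2 * ε := mul_le_mul_of_nonneg_left hd (by positivity)
    linarith
  have hb := Real.exp_bound (hw1.trans hε1) (n := 3) (by norm_num)
  have hsum : ∑ m ∈ Finset.range 3, w ^ m / (m.factorial : ℝ) = 1 + w + w ^ 2 / 2 := by
    simp [Finset.sum_range_succ, Nat.factorial]
  rw [hsum] at hb
  have hb2 : |Real.exp w - (1 + w + w ^ 2 / 2)| ≤ |w| ^ 3 := by
    refine hb.trans ?_
    have : ((3 : ℕ).succ : ℝ) / (((3 : ℕ).factorial : ℝ) * (3 : ℕ)) ≤ 1 := by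
      norm_num [Nat.factorial]
    calc |w| ^ 3 * (((3 : ℕ).succ : ℝ) / (((3 : ℕ).factorial : ℝ) * (3 : ℕ)))
        ≤ |w| ^ 3 * 1 := mul_le_mul_of_nonneg_left this (by positivity)
      _ = |w| ^ 3 := mul_one _
  have hw2 : w ^ 2 ≤ 2 * a ^ 2 + c ^ 2 / 2 * d := by
    have h1 : w ^ 2 ≤ 2 * a ^ 2 + 2 * (c / 2 * d) ^ 2 := by
      rw [hw]; nlinarith [sq_nonneg (a + c / 2 * d)]
    have h2 : d ^ 2 ≤ d := by nlinarith
    have h3 : 2 * (c / 2 * d) ^ 2 = c ^ 2 / 2 * d ^ 2 := by ring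
    rw [h3] at h1
    have h4 : c ^ 2 / 2 * d ^ 2 ≤ c ^ 2 / 2 * d := mul_le_mul_of_nonneg_left h2 (by positivity)
    linarith
  have hw3 : |w| ^ 3 ≤ ε * (1 + c / 2) * (2 * a ^ 2 + c ^ 2 / 2 * d) := by
    calc |w| ^ 3 = |w| * w ^ 2 := by rw [← sq_abs]; ring
      _ ≤ ε * (1 + c / 2) * (2 * a ^ 2 + c ^ 2 / 2 * d) :=
        mul_le_mul hw1 hw2 (sq_nonneg _) (by positivity)
  have hr : |-(c / 2 * a * d) + c ^ 2 / 8 * d ^ 2| ≤ ε * (c / 2 + c ^ 2 / 8) * d := by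
    have h1 : |-(c / 2 * a * d) + c ^ 2 / 8 * d ^ 2| ≤ |c / 2 * a * d| + |c ^ 2 / 8 * d ^ 2| := by
      refine (abs_add_le _ _).trans ?_
      rw [abs_neg]
    have h2 : |c / 2 * a * d| ≤ c / 2 * ε * d := by
      rw [abs_mul, abs_mul, abs_of_nonneg hd0, abs_of_nonneg (by positivity : 0 ≤ c / 2)]
      gcongr
    have h3 : |c ^ 2 / 8 * d ^ 2| ≤ c ^ 2 / 8 * ε * d := by
      rw [abs_of_nonneg (by positivity)]
      have : d ^ 2 ≤ ε * d := by nlinarith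
      calc c ^ 2 / 8 * d ^ 2 ≤ c ^ 2 / 8 * (ε * d) := mul_le_mul_of_nonneg_left this (by positivity)
        _ = c ^ 2 / 8 * ε * d := by ring
    calc _ ≤ _ := h1
      _ ≤ c / 2 * ε * d + c ^ 2 / 8 * ε * d := add_le_add h2 h3
      _ = _ := by ring
  have e : Real.exp w - 1 - a - (a ^ 2 - c * d) / 2 =
      (Real.exp w - (1 + w + w ^ 2 / 2)) + (-(c / 2 * a * d) + c ^ 2 / 8 * d ^ 2) := by
    rw [hw]; ring
  rw [e]
  refine (abs_add_le _ _).trans ?_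
  have hsum2 : |w| ^ 3 + ε * (c / 2 + c ^ 2 / 8) * d ≤
      ε * (2 * (1 + c / 2) + (1 + c / 2) * c ^ 2 / 2 + c / 2 + c ^ 2 / 8) * (a ^ 2 + d) := by
    have h1 : 0 ≤ ε * a ^ 2 := by positivity
    have h2 : 0 ≤ ε * d := by positivity
    have h3 : ε * (1 + c / 2) * (2 * a ^ 2 + c ^ 2 / 2 * d) + ε * (c / 2 + c ^ 2 / 8) * d =
      (2 * (1 + c / 2)) * (ε * a ^ 2) + ((1 + c / 2) * c ^ 2 / 2 + c / 2 + c ^ 2 / 8) * (ε * d) := by
      ring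
    have h4 : ε * (2 * (1 + c / 2) + (1 + c / 2) * c ^ 2 / 2 + c / 2 + c ^ 2 / 8) * (a ^ 2 + d) =
      (2 * (1 + c / 2) + (1 + c / 2) * c ^ 2 / 2 + c / 2 + c ^ 2 / 8) * (ε * a ^ 2) +
      (2 * (1 + c / 2) + (1 + c / 2) * c ^ 2 / 2 + c / 2 + c ^ 2 / 8) * (ε * d) := by ring
    have h5 : 0 ≤ (1 + c / 2) * c ^ 2 / 2 + c / 2 + c ^ 2 / 8 := by positivity
    have h6 : 0 ≤ 2 * (1 + c / 2) := by positivity
    nlinarith [mul_nonneg h5 h1, mul_nonneg h6 h2]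
  linarith

end Pool.Agent.Y982.HW
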