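import Mathlib
import Pool.Agent.Y982.HW.Exp

open MeasureTheory Filter Topology
open scoped NNReal ENNReal

namespace Pool.Agent.Y982.HW

variable {Ω : Type*} {m : MeasurableSpace Ω} {𝓕 : Filtration ℝ≥0 m} {P : Measure Ω}

/-- the constant of the one-step estimate -/
noncomputable def c1 (c : ℝ) : ℝ := 2 * (1 + c / 2) + (1 + c / 2) * c ^ 2 / 2 + c / 2 + c ^ 2 / 8

theorem c1_nonneg {c : ℝ} (hc : 0 ≤ c) : 0 ≤ c1 c := by unfold c1; positivity

theorem exp_step [IsProbabilityMeasure P] {Z V : ℝ≥0 → Ω → ℝ} (hZ : Martingale Z 𝓕 P)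
    (hc : ∀ ω, Continuous fun t => Z t ω) (hQ : Martingale (fun t ω => Z t ω ^ 2 - V t ω) 𝓕 P)
    (hVc : ∀ ω, Continuous fun t => V t ω) {ρ τ τ' : Ω → ℝ≥0} {T : ℝ≥0}
    (hτ : ∀ t, MeasurableSet[𝓕 t] {ω | τ ω ≤ t}) (hτ' : ∀ t, MeasurableSet[𝓕 t] {ω | τ' ω ≤ t})
    (h1 : ∀ ω, τ ω ≤ τ' ω) (h2 : ∀ ω, τ' ω ≤ ρ ω) (hT : ∀ ω, ρ ω ≤ T) {Kz c ε : ℝ} (hc0 : 0 ≤ c)
    (hb : ∀ ω, ∀ s ≤ ρ ω, |Z s ω| ≤ Kz) (hV : ∀ ω, ∀ s ≤ ρ ω, V s ω = c * s)
    (hε0 : 0 ≤ ε) (hε1 : ε * (1 + c / 2) ≤ 1) (hε2 : ε ≤ 1)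
    (ha : ∀ ω, |Z (τ' ω) ω - Z (τ ω) ω| ≤ ε) (hd : ∀ ω, (τ' ω : ℝ) - τ ω ≤ ε)
    {B : Set Ω} (hB : MeasurableSet[𝓕 0] B) :
    |∫ ω in B, Real.exp (Z (τ' ω) ω - c / 2 * τ' ω) ∂P -
      ∫ ω in B, Real.exp (Z (τ ω) ω - c / 2 * τ ω) ∂P| ≤
      ε * (c1 c * (1 + c) * Real.exp Kz) * (∫ ω, (τ' ω : ℝ) ∂P - ∫ ω, (τ ω : ℝ) ∂P) := by
  have hT' : ∀ ω, τ' ω ≤ T := fun ω => (h2 ω).trans (hT ω)
  have hTτ : ∀ ω, τ ω ≤ T := fun ω => (h1 ω).trans (hT' ω)
  have hBm : MeasurableSet B := 𝓕.le 0 _ hB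
  have hZa : ∀ t, Measurable[𝓕 t] (Z t) := fun t => (hZ.1 t).measurable
  have hZm : ∀ t, Measurable (Z t) := fun t => (hZa t).mono (𝓕.le t) le_rfl
  have mτ := meas_of_le hτ
  have mτ' := meas_of_le hτ'
  have mZτ : Measurable fun ω => Z (τ ω) ω := meas_at hc hZm mτ
  have mZτ' : Measurable fun ω => Z (τ' ω) ω := meas_at hc hZm mτ'
  have mE : Measurable[Hs 𝓕 τ hτ] fun ω => Real.exp (Z (τ ω) ω - c / 2 * τ ω) := by
    have u1 := meas_Hs hc hZa hτ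
    have u2 := meas_Hs_self hτ
    exact Real.measurable_exp.comp (u1.sub (u2.const_mul (c / 2)))
  set g : Ω → ℝ := B.indicator fun ω => Real.exp (Z (τ ω) ω - c / 2 * τ ω) with hg
  have mg : Measurable[Hs 𝓕 τ hτ] g := mE.indicator (Hs_zero hB hτ)
  have mg' : Measurable g := mg.mono (Hs_le hτ hTτ) le_rfl
  have g0 : ∀ ω, 0 ≤ g ω := fun ω => Set.indicator_nonneg (fun _ _ => (Real.exp_pos _).le) ω
  have gK : ∀ ω, g ω ≤ Real.exp Kz := by
    intro ω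
    by_cases hω : ω ∈ B
    · rw [hg, Set.indicator_of_mem hω]
      apply Real.exp_le_exp.mpr
      have u1 := (abs_le.mp (hb ω (τ ω) ((h1 ω).trans (h2 ω)))).2
      have u2 : 0 ≤ c / 2 * (τ ω : ℝ) := mul_nonneg (by linarith) (NNReal.coe_nonneg _)
      linarith
    · rw [hg, Set.indicator_of_notMem hω]
      exact (Real.exp_pos _).le
  have gabs : ∀ ω, |g ω| ≤ Real.exp Kz := fun ω => by rw [abs_of_nonneg (g0 ω)]; exact gK ω
  have hd0 : ∀ ω, 0 ≤ (τ' ω : ℝ) - τ ω := fun ω => by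
    have : (τ ω : ℝ) ≤ τ' ω := by exact_mod_cast h1 ω
    linarith
  set a : Ω → ℝ := fun ω => Z (τ' ω) ω - Z (τ ω) ω with hadef
  set d : Ω → ℝ := fun ω => (τ' ω : ℝ) - τ ω with hddef
  have ma : Measurable a := mZτ'.sub mZτ
  have md : Measurable d := mτ'.coe_nnreal_real.sub mτ.coe_nnreal_real
  have bdd : ∀ (f : Ω → ℝ) (C : ℝ), Measurable f → (∀ ω, |f ω| ≤ C) → Integrable f P := by
    intro f C hf hC
    exact Integrable.of_bound hf.aestronglyMeasurable C (Eventually.of_forall hC)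
  have ia : Integrable (fun ω => g ω * a ω) P := bdd _ (Real.exp Kz * ε) (mg'.mul ma) fun ω => by
    rw [abs_mul]; exact mul_le_mul (gabs ω) (ha ω) (abs_nonneg _) (Real.exp_pos _).le
  have ia2 : Integrable (fun ω => g ω * a ω ^ 2) P :=
    bdd _ (Real.exp Kz * ε ^ 2) (mg'.mul (ma.pow_const 2)) fun ω => by
      rw [abs_mul, abs_pow]
      exact mul_le_mul (gabs ω) (pow_le_pow_left₀ (abs_nonneg _) (ha ω) 2) (by positivity)
        (Real.exp_pos _).le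
  have idd : Integrable (fun ω => g ω * d ω) P := bdd _ (Real.exp Kz * ε) (mg'.mul md) fun ω => by
    rw [abs_mul]
    exact mul_le_mul (gabs ω) (by rw [abs_of_nonneg (hd0 ω)]; exact hd ω) (abs_nonneg _)
      (Real.exp_pos _).le
  have id0 : Integrable d P := bdd _ ε md fun ω => by rw [abs_of_nonneg (hd0 ω)]; exact hd ω
  -- martingale identities
  have z1 : ∫ ω, g ω * a ω ∂P = 0 := (os_weight hZ hc hτ hτ' h1 hT' mg gabs).2
  have z2 : ∫ ω, g ω * a ω ^ 2 ∂P = c * ∫ ω, g ω * d ω ∂P := by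
    have w1 := os_weight hQ (fun ω => ((hc ω).pow 2).sub (hVc ω)) hτ hτ' h1 hT' mg gabs
    have mw : Measurable[Hs 𝓕 τ hτ] fun ω => g ω * Z (τ ω) ω := mg.mul (meas_Hs hc hZa hτ)
    have w2 := os_weight hZ hc hτ hτ' h1 hT' mw (C := Real.exp Kz * Kz) (fun ω => by
      rw [abs_mul]
      exact mul_le_mul (gabs ω) (hb ω (τ ω) ((h1 ω).trans (h2 ω))) (abs_nonneg _)
        (Real.exp_pos _).le)
    have e1 : (fun ω => g ω * a ω ^ 2) = fun ω =>
        (g ω * ((Z (τ' ω) ω ^ 2 - V (τ' ω) ω) - (Z (τ ω) ω ^ 2 - V (τ ω) ω)) +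
          c * (g ω * d ω)) - 2 * (g ω * Z (τ ω) ω * (Z (τ' ω) ω - Z (τ ω) ω)) := by
      funext ω
      rw [hV ω (τ' ω) (h2 ω), hV ω (τ ω) ((h1 ω).trans (h2 ω))]
      simp only [hadef, hddef]
      ring
    have iw1 : Integrable (fun ω => g ω * ((Z (τ' ω) ω ^ 2 - V (τ' ω) ω) -
        (Z (τ ω) ω ^ 2 - V (τ ω) ω)) + c * (g ω * d ω)) P := w1.1.add (idd.const_mul c)
    rw [e1, integral_sub iw1 (w2.1.const_mul 2), integral_add w1.1 (idd.const_mul c),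
      integral_const_mul, integral_const_mul, w1.2, w2.2]
    ring
  -- the difference
  have mR : Measurable fun ω => g ω * (Real.exp (a ω - c / 2 * d ω) - 1 - a ω -
      (a ω ^ 2 - c * d ω) / 2) :=
    mg'.mul ((((Real.measurable_exp.comp (ma.sub (md.const_mul _))).sub_const 1).sub ma).sub
      (((ma.pow_const 2).sub (md.const_mul c)).div_const 2))
  have tb : ∀ ω, |Real.exp (a ω - c / 2 * d ω) - 1 - a ω - (a ω ^ 2 - c * d ω) / 2| ≤
      ε * c1 c * (a ω ^ 2 + d ω) := fun ω =>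
    taylor_bound hc0 hε1 hε2 (ha ω) (hd0 ω) (hd ω)
  have iR0 : Integrable (fun ω => ε * c1 c * (g ω * a ω ^ 2 + g ω * d ω)) P :=
    (ia2.add idd).const_mul _
  have bR : ∀ ω, |g ω * (Real.exp (a ω - c / 2 * d ω) - 1 - a ω - (a ω ^ 2 - c * d ω) / 2)| ≤
      ε * c1 c * (g ω * a ω ^ 2 + g ω * d ω) := fun ω => by
    rw [abs_mul, abs_of_nonneg (g0 ω)]
    calc g ω * |Real.exp (a ω - c / 2 * d ω) - 1 - a ω - (a ω ^ 2 - c * d ω) / 2|
        ≤ g ω * (ε * c1 c * (a ω ^ 2 + d ω)) := mul_le_mul_of_nonneg_left (tb ω) (g0 ω)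
      _ = _ := by ring
  have iR : Integrable (fun ω => g ω * (Real.exp (a ω - c / 2 * d ω) - 1 - a ω -
      (a ω ^ 2 - c * d ω) / 2)) P :=
    iR0.mono' mR.aestronglyMeasurable (Eventually.of_forall bR)
  have R0 : |∫ ω, g ω * (Real.exp (a ω - c / 2 * d ω) - 1 - a ω - (a ω ^ 2 - c * d ω) / 2) ∂P| ≤
      ε * c1 c * (∫ ω, g ω * a ω ^ 2 ∂P + ∫ ω, g ω * d ω ∂P) := by
    calc _ ≤ ∫ ω, |g ω * (Real.exp (a ω - c / 2 * d ω) - 1 - a ω -
          (a ω ^ 2 - c * d ω) / 2)| ∂P := abs_integral_le_integral_abs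
      _ ≤ ∫ ω, ε * c1 c * (g ω * a ω ^ 2 + g ω * d ω) ∂P := integral_mono iR.abs iR0 bR
      _ = _ := by rw [integral_const_mul, integral_add ia2 idd]
  have iE : IntegrableOn (fun ω => Real.exp (Z (τ ω) ω - c / 2 * τ ω)) B P := by
    rw [← integrable_indicator_iff hBm]
    exact bdd _ _ mg' gabs
  have eE' : ∀ ω ∈ B, Real.exp (Z (τ' ω) ω - c / 2 * τ' ω) =
      g ω * Real.exp (a ω - c / 2 * d ω) := by
    intro ω hω
    rw [hg, Set.indicator_of_mem hω, ← Real.exp_add]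
    congr 1
    simp only [hadef, hddef]
    ring
  have idiff : ∫ ω in B, Real.exp (Z (τ' ω) ω - c / 2 * τ' ω) ∂P -
      ∫ ω in B, Real.exp (Z (τ ω) ω - c / 2 * τ ω) ∂P =
      ∫ ω, g ω * (Real.exp (a ω - c / 2 * d ω) - 1 - a ω - (a ω ^ 2 - c * d ω) / 2) ∂P := by
    have e1 : ∫ ω in B, Real.exp (Z (τ' ω) ω - c / 2 * τ' ω) ∂P =
        ∫ ω, g ω * Real.exp (a ω - c / 2 * d ω) ∂P := by
      rw [setIntegral_congr_fun hBm eE', ← integral_indicator hBm]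
      refine integral_congr_ae (Eventually.of_forall fun ω => ?_)
      by_cases hω : ω ∈ B
      · simp only [Set.indicator_of_mem hω]
      · simp only [Set.indicator_of_notMem hω, hg, zero_mul]
    have e2 : ∫ ω in B, Real.exp (Z (τ ω) ω - c / 2 * τ ω) ∂P = ∫ ω, g ω ∂P :=
      (integral_indicator hBm).symm
    have ig : Integrable g P := bdd _ _ mg' gabs
    have i12 : Integrable (fun ω => g ω * (Real.exp (a ω - c / 2 * d ω) - 1 - a ω -
      (a ω ^ 2 - c * d ω) / 2) + g ω) P := iR.add ig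
    have i13 : Integrable (fun ω => g ω * (Real.exp (a ω - c / 2 * d ω) - 1 - a ω -
      (a ω ^ 2 - c * d ω) / 2) + g ω + g ω * a ω) P := i12.add ia
    have i14 : Integrable (fun ω => (1 / 2 : ℝ) * (g ω * a ω ^ 2) - c / 2 * (g ω * d ω)) P :=
      (ia2.const_mul _).sub (idd.const_mul _)
    have e3 : (fun ω => g ω * Real.exp (a ω - c / 2 * d ω)) = fun ω =>
        (g ω * (Real.exp (a ω - c / 2 * d ω) - 1 - a ω - (a ω ^ 2 - c * d ω) / 2) + g ω +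
          g ω * a ω) + ((1 / 2 : ℝ) * (g ω * a ω ^ 2) - c / 2 * (g ω * d ω)) := by
      funext ω; ring
    rw [e1, e2, e3, integral_add i13 i14, integral_add i12 ia, integral_add iR ig,
      integral_sub (ia2.const_mul _) (idd.const_mul _), integral_const_mul, integral_const_mul,
      z1, z2]
    ring
  rw [idiff]
  refine R0.trans ?_
  rw [z2]
  have hgd : ∫ ω, g ω * d ω ∂P ≤ Real.exp Kz * (∫ ω, (τ' ω : ℝ) ∂P - ∫ ω, (τ ω : ℝ) ∂P) := by
    rw [← integral_sub (int_time hτ' hT') (int_time hτ hTτ), ← integral_const_mul]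
    exact integral_mono idd (id0.const_mul _) fun ω =>
      mul_le_mul_of_nonneg_right (gK ω) (hd0 ω)
  have hnn : 0 ≤ ∫ ω, g ω * d ω ∂P := integral_nonneg fun ω => mul_nonneg (g0 ω) (hd0 ω)
  have hc1 := c1_nonneg hc0
  calc ε * c1 c * (c * ∫ ω, g ω * d ω ∂P + ∫ ω, g ω * d ω ∂P)
      = ε * c1 c * (1 + c) * ∫ ω, g ω * d ω ∂P := by ring
    _ ≤ ε * c1 c * (1 + c) * (Real.exp Kz * (∫ ω, (τ' ω : ℝ) ∂P - ∫ ω, (τ ω : ℝ) ∂P)) :=
        mul_le_mul_of_nonneg_left hgd (by positivity)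
    _ = _ := by ring

/-- The stopped exponential martingale has constant expectation. -/
theorem exp_mart [IsProbabilityMeasure P] {Z V : ℝ≥0 → Ω → ℝ} (hZ : Martingale Z 𝓕 P)
    (hc : ∀ ω, Continuous fun t => Z t ω) (hQ : Martingale (fun t ω => Z t ω ^ 2 - V t ω) 𝓕 P)
    (hVc : ∀ ω, Continuous fun t => V t ω) {ρ : Ω → ℝ≥0} {T : ℝ≥0}
    (hρ : ∀ t, MeasurableSet[𝓕 t] {ω | ρ ω ≤ t}) (hT : ∀ ω, ρ ω ≤ T) {Kz c : ℝ} (hc0 : 0 ≤ c)
    (hZ0 : ∀ ω, Z 0 ω = 0)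
    (hb : ∀ ω, ∀ s ≤ ρ ω, |Z s ω| ≤ Kz) (hV : ∀ ω, ∀ s ≤ ρ ω, V s ω = c * s)
    {B : Set Ω} (hB : MeasurableSet[𝓕 0] B) :
    Integrable (fun ω => Real.exp (Z (ρ ω) ω - c / 2 * ρ ω)) P ∧
    ∫ ω in B, Real.exp (Z (ρ ω) ω - c / 2 * ρ ω) ∂P = P.real B := by
  have hBm : MeasurableSet B := 𝓕.le 0 _ hB
  have hZa : ∀ t, Measurable[𝓕 t] (Z t) := fun t => (hZ.1 t).measurable
  have hZm : ∀ t, Measurable (Z t) := fun t => (hZa t).mono (𝓕.le t) le_rfl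
  have hmeas : ∀ τ : Ω → ℝ≥0, Measurable τ →
      Measurable fun ω => Real.exp (Z (τ ω) ω - c / 2 * τ ω) := fun τ mτ =>
    Real.measurable_exp.comp ((meas_at hc hZm mτ).sub (mτ.coe_nnreal_real.const_mul _))
  have hbound : ∀ τ : Ω → ℝ≥0, (∀ ω, τ ω ≤ ρ ω) → ∀ ω,
      Real.exp (Z (τ ω) ω - c / 2 * τ ω) ≤ Real.exp Kz := by
    intro τ h1 ω
    apply Real.exp_le_exp.mpr
    have u1 := (abs_le.mp (hb ω (τ ω) (h1 ω))).2
    have u2 : 0 ≤ c / 2 * (τ ω : ℝ) := mul_nonneg (by linarith) (NNReal.coe_nonneg _)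
    linarith
  have hint : ∀ τ : Ω → ℝ≥0, Measurable τ → (∀ ω, τ ω ≤ ρ ω) →
      Integrable (fun ω => Real.exp (Z (τ ω) ω - c / 2 * τ ω)) P := fun τ mτ h1 =>
    Integrable.of_bound (hmeas τ mτ).aestronglyMeasurable (Real.exp Kz)
      (Eventually.of_forall fun ω => by
        rw [Real.norm_eq_abs, abs_of_pos (Real.exp_pos _)]; exact hbound τ h1 ω)
  refine ⟨hint ρ (meas_of_le hρ) fun _ => le_rfl, ?_⟩
  set C2 : ℝ := c1 c * (1 + c) * Real.exp Kz with hC2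
  have hC2nn : 0 ≤ C2 := by
    have := c1_nonneg hc0
    positivity
  -- the estimate for a fixed grid size
  have key : ∀ ε : ℝ, 0 < ε → ε * (1 + c / 2) ≤ 1 → ε ≤ 1 →
      |∫ ω in B, Real.exp (Z (ρ ω) ω - c / 2 * ρ ω) ∂P - P.real B| ≤ ε * (C2 * T) := by
    intro ε hε hε1 hε2
    have gs := fun k => grid_stop (𝓕 := 𝓕) (Z := Z) (ε := ε) (T := T) (ρ := ρ) hc hZa hρ k
    have gl := fun k ω => grid_le (Z := Z) (ε := ε) (T := T) (ρ := ρ) k ω
    have gm := fun k ω => grid_mono (Z := Z) (ε := ε) (T := T) (ρ := ρ) hc hε hT k ω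
    have gT : ∀ k ω, grid Z ε T ρ k ω ≤ T := fun k ω => (gl k ω).trans (hT ω)
    have step : ∀ k, |∫ ω in B, Real.exp (Z (grid Z ε T ρ (k + 1) ω) ω -
          c / 2 * grid Z ε T ρ (k + 1) ω) ∂P -
        ∫ ω in B, Real.exp (Z (grid Z ε T ρ k ω) ω - c / 2 * grid Z ε T ρ k ω) ∂P| ≤
        ε * C2 * (∫ ω, (grid Z ε T ρ (k + 1) ω : ℝ) ∂P - ∫ ω, (grid Z ε T ρ k ω : ℝ) ∂P) := by
      intro k
      refine exp_step hZ hc hQ hVc (gs k) (gs (k + 1)) (gm k) (gl (k + 1)) hT hc0 hb hV hε.le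
        hε1 hε2 (fun ω => ?_) (fun ω => ?_) hB
      · exact (nxt_incr (τ := grid Z ε T ρ k) hc hε (gl k) hT ω).1
      · exact (nxt_incr (τ := grid Z ε T ρ k) hc hε (gl k) hT ω).2
    have tele : ∀ k, |∫ ω in B, Real.exp (Z (grid Z ε T ρ k ω) ω -
          c / 2 * grid Z ε T ρ k ω) ∂P - P.real B| ≤
        ε * C2 * ∫ ω, (grid Z ε T ρ k ω : ℝ) ∂P := by
      intro k
      induction k with
      | zero =>
        have e1 : ∫ ω in B, Real.exp (Z (grid Z ε T ρ 0 ω) ω -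
          c / 2 * grid Z ε T ρ 0 ω) ∂P = P.real B := by
          simp [grid, hZ0]
        rw [e1, sub_self, abs_zero]
        simp [grid]
      | succ k ih =>
        have h1 := step k
        have h2 := abs_sub_le (∫ ω in B, Real.exp (Z (grid Z ε T ρ (k + 1) ω) ω -
          c / 2 * grid Z ε T ρ (k + 1) ω) ∂P)
          (∫ ω in B, Real.exp (Z (grid Z ε T ρ k ω) ω - c / 2 * grid Z ε T ρ k ω) ∂P) (P.real B)
        linarith
    have hkT : ∀ k, |∫ ω in B, Real.exp (Z (grid Z ε T ρ k ω) ω -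
          c / 2 * grid Z ε T ρ k ω) ∂P - P.real B| ≤ ε * (C2 * T) := by
      intro k
      refine (tele k).trans ?_
      have h1 : ∫ ω, (grid Z ε T ρ k ω : ℝ) ∂P ≤ T := by
        have : ∫ ω, (grid Z ε T ρ k ω : ℝ) ∂P ≤ ∫ _ : Ω, (T : ℝ) ∂P :=
          integral_mono (int_time (gs k) (gT k)) (integrable_const _) fun ω => by
            exact_mod_cast gT k ω
        simpa using this
      calc ε * C2 * ∫ ω, (grid Z ε T ρ k ω : ℝ) ∂P ≤ ε * C2 * T :=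
            mul_le_mul_of_nonneg_left h1 (by positivity)
        _ = ε * (C2 * T) := by ring
    have hlim : Tendsto (fun k => ∫ ω in B, Real.exp (Z (grid Z ε T ρ k ω) ω -
          c / 2 * grid Z ε T ρ k ω) ∂P) atTop
        (𝓝 (∫ ω in B, Real.exp (Z (ρ ω) ω - c / 2 * ρ ω) ∂P)) := by
      refine tendsto_integral_of_dominated_convergence (fun _ => Real.exp Kz)
        (fun k => ?_) (integrable_const _) (fun k => Eventually.of_forall fun ω => ?_)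
        (Eventually.of_forall fun ω => ?_)
      · exact (hmeas _ (meas_of_le (gs k))).aestronglyMeasurable
      · rw [Real.norm_eq_abs, abs_of_pos (Real.exp_pos _)]
        exact hbound _ (gl k) ω
      · refine tendsto_const_nhds.congr' ?_
        filter_upwards [grid_eventually (Z := Z) (ε := ε) (T := T) (ρ := ρ) hc hε hT ω] with k hk
        rw [hk]
    exact le_of_tendsto (hlim.sub_const _).abs (Eventually.of_forall hkT)
  -- let the grid size tend to zero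
  have h0 : |∫ ω in B, Real.exp (Z (ρ ω) ω - c / 2 * ρ ω) ∂P - P.real B| ≤ 0 := by
    have hl : Tendsto (fun ε : ℝ => ε * (C2 * T)) (𝓝[>] 0) (𝓝 0) := by
      have : Tendsto (fun ε : ℝ => ε * (C2 * T)) (𝓝 0) (𝓝 (0 * (C2 * T))) :=
        tendsto_id.mul_const _
      rw [zero_mul] at this
      exact this.mono_left nhdsWithin_le_nhds
    refine ge_of_tendsto hl ?_
    have hpos : (0 : ℝ) < 1 / (1 + c / 2) := by positivity
    filter_upwards [Ioo_mem_nhdsGT hpos] with ε hε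
    have h1 : ε * (1 + c / 2) ≤ 1 := by
      have := hε.2.le
      rwa [le_div_iff₀ (by positivity)] at this
    have h2 : ε ≤ 1 := by
      have h3 : ε * 1 ≤ ε * (1 + c / 2) := mul_le_mul_of_nonneg_left (by linarith) hε.1.le
      linarith
    exact key ε hε.1 h1 h2
  have h1 := abs_nonpos_iff.mp h0
  linarith

end Pool.Agent.Y982.HW
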