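import Mathlib
import Pool.Agent.Y982.HW.Exp2

open MeasureTheory Filter Topology
open scoped NNReal ENNReal

namespace Pool.Agent.Y982.HW

variable {Ω : Type*} {m : MeasurableSpace Ω} {P : Measure Ω}

/-- the exponent -/
noncomputable def expo {A : Type*} [Fintype A] (N : A → ℝ≥0 → Ω → ℝ) (b : A → ℝ) (s : ℝ≥0)
    (ω : Ω) : ℝ := ∑ a, b a * N a s ω - (∑ a, b a ^ 2) / 2 * s

theorem expo_shift {A : Type*} [Fintype A] [DecidableEq A] (N : A → ℝ≥0 → Ω → ℝ) (v : A → ℝ)
    (a : A) (l : ℝ) (s : ℝ≥0) (ω : Ω) :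
    expo N (v + Pi.single a l) s ω =
      expo N v s ω + (l * (N a s ω - s * v a) - l ^ 2 / 2 * s) := by
  unfold expo
  have h1 : ∑ a', (v + Pi.single a l : A → ℝ) a' * N a' s ω = ∑ a', v a' * N a' s ω + l * N a s ω := by
    simp only [Pi.add_apply, add_mul, Finset.sum_add_distrib]
    congr 1
    rw [Finset.sum_eq_single a]
    · simp
    · intro b _ hb
      simp [Pi.single_eq_of_ne hb]
    · simp
  have h2 : ∑ a', (v + Pi.single a l : A → ℝ) a' ^ 2 = ∑ a', v a' ^ 2 + (2 * l * v a + l ^ 2) := by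
    have : ∀ a', (v + Pi.single a l : A → ℝ) a' ^ 2 = v a' ^ 2 +
        (2 * (Pi.single a l : A → ℝ) a' * v a' + (Pi.single a l : A → ℝ) a' ^ 2) := by
      intro a'
      simp only [Pi.add_apply]; ring
    simp only [this, Finset.sum_add_distrib]
    congr 1
    rw [Finset.sum_eq_single a, Finset.sum_eq_single a]
    · simp
    · intro b _ hb
      simp [Pi.single_eq_of_ne hb]
    · simp
    · intro b _ hb
      simp [Pi.single_eq_of_ne hb]
    · simp
  rw [h1, h2]
  ring

/-- Tube lemma: exponential martingales give a lower bound for the probability to stay in a tube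
around a line. -/
theorem tube [IsProbabilityMeasure P] {A : Type*} [Fintype A] [DecidableEq A]
    (hA : Fintype.card A ≤ 2) {N : A → ℝ≥0 → Ω → ℝ} (hm : ∀ a t, Measurable (N a t))
    {v : A → ℝ} {κ : ℝ} {t0 : ℝ≥0} (hκ : 0 < κ) (hκt : κ ^ 2 = 6 * t0) {ρ : Ω → ℝ≥0}
    (hρ : ∀ ω, ρ ω ≤ t0) {B : Set Ω} (hBm : MeasurableSet B)
    (hexit : ∀ ω ∈ B, (ρ ω = t0 ∧ ∀ a, |N a t0 ω - t0 * v a| ≤ κ) ∨
      ∃ a, κ ≤ |N a (ρ ω) ω - ρ ω * v a|)
    (hexp : ∀ b : A → ℝ, IntegrableOn (fun ω => Real.exp (expo N b (ρ ω) ω)) B P ∧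
      ∫ ω in B, Real.exp (expo N b (ρ ω) ω) ∂P = P.real B) :
    P.real B ≤ 2 * Real.exp (∑ a, (|v a| * κ + v a ^ 2 * t0)) *
      P.real ({ω | ∀ a, |N a t0 ω - t0 * v a| ≤ κ} ∩ B) := by
  have ht0 : (0 : ℝ) < t0 := by
    have : 0 < κ ^ 2 := by positivity
    linarith
  set l : ℝ := κ / t0 with hl
  have hlpos : 0 < l := by positivity
  set Tb : Set Ω := {ω | ∀ a, |N a t0 ω - t0 * v a| ≤ κ} with hTb
  have mTb : MeasurableSet Tb := by
    have : Tb = ⋂ a, {ω | |N a t0 ω - t0 * v a| ≤ κ} := by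
      ext ω; simp [hTb]
    rw [this]
    exact MeasurableSet.iInter fun a => measurableSet_le
      (continuous_abs.measurable.comp ((hm a t0).sub_const _)) measurable_const
  set Cv : ℝ := Real.exp (∑ a, (|v a| * κ + v a ^ 2 * t0)) with hCv
  have hl3 : l * κ - l ^ 2 / 2 * t0 = 3 := by
    rw [hl]
    field_simp
    rw [hκt]; ring
  have ptw : ∀ ω ∈ B, Real.exp (expo N v (ρ ω) ω) ≤ Cv * Tb.indicator (fun _ => (1 : ℝ)) ω +
      Real.exp (-3) * ∑ a, (Real.exp (expo N (v + Pi.single a l) (ρ ω) ω) +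
        Real.exp (expo N (v + Pi.single a (-l)) (ρ ω) ω)) := by
    intro ω hω
    obtain ⟨f, hf⟩ : ∃ f : A → ℝ, f = fun a => (Real.exp (expo N (v + Pi.single a l) (ρ ω) ω) +
        Real.exp (expo N (v + Pi.single a (-l)) (ρ ω) ω)) := ⟨_, rfl⟩
    have hfs : ∑ a, (Real.exp (expo N (v + Pi.single a l) (ρ ω) ω) +
        Real.exp (expo N (v + Pi.single a (-l)) (ρ ω) ω)) = ∑ a, f a := by rw [hf]
    have hfa : ∀ a, f a = Real.exp (expo N (v + Pi.single a l) (ρ ω) ω) +
        Real.exp (expo N (v + Pi.single a (-l)) (ρ ω) ω) := fun a => by rw [hf]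
    rw [hfs]
    have nn : ∀ a, 0 ≤ f a := fun a => by rw [hfa]; positivity
    have nns : 0 ≤ ∑ a, f a := Finset.sum_nonneg fun a _ => nn a
    rcases hexit ω hω with ⟨h1, h2⟩ | ⟨a, h1⟩
    · have hT : ω ∈ Tb := h2
      rw [Set.indicator_of_mem hT, mul_one]
      have h3 : expo N v (ρ ω) ω ≤ ∑ a, (|v a| * κ + v a ^ 2 * t0) := by
        unfold expo
        rw [h1]
        have h4 : ∑ a, v a * N a t0 ω ≤ ∑ a, (|v a| * κ + v a ^ 2 * t0) := by
          refine Finset.sum_le_sum fun a _ => ?_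
          have h5 : v a * (N a t0 ω - t0 * v a) ≤ |v a| * κ := by
            refine (le_abs_self _).trans ?_
            rw [abs_mul]
            exact mul_le_mul_of_nonneg_left (h2 a) (abs_nonneg _)
          have h6 : v a * N a t0 ω = v a * (N a t0 ω - t0 * v a) + v a ^ 2 * t0 := by ring
          rw [h6]; linarith
        have h5 : 0 ≤ (∑ a, v a ^ 2) / 2 * (t0 : ℝ) := by
          have : 0 ≤ ∑ a, v a ^ 2 := Finset.sum_nonneg fun a _ => sq_nonneg _
          positivity
        linarith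
      have h4 := Real.exp_le_exp.mpr h3
      have h5 : 0 ≤ Real.exp (-3) * ∑ a, f a := mul_nonneg (Real.exp_pos _).le nns
      linarith
    · have h0 : 0 ≤ Cv * Tb.indicator (fun _ => (1 : ℝ)) ω :=
        mul_nonneg (Real.exp_pos _).le (Set.indicator_nonneg (fun _ _ => zero_le_one) _)
      have hρ' : (ρ ω : ℝ) ≤ t0 := by exact_mod_cast hρ ω
      have hbase : l ^ 2 / 2 * (ρ ω : ℝ) ≤ l ^ 2 / 2 * t0 :=
        mul_le_mul_of_nonneg_left hρ' (by positivity)
      have hone : Real.exp (expo N v (ρ ω) ω) ≤ Real.exp (-3) * f a := by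
        rw [hfa, mul_add, ← Real.exp_add, ← Real.exp_add, expo_shift, expo_shift]
        rcases le_abs.mp h1 with h2 | h2
        · have h3 : l * κ ≤ l * (N a (ρ ω) ω - ρ ω * v a) := mul_le_mul_of_nonneg_left h2 hlpos.le
          have h4 : Real.exp (expo N v (ρ ω) ω) ≤ Real.exp (-3 + (expo N v (ρ ω) ω +
              (l * (N a (ρ ω) ω - ρ ω * v a) - l ^ 2 / 2 * (ρ ω : ℝ)))) := by
            apply Real.exp_le_exp.mpr
            linarith
          have h5 := (Real.exp_pos (-3 + (expo N v (ρ ω) ω +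
            (-l * (N a (ρ ω) ω - ρ ω * v a) - (-l) ^ 2 / 2 * (ρ ω : ℝ))))).le
          linarith
        · have h3 : l * κ ≤ l * (-(N a (ρ ω) ω - ρ ω * v a)) :=
            mul_le_mul_of_nonneg_left h2 hlpos.le
          have h4 : Real.exp (expo N v (ρ ω) ω) ≤ Real.exp (-3 + (expo N v (ρ ω) ω +
              (-l * (N a (ρ ω) ω - ρ ω * v a) - (-l) ^ 2 / 2 * (ρ ω : ℝ)))) := by
            apply Real.exp_le_exp.mpr
            have : (-l) ^ 2 = l ^ 2 := by ring
            rw [this]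
            linarith
          have h5 := (Real.exp_pos (-3 + (expo N v (ρ ω) ω +
            (l * (N a (ρ ω) ω - ρ ω * v a) - l ^ 2 / 2 * (ρ ω : ℝ))))).le
          linarith
      have h6 : f a ≤ ∑ a, f a :=
        Finset.single_le_sum (f := f) (fun a _ => nn a) (Finset.mem_univ a)
      have h7 := mul_le_mul_of_nonneg_left h6 (Real.exp_pos (-3)).le
      linarith
  have isum : IntegrableOn (fun ω => ∑ a, (Real.exp (expo N (v + Pi.single a l) (ρ ω) ω) +
        Real.exp (expo N (v + Pi.single a (-l)) (ρ ω) ω))) B P :=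
    integrable_finsetSum _ fun a _ => (hexp _).1.add (hexp _).1
  have iC : IntegrableOn (fun ω => Cv * Tb.indicator (fun _ => (1 : ℝ)) ω) B P :=
    (int_ind' mTb).const_mul _
  have u : ∫ ω in B, Real.exp (expo N v (ρ ω) ω) ∂P ≤
      ∫ ω in B, (Cv * Tb.indicator (fun _ => (1 : ℝ)) ω +
      Real.exp (-3) * ∑ a, (Real.exp (expo N (v + Pi.single a l) (ρ ω) ω) +
        Real.exp (expo N (v + Pi.single a (-l)) (ρ ω) ω))) ∂P :=
    setIntegral_mono_on (hexp v).1 (iC.add (isum.const_mul (Real.exp (-3)))) hBm ptw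
  have ipair : ∀ a : A, IntegrableOn (fun ω => Real.exp (expo N (v + Pi.single a l) (ρ ω) ω) +
        Real.exp (expo N (v + Pi.single a (-l)) (ρ ω) ω)) B P := fun a =>
    (hexp _).1.add (hexp _).1
  rw [(hexp v).2, integral_add iC (isum.const_mul _), integral_const_mul, integral_const_mul,
    int_ind mTb, integral_finsetSum _ fun a _ => ipair a] at u
  have s1 : ∑ a : A, ∫ ω in B, (Real.exp (expo N (v + Pi.single a l) (ρ ω) ω) +
        Real.exp (expo N (v + Pi.single a (-l)) (ρ ω) ω)) ∂P = ∑ a : A, 2 * P.real B := by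
    refine Finset.sum_congr rfl fun a _ => ?_
    rw [integral_add (hexp _).1 (hexp _).1, (hexp _).2, (hexp _).2]
    ring
  rw [s1, Finset.sum_const, Finset.card_univ, nsmul_eq_mul] at u
  have hcard : (Fintype.card A : ℝ) ≤ 2 := by exact_mod_cast hA
  have he3 : Real.exp (-3) ≤ 1 / 8 := by
    rw [Real.exp_neg]
    have h1 : (8 : ℝ) ≤ Real.exp 3 := by
      have h2 := Real.add_one_le_exp (1 : ℝ)
      have h3 : Real.exp 3 = Real.exp 1 * Real.exp 1 * Real.exp 1 := by
        rw [← Real.exp_add, ← Real.exp_add]; norm_num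
      rw [h3]
      generalize Real.exp 1 = e at h2
      have h4 : (2 : ℝ) ≤ e := by linarith
      have h5 : 4 ≤ e * e := by nlinarith
      nlinarith
    rw [inv_le_comm₀ (Real.exp_pos 3) (by norm_num)]
    linarith
  have hPB : 0 ≤ P.real B := measureReal_nonneg
  have h9 : Real.exp (-3) * ((Fintype.card A : ℝ) * (2 * P.real B)) ≤ 1 / 2 * P.real B := by
    have h10 : (Fintype.card A : ℝ) * (2 * P.real B) ≤ 4 * P.real B := by nlinarith
    calc Real.exp (-3) * ((Fintype.card A : ℝ) * (2 * P.real B))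
        ≤ 1 / 8 * (4 * P.real B) :=
          mul_le_mul he3 h10 (by positivity) (by norm_num)
      _ = 1 / 2 * P.real B := by ring
  linarith

end Pool.Agent.Y982.HW
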