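import Mathlib
import Pool.Agent.Y982.HW.Tube

open MeasureTheory Filter Topology
open scoped NNReal ENNReal

namespace Pool.Agent.Y982.HW

variable {Ω : Type*} {m : MeasurableSpace Ω} {𝓕 : Filtration ℝ≥0 m} {P : Measure Ω}

theorem mart_const1 [IsProbabilityMeasure P] {f : Ω → ℝ} (hf : Measurable[𝓕 0] f)
    (hi : Integrable f P) : Martingale (fun _ => f) 𝓕 P := by
  refine martingale_const_fun 𝓕 P ?_ hi
  rw [bot_eq_zero]
  exact hf.stronglyMeasurable

theorem mart_mul0 [IsProbabilityMeasure P] {f : Ω → ℝ} (hf : Measurable[𝓕 0] f)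
    (hf2 : MemLp f 2 P) {W : ℝ≥0 → Ω → ℝ} (hW : Martingale W 𝓕 P) (hW2 : ∀ t, MemLp (W t) 2 P) :
    Martingale (fun t ω => f ω * W t ω) 𝓕 P := by
  have hft : ∀ t, Measurable[𝓕 t] f := fun t => hf.mono (𝓕.mono zero_le) le_rfl
  have hint : ∀ t, Integrable (f * W t) P := fun t => hf2.integrable_mul (hW2 t)
  refine ⟨fun t => ((hft t).mul (hW.1 t).measurable).stronglyMeasurable, fun s t hst => ?_⟩
  have h1 : P[f * W t | 𝓕 s] =ᵐ[P] f * P[W t | 𝓕 s] :=
    condExp_mul_of_stronglyMeasurable_left (hft s).stronglyMeasurable (hint t) (hW.integrable t)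
  have h2 : (fun ω => f ω * W t ω) = f * W t := rfl
  change P[fun ω => f ω * W t ω | 𝓕 s] =ᵐ[P] fun ω => f ω * W s ω
  rw [h2]
  filter_upwards [h1, hW.2 s t hst] with ω h3 h4
  rw [h3, Pi.mul_apply, h4]

theorem sq_norm [IsProbabilityMeasure P] {W V : ℝ≥0 → Ω → ℝ} (hW : Martingale W 𝓕 P)
    (hW2 : ∀ t, MemLp (W t) 2 P) (hq : Martingale (fun t ω => W t ω ^ 2 - V t ω) 𝓕 P) :
    Martingale (fun t ω => (W t ω - W 0 ω) ^ 2 - V t ω) 𝓕 P := by
  have m0 : Measurable[𝓕 0] (W 0) := (hW.1 0).measurable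
  have h1 := mart_mul0 m0 (hW2 0) hW hW2
  have h2 := mart_const1 (𝓕 := 𝓕) (P := P) (f := fun ω => W 0 ω ^ 2) (m0.pow_const 2)
    (hW2 0).integrable_sq
  have h3 := (hq.sub (h1.smul (2 : ℝ))).add h2
  have h4 : (fun t ω => (W t ω - W 0 ω) ^ 2 - V t ω) =
      ((fun t ω => W t ω ^ 2 - V t ω) - (2 : ℝ) • fun t ω => W 0 ω * W t ω) +
        fun _ ω => W 0 ω ^ 2 := by
    funext t ω
    simp only [Pi.add_apply, Pi.sub_apply, Pi.smul_apply, smul_eq_mul]
    ring
  rw [h4]; exact h3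

theorem norm_mart [IsProbabilityMeasure P] {W : ℝ≥0 → Ω → ℝ} (hW : Martingale W 𝓕 P) :
    Martingale (fun t ω => W t ω - W 0 ω) 𝓕 P := by
  have m0 : Measurable[𝓕 0] (W 0) := (hW.1 0).measurable
  exact hW.sub (mart_const1 m0 (hW.integrable 0))

/-- Exit time of a tube. -/
theorem tube_exit {A : Type*} [Fintype A] [Nonempty A] {N : A → ℝ≥0 → Ω → ℝ}
    (hc : ∀ a ω, Continuous fun t => N a t ω) (ha : ∀ a t, Measurable[𝓕 t] (N a t))
    (h0 : ∀ a ω, N a 0 ω = 0) (v : A → ℝ) {κ : ℝ} (hκ : 0 < κ) (t0 : ℝ≥0) {B : Set Ω}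
    (hB : MeasurableSet[𝓕 0] B) :
    ∃ ρ : Ω → ℝ≥0, (∀ t, MeasurableSet[𝓕 t] {ω | ρ ω ≤ t}) ∧ (∀ ω, ρ ω ≤ t0) ∧
      (∀ ω ∉ B, ρ ω = 0) ∧ (∀ ω ∈ B, ∀ s ≤ ρ ω, ∀ a, |N a s ω - s * v a| ≤ κ) ∧
      ∀ ω ∈ B, (ρ ω = t0 ∧ ∀ a, |N a t0 ω - t0 * v a| ≤ κ) ∨
        ∃ a, κ ≤ |N a (ρ ω) ω - ρ ω * v a| := by
  classical
  set Φ : ℝ≥0 → Ω → ℝ := fun s ω => if ω ∈ B then
    Finset.univ.inf' Finset.univ_nonempty (fun a => κ - |N a s ω - s * v a|) else -1 with hΦ
  have hΦB : ∀ s, ∀ ω ∈ B, Φ s ω =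
      Finset.univ.inf' Finset.univ_nonempty (fun a => κ - |N a s ω - s * v a|) := by
    intro s ω hω
    simp only [hΦ, hω, if_true]
  have hΦn : ∀ s, ∀ ω ∉ B, Φ s ω = -1 := by
    intro s ω hω
    simp only [hΦ, hω, if_false]
  have hΦc : ∀ ω, Continuous fun t => Φ t ω := by
    intro ω
    by_cases hω : ω ∈ B
    · simp only [hΦ, hω, if_true]
      refine Continuous.finset_inf'_apply Finset.univ_nonempty fun a _ => ?_
      exact continuous_const.sub ((hc a ω).sub (NNReal.continuous_coe.mul continuous_const)).abs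
    · simp only [hΦ, hω, if_false]
      exact continuous_const
  have hΦa : ∀ t, Measurable[𝓕 t] (Φ t) := by
    intro t
    refine Measurable.ite (𝓕.mono zero_le _ hB) ?_ measurable_const
    have hg : Measurable fun y : A → ℝ =>
        Finset.univ.inf' Finset.univ_nonempty (fun a => κ - |y a - t * v a|) := by
      have : Continuous fun y : A → ℝ =>
        Finset.univ.inf' Finset.univ_nonempty (fun a => κ - |y a - t * v a|) :=
        Continuous.finset_inf'_apply Finset.univ_nonempty fun a _ =>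
          continuous_const.sub ((continuous_apply a).sub continuous_const).abs
      exact this.measurable
    have hp : Measurable[𝓕 t] (fun (ω : Ω) (a : A) => N a t ω) :=
      @measurable_pi_lambda Ω A (fun _ => ℝ) (𝓕 t) _ (fun ω a => N a t ω) fun a => ha a t
    exact hg.comp hp
  refine ⟨hit Φ t0, fun t => hit_meas hΦc hΦa t0 t, fun ω => hit_le _ _ _, ?_, ?_, ?_⟩
  · intro ω hω
    have h1 : hit Φ t0 ω ≤ 0 := hit_le_of zero_le (by rw [hΦn 0 ω hω]; norm_num)
    exact le_antisymm h1 zero_le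
  · intro ω hω s hs a
    have h1 : 0 ≤ Φ s ω := by
      rcases lt_or_eq_of_le hs with h2 | h2
      · exact (pos_of_lt_hit h2).le
      · rw [h2]
        refine hit_nonneg (hΦc ω) ?_
        rw [hΦB 0 ω hω, Finset.le_inf'_iff]
        intro a _
        rw [h0 a ω]
        simp [hκ.le]
    rw [hΦB s ω hω, Finset.le_inf'_iff] at h1
    linarith [h1 a (Finset.mem_univ a)]
  · intro ω hω
    by_cases h1 : Φ (hit Φ t0 ω) ω ≤ 0
    · right
      rw [hΦB _ ω hω] at h1
      obtain ⟨a, _, h2⟩ := Finset.exists_mem_eq_inf' Finset.univ_nonempty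
        (fun a => κ - |N a (hit Φ t0 ω) ω - (hit Φ t0 ω : ℝ≥0) * v a|)
      rw [h2] at h1
      exact ⟨a, by linarith⟩
    · left
      have h2 : hit Φ t0 ω = t0 := by
        rcases hit_mem (T := t0) (hΦc ω) with h3 | h3
        · exact h3
        · exact absurd h3 h1
      refine ⟨h2, fun a => ?_⟩
      rw [h2, hΦB t0 ω hω, not_le, Finset.lt_inf'_iff] at h1
      linarith [h1 a (Finset.mem_univ a)]

/-- One-particle tube estimate. -/
theorem tube_one [IsProbabilityMeasure P] {W : ℝ≥0 → Ω → ℝ} (w : BM 𝓕 P W) (v : ℝ) {κ : ℝ}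
    {t0 : ℝ≥0} (hκ : 0 < κ) (hκt : κ ^ 2 = 6 * t0) {B : Set Ω} (hB : MeasurableSet[𝓕 0] B) :
    P.real B ≤ 2 * Real.exp (|v| * κ + v ^ 2 * t0) *
      P.real ({ω | |W t0 ω - W 0 ω - t0 * v| ≤ κ} ∩ B) := by
  set N : Fin 1 → ℝ≥0 → Ω → ℝ := fun _ t ω => W t ω - W 0 ω with hN
  have hNm := norm_mart w.m
  have hNq := sq_norm (V := fun t _ => (t : ℝ)) w.m w.l2 w.q
  have hNc : ∀ ω, Continuous fun t => W t ω - W 0 ω := fun ω => (w.c ω).sub continuous_const
  have hNa : ∀ t, Measurable[𝓕 t] fun ω => W t ω - W 0 ω := fun t => (hNm.1 t).measurable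
  obtain ⟨ρ, r1, r2, r3, r4, r5⟩ := tube_exit (N := N) (fun _ => hNc) (fun _ => hNa)
    (fun _ ω => by simp [hN]) (fun _ => v) hκ t0 hB
  have hBm : MeasurableSet B := 𝓕.le 0 _ hB
  have h := tube (P := P) (A := Fin 1) (by simp) (N := N)
    (fun _ t => (hNa t).mono (𝓕.le t) le_rfl) (v := fun _ => v) hκ hκt r2 hBm r5 (fun b => by
      have hbound : ∀ ω, ∀ s ≤ ρ ω, |b 0 * (W s ω - W 0 ω)| ≤ |b 0| * (κ + t0 * |v|) := by
        intro ω s hs
        rw [abs_mul]
        refine mul_le_mul_of_nonneg_left ?_ (abs_nonneg _)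
        by_cases hω : ω ∈ B
        · have h1 := r4 ω hω s hs 0
          have h2 : |W s ω - W 0 ω| ≤ |W s ω - W 0 ω - s * v| + |s * v| := by
            have := abs_add_le (W s ω - W 0 ω - s * v) (s * v)
            simpa using this
          have h3 : |(s : ℝ) * v| ≤ t0 * |v| := by
            rw [abs_mul, abs_of_nonneg (NNReal.coe_nonneg s)]
            have : (s : ℝ) ≤ t0 := by exact_mod_cast hs.trans (r2 ω)
            exact mul_le_mul_of_nonneg_right this (abs_nonneg _)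
          have h1' : |W s ω - W 0 ω - s * v| ≤ κ := h1
          linarith
        · rw [r3 ω hω] at hs
          have : s = 0 := le_antisymm hs zero_le
          rw [this, sub_self, abs_zero]
          have := NNReal.coe_nonneg t0
          positivity
      have e := exp_mart (Z := fun t ω => b 0 * (W t ω - W 0 ω))
        (V := fun t _ => b 0 ^ 2 * (t : ℝ)) (P := P) (𝓕 := 𝓕) ((hNm.smul (b 0)).congr
          (fun t => ((hNa t).const_mul _).stronglyMeasurable) (fun t => Eventually.of_forall fun ω => by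
            simp)) (fun ω => (hNc ω).const_mul _)
        ((hNq.smul (b 0 ^ 2)).congr (fun t =>
            ((((hNa t).const_mul (b 0)).pow_const 2).sub_const _).stronglyMeasurable)
          (fun t => Eventually.of_forall fun ω => by
            simp only [Pi.smul_apply, smul_eq_mul]; ring))
        (fun ω => continuous_const.mul NNReal.continuous_coe) r1 r2 (Kz := |b 0| * (κ + t0 * |v|))
        (c := b 0 ^ 2) (sq_nonneg _) (fun ω => by simp) hbound (fun ω s _ => rfl) hB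
      have e2 : ∀ ω, expo N b (ρ ω) ω = b 0 * (W (ρ ω) ω - W 0 ω) - b 0 ^ 2 / 2 * ρ ω := by
        intro ω
        simp [expo, hN]
      simp only [e2]
      exact ⟨e.1.integrableOn, e.2⟩)
  simp only [Finset.univ_unique, Finset.sum_singleton] at h
  refine h.trans (le_of_eq ?_)
  congr 2
  ext ω
  simp [hN]

end Pool.Agent.Y982.HW
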