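import Mathlib
import Pool.Agent.Y982.HW.Norm
import Pool.Agent.Y982.HW.Flow

open MeasureTheory Filter Topology
open scoped NNReal ENNReal

namespace Pool.Agent.Y982.HW

section general

variable {Ω : Type*} {m : MeasurableSpace Ω} {𝓕 : Filtration ℝ≥0 m} {P : Measure Ω}

/-- Two-particle tube estimate. -/
theorem tube_two [IsProbabilityMeasure P] {W0 W1 : ℝ≥0 → Ω → ℝ} (w0 : BM 𝓕 P W0)
    (w1 : BM 𝓕 P W1)
    (qD : Martingale (fun t ω => (W1 t ω - W0 t ω) ^ 2 -
      2 * away (fun t ω => W1 t ω - W0 t ω) t ω) 𝓕 P) {v : Fin 2 → ℝ} (hv : v 0 ≤ v 1) {κ : ℝ}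
    {t0 : ℝ≥0} (hκ : 0 < κ) (hκ1 : κ ≤ 1 / 2) (hκt : κ ^ 2 = 6 * t0) {B : Set Ω}
    (hB : MeasurableSet[𝓕 0] B) (hsep : ∀ ω ∈ B, 1 < W1 0 ω - W0 0 ω) :
    P.real B ≤ 2 * Real.exp ((|v 0| * κ + v 0 ^ 2 * t0) + (|v 1| * κ + v 1 ^ 2 * t0)) *
      P.real ({ω | |W0 t0 ω - W0 0 ω - t0 * v 0| ≤ κ ∧
        |W1 t0 ω - W1 0 ω - t0 * v 1| ≤ κ} ∩ B) := by
  set N : Fin 2 → ℝ≥0 → Ω → ℝ := ![fun t ω => W0 t ω - W0 0 ω, fun t ω => W1 t ω - W1 0 ω]
    with hN
  have N0 : ∀ t ω, N 0 t ω = W0 t ω - W0 0 ω := fun t ω => rfl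
  have N1 : ∀ t ω, N 1 t ω = W1 t ω - W1 0 ω := fun t ω => rfl
  have hm0 := norm_mart w0.m
  have hm1 := norm_mart w1.m
  have hq0 := sq_norm (V := fun t _ => (t : ℝ)) w0.m w0.l2 w0.q
  have hq1 := sq_norm (V := fun t _ => (t : ℝ)) w1.m w1.l2 w1.q
  have mD : Martingale (fun t ω => W1 t ω - W0 t ω) 𝓕 P := w1.m.sub w0.m
  have lD : ∀ t, MemLp (fun ω => W1 t ω - W0 t ω) 2 P := fun t => (w1.l2 t).sub (w0.l2 t)
  have hqD := sq_norm (W := fun t ω => W1 t ω - W0 t ω)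
    (V := fun t ω => 2 * away (fun t ω => W1 t ω - W0 t ω) t ω) mD lD qD
  have cD : ∀ ω, Continuous fun t => W1 t ω - W0 t ω := fun ω => (w1.c ω).sub (w0.c ω)
  have hc0 : ∀ ω, Continuous fun t => W0 t ω - W0 0 ω := fun ω => (w0.c ω).sub continuous_const
  have hc1 : ∀ ω, Continuous fun t => W1 t ω - W1 0 ω := fun ω => (w1.c ω).sub continuous_const
  have hNc : ∀ a ω, Continuous fun t => N a t ω := by
    intro a ω
    fin_cases a
    · exact hc0 ω
    · exact hc1 ω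
  have hNa : ∀ a t, Measurable[𝓕 t] (N a t) := by
    intro a t
    fin_cases a
    · exact (hm0.1 t).measurable
    · exact (hm1.1 t).measurable
  have hNz : ∀ a ω, N a 0 ω = 0 := by
    intro a ω
    fin_cases a
    · exact sub_self _
    · exact sub_self _
  obtain ⟨ρ, r1, r2, r3, r4, r5⟩ := tube_exit (N := N) hNc hNa hNz v hκ t0 hB
  have hBm : MeasurableSet B := 𝓕.le 0 _ hB
  have hcard : Fintype.card (Fin 2) ≤ 2 := by simp
  -- the particles do not meet before the exit time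
  have hsep' : ∀ ω ∈ B, ∀ s ≤ ρ ω, 0 < W1 s ω - W0 s ω := by
    intro ω hω s hs
    have h0 := (abs_le.mp (r4 ω hω s hs 0)).2
    have h1 := (abs_le.mp (r4 ω hω s hs 1)).1
    rw [N0] at h0
    rw [N1] at h1
    have h2 := hsep ω hω
    have h3 : (s : ℝ) * v 0 ≤ s * v 1 := mul_le_mul_of_nonneg_left hv (NNReal.coe_nonneg s)
    linarith
  have haway : ∀ ω ∈ B, ∀ s ≤ ρ ω, away (fun t ω => W1 t ω - W0 t ω) s ω = s := by
    intro ω hω s hs
    exact away_eq (D := fun t ω => W1 t ω - W0 t ω) fun u hu => hsep' ω hω u (hu.le.trans hs)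
  have h := tube (P := P) (A := Fin 2) hcard (N := N)
    (fun a t => (hNa a t).mono (𝓕.le t) le_rfl) (v := v) hκ hκt r2 hBm r5 (fun b => by
      have hbd : ∀ a : Fin 2, ∀ ω, ∀ s ≤ ρ ω, |b a * N a s ω| ≤ |b a| * (κ + t0 * |v a|) := by
        intro a ω s hs
        rw [abs_mul]
        refine mul_le_mul_of_nonneg_left ?_ (abs_nonneg _)
        by_cases hω : ω ∈ B
        · have h1 := r4 ω hω s hs a
          have h2 : |N a s ω| ≤ |N a s ω - s * v a| + |s * v a| := by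
            have := abs_add_le (N a s ω - s * v a) (s * v a)
            simpa using this
          have h3 : |(s : ℝ) * v a| ≤ t0 * |v a| := by
            rw [abs_mul, abs_of_nonneg (NNReal.coe_nonneg s)]
            have : (s : ℝ) ≤ t0 := by exact_mod_cast hs.trans (r2 ω)
            exact mul_le_mul_of_nonneg_right this (abs_nonneg _)
          linarith
        · rw [r3 ω hω] at hs
          have : s = 0 := le_antisymm hs zero_le
          rw [this, hNz, abs_zero]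
          have := NNReal.coe_nonneg t0
          positivity
      have hZm : Martingale (fun t ω => b 0 * (W0 t ω - W0 0 ω) + b 1 * (W1 t ω - W1 0 ω)) 𝓕 P :=
        (hm0.smul (b 0)).add (hm1.smul (b 1))
      have hZq : Martingale (fun t ω =>
          (b 0 * (W0 t ω - W0 0 ω) + b 1 * (W1 t ω - W1 0 ω)) ^ 2 -
          ((b 0 ^ 2 + 2 * (b 0 * b 1) + b 1 ^ 2) * (t : ℝ) - 2 * (b 0 * b 1) *
            away (fun t ω => W1 t ω - W0 t ω) t ω)) 𝓕 P := by
        have h1 := ((hq0.smul (b 0 ^ 2 + b 0 * b 1)).add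
          (hq1.smul (b 1 ^ 2 + b 0 * b 1))).sub (hqD.smul (b 0 * b 1))
        have h2 : (fun t ω =>
          (b 0 * (W0 t ω - W0 0 ω) + b 1 * (W1 t ω - W1 0 ω)) ^ 2 -
          ((b 0 ^ 2 + 2 * (b 0 * b 1) + b 1 ^ 2) * (t : ℝ) - 2 * (b 0 * b 1) *
            away (fun t ω => W1 t ω - W0 t ω) t ω)) =
          (((b 0 ^ 2 + b 0 * b 1) • fun (t : ℝ≥0) ω => (W0 t ω - W0 0 ω) ^ 2 - (t : ℝ)) +
          (b 1 ^ 2 + b 0 * b 1) • fun (t : ℝ≥0) ω => (W1 t ω - W1 0 ω) ^ 2 - (t : ℝ)) -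
          (b 0 * b 1) • fun (t : ℝ≥0) ω => ((W1 t ω - W0 t ω) - (W1 0 ω - W0 0 ω)) ^ 2 -
            2 * away (fun t ω => W1 t ω - W0 t ω) t ω := by
          funext t ω
          simp only [Pi.add_apply, Pi.sub_apply, Pi.smul_apply, smul_eq_mul]
          ring
        rw [h2]; exact h1
      have e := exp_mart (P := P) (𝓕 := 𝓕) hZm
        (fun ω => ((hc0 ω).const_mul _).add ((hc1 ω).const_mul _)) hZq
        (fun ω => (continuous_const.mul NNReal.continuous_coe).sub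
          (continuous_const.mul (away_cont (D := fun t ω => W1 t ω - W0 t ω) (cD ω)))) r1 r2
        (Kz := |b 0| * (κ + t0 * |v 0|) + |b 1| * (κ + t0 * |v 1|))
        (c := b 0 ^ 2 + b 1 ^ 2) (by positivity) (fun ω => by simp)
        (fun ω s hs => (abs_add_le _ _).trans (add_le_add (hbd 0 ω s hs) (hbd 1 ω s hs)))
        (fun ω s hs => by
          by_cases hω : ω ∈ B
          · rw [haway ω hω s hs]; ring
          · rw [r3 ω hω] at hs
            have : s = 0 := le_antisymm hs zero_le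
            rw [this, away_zero]
            simp) hB
      have e2 : ∀ ω, expo N b (ρ ω) ω = b 0 * (W0 (ρ ω) ω - W0 0 ω) +
          b 1 * (W1 (ρ ω) ω - W1 0 ω) - (b 0 ^ 2 + b 1 ^ 2) / 2 * ρ ω := by
        intro ω
        simp only [expo, Fin.sum_univ_two, N0, N1]
      simp only [e2]
      exact ⟨e.1.integrableOn, e.2⟩)
  simp only [Fin.sum_univ_two] at h
  refine h.trans (le_of_eq ?_)
  congr 2
  ext ω
  simp only [Fin.forall_fin_two, N0, N1]

end general

end Pool.Agent.Y982.HW
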