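import Mathlib
import Pool.Agent.Y982.HW.Tube2

open MeasureTheory Filter Topology
open scoped NNReal ENNReal

namespace Pool.Agent.Y982.HW

theorem expo_bd {κ t0 v : ℝ} (hκ : 0 < κ) (hκt : κ ^ 2 = 6 * t0) (hv : |t0 * v| ≤ 4 * κ) :
    |v| * κ + v ^ 2 * t0 ≤ 120 := by
  have ht0 : 0 < t0 := by
    have : 0 < κ ^ 2 := by positivity
    linarith
  rw [abs_mul, abs_of_pos ht0] at hv
  have h1 : t0 * (|v| * κ) ≤ t0 * 24 := by
    have := mul_le_mul_of_nonneg_right hv hκ.le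
    nlinarith
  have h2 : |v| * κ ≤ 24 := le_of_mul_le_mul_left h1 ht0
  have h3 : t0 * (v ^ 2 * t0) ≤ t0 * 96 := by
    have h4 : (t0 * |v|) ^ 2 ≤ (4 * κ) ^ 2 := pow_le_pow_left₀ (by positivity) hv 2
    have h5 : (t0 * |v|) ^ 2 = t0 * (v ^ 2 * t0) := by
      rw [mul_pow, sq_abs]; ring
    rw [h5] at h4
    nlinarith
  have h4 : v ^ 2 * t0 ≤ 96 := le_of_mul_le_mul_left h3 ht0
  linarith

/-- the constant of the tube estimate -/
noncomputable def pt : ℝ := Real.exp (-240) / 2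

theorem pt_pos : 0 < pt := by unfold pt; positivity

theorem pt_of {a b E : ℝ} (hE : E ≤ 240) (hb : 0 ≤ b) (h : a ≤ 2 * Real.exp E * b) :
    pt * a ≤ b := by
  have h1 : Real.exp E ≤ Real.exp 240 := Real.exp_le_exp.mpr hE
  have h2 : a ≤ 2 * Real.exp 240 * b := by
    refine h.trans ?_
    exact mul_le_mul_of_nonneg_right (by linarith) hb
  have h3 : pt * a ≤ pt * (2 * Real.exp 240 * b) := mul_le_mul_of_nonneg_left h2 pt_pos.le
  have h4 : Real.exp (-240) * Real.exp 240 = 1 := by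
    rw [← Real.exp_add]; norm_num
  have h5 : pt * (2 * Real.exp 240 * b) = b := by
    unfold pt
    calc Real.exp (-240) / 2 * (2 * Real.exp 240 * b)
        = (Real.exp (-240) * Real.exp 240) * b := by ring
      _ = b := by rw [h4, one_mul]
  linarith

theorem markov1 {Ω : Type*} {m : MeasurableSpace Ω} {P : Measure Ω} [IsProbabilityMeasure P]
    {f : Ω → ℝ} {B : Set Ω} {κ : ℝ} (hB : MeasurableSet B) (hm : Measurable f)
    (hi : Integrable f P) (h0 : ∀ ω, 0 ≤ f ω) :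
    κ * P.real ({ω | κ ≤ f ω} ∩ B) ≤ ∫ ω in B, f ω ∂P := by
  have hE : MeasurableSet {ω | κ ≤ f ω} := measurableSet_le measurable_const hm
  have h1 : ∫ ω in B, κ * ({ω | κ ≤ f ω}).indicator (fun _ => (1 : ℝ)) ω ∂P ≤
      ∫ ω in B, f ω ∂P := by
    refine setIntegral_mono_on ((int_ind' hE).const_mul _) hi.integrableOn hB fun ω _ => ?_
    by_cases h : ω ∈ {ω | κ ≤ f ω}
    · rw [Set.indicator_of_mem h, mul_one]
      exact h
    · rw [Set.indicator_of_notMem h, mul_zero]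
      exact h0 ω
  rwa [integral_const_mul, int_ind hE] at h1

namespace HWSolution

set_option linter.unusedSectionVars false

variable {Ω : Type*} [MeasurableSpace Ω] {P : Measure Ω} [IsProbabilityMeasure P] {β : ℝ}
  {ν : Measure unitInterval} [IsFiniteMeasure ν] {n : ℕ} {x : Fin n → ℝ}
  {X : ℝ≥0 → Ω → Fin n → ℝ}

theorem sel_meas (h : HWSolution P β ν x X) (r T : ℝ≥0) {κ : Ω → Fin n}
    (hκ : ∀ k, MeasurableSet[h.F r] {ω | κ ω = k}) : Measurable fun ω => X (r + T) ω (κ ω) :=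
  meas_select (κ := κ) (fun k => h.F.le r _ (hκ k)) (f := fun k ω => X (r + T) ω k)
    fun k => (h.adXi (r + T) k).mono (h.F.le _) le_rfl

theorem tail_left (h : HWSolution P β ν x X) (hν : FiniteSpeed ν) (I : Finset (Fin n))
    (hI : I.Nonempty) (r T : ℝ≥0) {B : Set Ω} (hB : MeasurableSet[h.F r] B) (κ : ℝ) :
    κ * P.real ({ω | κ ≤ I.sup' hI (X (r + T) ω) - X (r + T) ω (imax I hI (X r ω))} ∩ B) ≤
      spd ν * T * P.real B := by
  have hBm : MeasurableSet B := h.F.le r _ hB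
  obtain ⟨d1, d2, -⟩ := h.disp r T (κ := fun ω => imax I hI (X r ω))
    (imax_meas I hI (h.adX r)) hB
  have i1 : Integrable (fun ω => I.sup' hI (X (r + T) ω) - I.sup' hI (X r ω)) P :=
    (h.intM hν I hI (r + T)).sub (h.intM hν I hI r)
  have e : ∀ ω, I.sup' hI (X (r + T) ω) - X (r + T) ω (imax I hI (X r ω)) =
      (I.sup' hI (X (r + T) ω) - I.sup' hI (X r ω)) -
        (X (r + T) ω (imax I hI (X r ω)) - X r ω (imax I hI (X r ω))) := by
    intro ω
    rw [(imax_spec I hI (X r ω)).2]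
    ring
  have i2 : Integrable (fun ω => I.sup' hI (X (r + T) ω) -
      X (r + T) ω (imax I hI (X r ω))) P := by
    simp only [e]
    exact i1.sub d1
  have mm : Measurable (fun ω => I.sup' hI (X (r + T) ω) -
      X (r + T) ω (imax I hI (X r ω))) :=
    ((h.adM I hI (r + T)).mono (h.F.le _) le_rfl).sub
      (h.sel_meas r T (κ := fun ω => imax I hI (X r ω)) (imax_meas I hI (h.adX r)))
  refine (markov1 (κ := κ) hBm mm i2 fun ω => ?_).trans ?_
  · have s1 := imax_spec I hI (X r ω)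
    have s2 : X (r + T) ω (imax I hI (X r ω)) ≤ I.sup' hI (X (r + T) ω) := Finset.le_sup' _ s1.1
    linarith
  · simp only [e]
    rw [integral_sub i1.integrableOn d1.integrableOn, d2]
    have m1 := h.mean_sup hν I hI r T hB
    linarith

theorem tail_right (h : HWSolution P β ν x X) (hν : FiniteSpeed ν) (J : Finset (Fin n))
    (hJ : J.Nonempty) (r T : ℝ≥0) {B : Set Ω} (hB : MeasurableSet[h.F r] B) (κ : ℝ) :
    κ * P.real ({ω | κ ≤ X (r + T) ω (imin J hJ (X r ω)) - J.inf' hJ (X (r + T) ω)} ∩ B) ≤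
      spd ν * T * P.real B := by
  have hBm : MeasurableSet B := h.F.le r _ hB
  obtain ⟨d1, d2, -⟩ := h.disp r T (κ := fun ω => imin J hJ (X r ω))
    (imin_meas J hJ (h.adX r)) hB
  have i1 : Integrable (fun ω => J.inf' hJ (X (r + T) ω) - J.inf' hJ (X r ω)) P :=
    (h.intL hν J hJ (r + T)).sub (h.intL hν J hJ r)
  have e : ∀ ω, X (r + T) ω (imin J hJ (X r ω)) - J.inf' hJ (X (r + T) ω) =
      (X (r + T) ω (imin J hJ (X r ω)) - X r ω (imin J hJ (X r ω))) -
      (J.inf' hJ (X (r + T) ω) - J.inf' hJ (X r ω)) := by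
    intro ω
    rw [(imin_spec J hJ (X r ω)).2]
    ring
  have i2 : Integrable (fun ω => X (r + T) ω (imin J hJ (X r ω)) -
      J.inf' hJ (X (r + T) ω)) P := by
    simp only [e]
    exact d1.sub i1
  have mm : Measurable (fun ω => X (r + T) ω (imin J hJ (X r ω)) -
      J.inf' hJ (X (r + T) ω)) :=
    (h.sel_meas r T (κ := fun ω => imin J hJ (X r ω)) (imin_meas J hJ (h.adX r))).sub
      ((h.adL J hJ (r + T)).mono (h.F.le _) le_rfl)
  refine (markov1 (κ := κ) hBm mm i2 fun ω => ?_).trans ?_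
  · have s1 := imin_spec J hJ (X r ω)
    have s2 : J.inf' hJ (X (r + T) ω) ≤ X (r + T) ω (imin J hJ (X r ω)) := Finset.inf'_le _ s1.1
    linarith
  · simp only [e]
    rw [integral_sub d1.integrableOn i1.integrableOn, d2]
    have m1 := h.mean_inf hν J hJ r T hB
    linarith

/-- The constants of a move. -/
structure Mv (β : ℝ) (ν : Measure unitInterval) (κ : ℝ) (t0 : ℝ≥0) : Prop where
  pos : 0 < κ
  half : κ ≤ 1 / 2
  beta : |β| * κ ≤ 1 / 4
  speed : spd ν * κ ≤ pt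
  sq : κ ^ 2 = 6 * t0

theorem exists_mv (β : ℝ) (ν : Measure unitInterval) : ∃ κ t0, Mv β ν κ t0 := by
  have h1 := spd_nonneg ν
  have h2 := abs_nonneg β
  have h3 := pt_pos
  set κ : ℝ := min (1 / 2) (min (1 / (4 * (|β| + 1))) (pt / (spd ν + 1))) with hκ
  have hpos : 0 < κ := by
    rw [hκ]
    refine lt_min (by norm_num) (lt_min (by positivity) (by positivity))
  refine ⟨κ, ⟨κ ^ 2 / 6, by positivity⟩, hpos, min_le_left _ _, ?_, ?_, ?_⟩
  · have h4 : κ ≤ 1 / (4 * (|β| + 1)) := (min_le_right _ _).trans (min_le_left _ _)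
    rw [le_div_iff₀ (by positivity)] at h4
    nlinarith
  · have h4 : κ ≤ pt / (spd ν + 1) := (min_le_right _ _).trans (min_le_right _ _)
    rw [le_div_iff₀ (by positivity)] at h4
    nlinarith
  · change κ ^ 2 = 6 * (κ ^ 2 / 6)
    ring

theorem Mv.t_eq {κ : ℝ} {t0 : ℝ≥0} (c : Mv β ν κ t0) : (t0 : ℝ) = κ ^ 2 / 6 := by
  have := c.sq
  linarith

theorem Mv.t_pos {κ : ℝ} {t0 : ℝ≥0} (c : Mv β ν κ t0) : (0 : ℝ) < t0 := by
  have := c.pos
  rw [c.t_eq]; positivity

theorem Mv.bt {κ : ℝ} {t0 : ℝ≥0} (c : Mv β ν κ t0) : |β| * t0 ≤ κ / 24 := by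
  have h1 := c.pos
  have h2 := mul_le_mul_of_nonneg_right c.beta h1.le
  rw [c.t_eq]
  nlinarith

theorem Mv.tail {κ : ℝ} {t0 : ℝ≥0} (c : Mv β ν κ t0) {a b : ℝ} (hb : 0 ≤ b)
    (h : κ * a ≤ spd ν * t0 * b) : a ≤ pt / 6 * b := by
  have h1 := c.pos
  rw [c.t_eq] at h
  have h2 : spd ν * κ * b ≤ pt * b := mul_le_mul_of_nonneg_right c.speed hb
  have h3 : κ * a ≤ κ * (pt / 6 * b) := by
    have h4 := mul_le_mul_of_nonneg_left h2 h1.le
    nlinarith
  exact le_of_mul_le_mul_left h3 h1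

/-- The speed of the tube of the left particle. -/
theorem Mv.expo {κ : ℝ} {t0 : ℝ≥0} (c : Mv β ν κ t0) {d e : ℝ} (hd : |d| ≤ κ)
    (he : |e| ≤ 2 * κ) :
    |(d + e - β * t0) / t0| * κ + ((d + e - β * t0) / t0) ^ 2 * t0 ≤ 120 := by
  refine expo_bd c.pos c.sq ?_
  rw [mul_div_cancel₀ _ c.t_pos.ne']
  have h1 := c.bt
  have h2 := abs_sub (d + e) (β * t0)
  have h3 := abs_add_le d e
  rw [abs_mul, abs_of_nonneg (NNReal.coe_nonneg t0)] at h2
  have h4 := c.pos
  linarith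

end HWSolution

end Pool.Agent.Y982.HW
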