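import Mathlib
import Pool.Agent.Y982.HW.Move

open MeasureTheory Filter Topology
open scoped NNReal ENNReal

namespace Pool.Agent.Y982.HW

namespace HWSolution

set_option linter.unusedSectionVars false

variable {Ω : Type*} [MeasurableSpace Ω] {P : Measure Ω} [IsProbabilityMeasure P] {β : ℝ}
  {ν : Measure unitInterval} [IsFiniteMeasure ν] {n : ℕ} {x : Fin n → ℝ}
  {X : ℝ≥0 → Ω → Fin n → ℝ}

/-- the event that `[z, z+1]` lies in the gap of `I` at time `r` -/
def at_tgt (X : ℝ≥0 → Ω → Fin n → ℝ) (r : ℝ≥0) (z : ℝ) (I : Finset (Fin n)) : Set Ω :=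
  {ω | z ∈ tgtS I (X r ω)}

theorem at_tgt_meas (h : HWSolution P β ν x X) (r : ℝ≥0) (z : ℝ) (I : Finset (Fin n)) :
    MeasurableSet[h.F r] (at_tgt X r z I) := by
  have h1 : at_tgt X r z I = (⋂ i, ⋂ (_ : i ∈ I), {ω | X r ω i < z}) ∩
      ⋂ i, ⋂ (_ : i ∉ I), {ω | z + 1 < X r ω i} := by
    ext ω; simp [at_tgt, tgtS]
  rw [h1]
  refine (MeasurableSet.iInter fun i => MeasurableSet.iInter fun _ => ?_).inter
    (MeasurableSet.iInter fun i => MeasurableSet.iInter fun _ => ?_)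
  · exact (h.adXi r i) measurableSet_Iio
  · exact (h.adXi r i) measurableSet_Ioi

theorem cover3 {G S EL ER B : Set Ω} (hsub : S ∩ B ⊆ (G ∩ B) ∪ ((EL ∩ B) ∪ (ER ∩ B)))
    {p : ℝ} (hp : 0 ≤ p) (h1 : p * P.real B ≤ P.real (S ∩ B))
    (h2 : P.real (EL ∩ B) ≤ p / 6 * P.real B) (h3 : P.real (ER ∩ B) ≤ p / 6 * P.real B) :
    p / 2 * P.real B ≤ P.real (G ∩ B) := by
  have h4 : P.real (S ∩ B) ≤ P.real (G ∩ B) + (P.real (EL ∩ B) + P.real (ER ∩ B)) :=
    (measureReal_mono hsub).trans ((measureReal_union_le _ _).trans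
      (add_le_add le_rfl (measureReal_union_le _ _)))
  have h5 : 0 ≤ P.real B := measureReal_nonneg
  have h6 : 0 ≤ p * P.real B := mul_nonneg hp h5
  linarith

/-- A free unit interval moves with positive probability. -/
theorem move (h : HWSolution P β ν x X) (hν : FiniteSpeed ν) {κ : ℝ} {t0 : ℝ≥0}
    (c : Mv β ν κ t0) (I : Finset (Fin n)) (r : ℝ≥0) {z z' : ℝ} (hz : |z' - z| ≤ κ) :
    pt / 2 * P.real (at_tgt X r z I) ≤
      P.real (at_tgt X (r + t0) z' I ∩ at_tgt X r z I) := by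
  set B := at_tgt X r z I with hBdef
  have hB : MeasurableSet[h.F r] B := h.at_tgt_meas r z I
  have hB0 : MeasurableSet[(shiftF h.F r) 0] B := by
    rw [shiftF_apply, add_zero]; exact hB
  have hPB : 0 ≤ P.real B := measureReal_nonneg
  have ht0 := c.t_pos
  set d : ℝ := z' - z with hd
  have e2 : |(-(2 * κ) : ℝ)| ≤ 2 * κ := by
    rw [abs_neg, abs_of_nonneg (by linarith [c.pos])]
  have e3 : |(2 * κ : ℝ)| ≤ 2 * κ := by
    rw [abs_of_nonneg (by linarith [c.pos])]
  set v : Fin 2 → ℝ := ![(d + -(2 * κ) - β * t0) / t0, (d + 2 * κ - β * t0) / t0] with hv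
  have hv0 : v 0 = (d + -(2 * κ) - β * t0) / t0 := rfl
  have hv1 : v 1 = (d + 2 * κ - β * t0) / t0 := rfl
  have v0 : (t0 : ℝ) * v 0 = d + -(2 * κ) - β * t0 := by
    rw [hv0, mul_div_cancel₀ _ ht0.ne']
  have v1 : (t0 : ℝ) * v 1 = d + 2 * κ - β * t0 := by
    rw [hv1, mul_div_cancel₀ _ ht0.ne']
  have b0 : |v 0| * κ + v 0 ^ 2 * t0 ≤ 120 := by
    rw [hv0]
    exact c.expo hz e2
  have b1 : |v 1| * κ + v 1 ^ 2 * t0 ≤ 120 := by
    rw [hv1]
    exact c.expo hz e3
  -- left side of the target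
  have left : ∀ hI : I.Nonempty, ∀ ω ∈ B,
      |(X (r + t0) ω (imax I hI (X r ω)) - β * ((r + t0 : ℝ≥0) : ℝ)) -
        (X (r + 0) ω (imax I hI (X r ω)) - β * ((r + 0 : ℝ≥0) : ℝ)) - t0 * v 0| ≤ κ →
      I.sup' hI (X (r + t0) ω) - X (r + t0) ω (imax I hI (X r ω)) < κ →
      ∀ i ∈ I, X (r + t0) ω i < z' := by
    intro hI ω hω h1 h2 i hi
    have h3 : X (r + t0) ω i ≤ I.sup' hI (X (r + t0) ω) := Finset.le_sup' _ hi
    have h4 := (imax_spec I hI (X r ω)).1
    have h5 := hω.1 _ h4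
    have h6 := (abs_le.mp h1).2
    rw [v0] at h6
    simp only [add_zero, NNReal.coe_add] at h6
    linarith
  -- right side of the target
  have right : ∀ hJ : Iᶜ.Nonempty, ∀ ω ∈ B,
      |(X (r + t0) ω (imin Iᶜ hJ (X r ω)) - β * ((r + t0 : ℝ≥0) : ℝ)) -
        (X (r + 0) ω (imin Iᶜ hJ (X r ω)) - β * ((r + 0 : ℝ≥0) : ℝ)) - t0 * v 1| ≤ κ →
      X (r + t0) ω (imin Iᶜ hJ (X r ω)) - Iᶜ.inf' hJ (X (r + t0) ω) < κ →
      ∀ i ∉ I, z' + 1 < X (r + t0) ω i := by
    intro hJ ω hω h1 h2 i hi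
    have h3 : Iᶜ.inf' hJ (X (r + t0) ω) ≤ X (r + t0) ω i :=
      Finset.inf'_le _ (Finset.mem_compl.mpr hi)
    have h4 := (imin_spec Iᶜ hJ (X r ω)).1
    have h5 := hω.2 _ (Finset.mem_compl.mp h4)
    have h6 := (abs_le.mp h1).1
    rw [v1] at h6
    simp only [add_zero, NNReal.coe_add] at h6
    linarith
  rcases I.eq_empty_or_nonempty with hI | hI
  · rcases (Iᶜ).eq_empty_or_nonempty with hJ | hJ
    · -- no particles at all
      have h1 : at_tgt X (r + t0) z' I ∩ B = B := by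
        apply Set.inter_eq_right.mpr
        intro ω _
        refine ⟨fun i hi => ?_, fun i hi => ?_⟩
        · rw [hI] at hi; exact absurd hi (Finset.notMem_empty i)
        · have := Finset.mem_compl.mpr hi
          rw [hJ] at this
          exact absurd this (Finset.notMem_empty i)
      rw [h1]
      have h2 : pt / 2 ≤ 1 := by
        have : Real.exp (-240) ≤ 1 := Real.exp_le_one_iff.mpr (by norm_num)
        unfold pt
        linarith
      nlinarith
    · -- only particles to the right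
      have w1 := h.bm_select r (κ := fun ω => imin Iᶜ hJ (X r ω)) (imin_meas Iᶜ hJ (h.adX r))
      have t := tube_one w1 (v 1) c.pos c.sq hB0
      have t' := pt_of (by linarith) measureReal_nonneg t
      have u := c.tail hPB (h.tail_right hν Iᶜ hJ r t0 hB κ)
      refine cover3 (EL := ∅) (ER := {ω | κ ≤ X (r + t0) ω (imin Iᶜ hJ (X r ω)) -
        Iᶜ.inf' hJ (X (r + t0) ω)}) ?_ pt_pos.le t' ?_ u
      · rintro ω ⟨h1, h2⟩
        by_cases h3 : κ ≤ X (r + t0) ω (imin Iᶜ hJ (X r ω)) - Iᶜ.inf' hJ (X (r + t0) ω)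
        · right; right; exact ⟨h3, h2⟩
        · left
          refine ⟨⟨fun i hi => ?_, ?_⟩, h2⟩
          · rw [hI] at hi; exact absurd hi (Finset.notMem_empty i)
          · exact right hJ ω h2 h1 (not_le.mp h3)
      · rw [Set.empty_inter, measureReal_empty]
        have := pt_pos
        positivity
  · rcases (Iᶜ).eq_empty_or_nonempty with hJ | hJ
    · -- only particles to the left
      have w0 := h.bm_select r (κ := fun ω => imax I hI (X r ω)) (imax_meas I hI (h.adX r))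
      have t := tube_one w0 (v 0) c.pos c.sq hB0
      have t' := pt_of (by linarith) measureReal_nonneg t
      have u := c.tail hPB (h.tail_left hν I hI r t0 hB κ)
      refine cover3 (ER := ∅) (EL := {ω | κ ≤ I.sup' hI (X (r + t0) ω) -
        X (r + t0) ω (imax I hI (X r ω))}) ?_ pt_pos.le t' u ?_
      · rintro ω ⟨h1, h2⟩
        by_cases h3 : κ ≤ I.sup' hI (X (r + t0) ω) - X (r + t0) ω (imax I hI (X r ω))
        · right; left; exact ⟨h3, h2⟩
        · left
          refine ⟨⟨?_, fun i hi => ?_⟩, h2⟩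
          · exact left hI ω h2 h1 (not_le.mp h3)
          · have := Finset.mem_compl.mpr hi
            rw [hJ] at this
            exact absurd this (Finset.notMem_empty i)
      · rw [Set.empty_inter, measureReal_empty]
        have := pt_pos
        positivity
    · -- particles on both sides
      have w0 := h.bm_select r (κ := fun ω => imax I hI (X r ω)) (imax_meas I hI (h.adX r))
      have w1 := h.bm_select r (κ := fun ω => imin Iᶜ hJ (X r ω)) (imin_meas Iᶜ hJ (h.adX r))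
      have g := (h.gap_inst hν hI hJ r).qD
      have q : Martingale (fun t ω =>
          ((X (r + t) ω (imin Iᶜ hJ (X r ω)) - β * ((r + t : ℝ≥0) : ℝ)) -
          (X (r + t) ω (imax I hI (X r ω)) - β * ((r + t : ℝ≥0) : ℝ))) ^ 2 -
          2 * away (fun t ω => (X (r + t) ω (imin Iᶜ hJ (X r ω)) - β * ((r + t : ℝ≥0) : ℝ)) -
          (X (r + t) ω (imax I hI (X r ω)) - β * ((r + t : ℝ≥0) : ℝ))) t ω) (shiftF h.F r) P := by
        have e1 : (fun (t : ℝ≥0) ω =>
            (X (r + t) ω (imin Iᶜ hJ (X r ω)) - β * ((r + t : ℝ≥0) : ℝ)) -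
            (X (r + t) ω (imax I hI (X r ω)) - β * ((r + t : ℝ≥0) : ℝ))) =
            fun t ω => X (r + t) ω (imin Iᶜ hJ (X r ω)) - X (r + t) ω (imax I hI (X r ω)) := by
          funext t ω; ring
        have e1' : ∀ (t : ℝ≥0) ω,
            (X (r + t) ω (imin Iᶜ hJ (X r ω)) - β * ((r + t : ℝ≥0) : ℝ)) -
            (X (r + t) ω (imax I hI (X r ω)) - β * ((r + t : ℝ≥0) : ℝ)) =
            X (r + t) ω (imin Iᶜ hJ (X r ω)) - X (r + t) ω (imax I hI (X r ω)) := by
          intro t ω; ring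
        rw [e1]
        simp only [e1']
        exact g
      have hsep : ∀ ω ∈ B, 1 < (X (r + 0) ω (imin Iᶜ hJ (X r ω)) - β * ((r + 0 : ℝ≥0) : ℝ)) -
          (X (r + 0) ω (imax I hI (X r ω)) - β * ((r + 0 : ℝ≥0) : ℝ)) := by
        intro ω hω
        have h1 := hω.1 _ (imax_spec I hI (X r ω)).1
        have h2 := hω.2 _ (Finset.mem_compl.mp (imin_spec Iᶜ hJ (X r ω)).1)
        simp only [add_zero]
        linarith
      have hv01 : v 0 ≤ v 1 := by
        have h1 : (t0 : ℝ) * v 0 ≤ t0 * v 1 := by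
          rw [v0, v1]
          linarith [c.pos]
        exact le_of_mul_le_mul_left h1 ht0
      have t := tube_two w0 w1 q hv01 c.pos c.half c.sq hB0 hsep
      have t' := pt_of (by linarith) measureReal_nonneg t
      have u0 := c.tail hPB (h.tail_left hν I hI r t0 hB κ)
      have u1 := c.tail hPB (h.tail_right hν Iᶜ hJ r t0 hB κ)
      refine cover3 (EL := {ω | κ ≤ I.sup' hI (X (r + t0) ω) -
        X (r + t0) ω (imax I hI (X r ω))}) (ER := {ω | κ ≤ X (r + t0) ω (imin Iᶜ hJ (X r ω)) -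
        Iᶜ.inf' hJ (X (r + t0) ω)}) ?_ pt_pos.le t' u0 u1
      rintro ω ⟨h1, h2⟩
      by_cases h3 : κ ≤ I.sup' hI (X (r + t0) ω) - X (r + t0) ω (imax I hI (X r ω))
      · right; left; exact ⟨h3, h2⟩
      · by_cases h4 : κ ≤ X (r + t0) ω (imin Iᶜ hJ (X r ω)) - Iᶜ.inf' hJ (X (r + t0) ω)
        · right; right; exact ⟨h4, h2⟩
        · left
          exact ⟨⟨left hI ω h2 h1.1 (not_le.mp h3), right hJ ω h2 h1.2 (not_le.mp h4)⟩, h2⟩

end HWSolution

end Pool.Agent.Y982.HW
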