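import Mathlib
import Pool.Agent.Y982.HW.Move2
import Pool.Agent.Y982.HW.Fin

open MeasureTheory ProbabilityTheory Filter Topology
open scoped NNReal ENNReal

namespace Pool.Agent.Y982.HW

namespace HWSolution

set_option linter.unusedSectionVars false

variable {Ω : Type*} [MeasurableSpace Ω] {P : Measure Ω} [IsProbabilityMeasure P] {β : ℝ}
  {ν : Measure unitInterval} [IsFiniteMeasure ν] {n : ℕ} {x : Fin n → ℝ}
  {X : ℝ≥0 → Ω → Fin n → ℝ}

/-- the event that `[z, z+1]` is free of particles at time `r` -/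
def free (X : ℝ≥0 → Ω → Fin n → ℝ) (r : ℝ≥0) (z : ℝ) : Set Ω :=
  {ω | ∀ i, X r ω i ∈ (Set.Icc z (z + 1))ᶜ}

theorem free_sum (h : HWSolution P β ν x X) (r : ℝ≥0) (z : ℝ) :
    P.real (free X r z) = ∑ I : Finset (Fin n), P.real (at_tgt X r z I) := by
  classical
  have hd : Set.PairwiseDisjoint (↑(Finset.univ : Finset (Finset (Fin n))))
      (fun I => at_tgt X r z I) := by
    intro I _ J _ hIJ
    rw [Function.onFun, Set.disjoint_left]
    intro ω h1 h2
    apply hIJ
    ext i
    constructor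
    · intro hi
      by_contra hj
      have h3 := h1.1 i hi
      have h4 := h2.2 i hj
      linarith
    · intro hj
      by_contra hi
      have h3 := h2.1 i hj
      have h4 := h1.2 i hi
      linarith
  have h1 := measureReal_biUnion_finset (μ := P)
    (s := (Finset.univ : Finset (Finset (Fin n)))) (f := fun I => at_tgt X r z I) hd
    (fun I _ => h.F.le r _ (h.at_tgt_meas r z I))
  rw [← h1]
  congr 1
  ext ω
  simp only [Set.mem_iUnion, Finset.mem_univ, exists_true_left]
  constructor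
  · intro hω
    refine ⟨Finset.univ.filter fun i => X r ω i < z, fun i hi => ?_, fun i hi => ?_⟩
    · exact (Finset.mem_filter.mp hi).2
    · have h2 : ¬ (X r ω i < z) := fun h3 => hi (by simp [h3])
      have h3 : ¬ (z ≤ X r ω i ∧ X r ω i ≤ z + 1) := hω i
      by_contra h4
      exact h3 ⟨not_lt.mp h2, not_lt.mp h4⟩
  · rintro ⟨I, h2⟩ i hi
    by_cases h3 : i ∈ I
    · exact absurd (h2.1 i h3) (not_lt.mpr hi.1)
    · exact absurd (h2.2 i h3) (not_lt.mpr hi.2)

theorem free_step (h : HWSolution P β ν x X) (hν : FiniteSpeed ν) {κ : ℝ} {t0 : ℝ≥0}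
    (c : Mv β ν κ t0) (r : ℝ≥0) {z z' : ℝ} (hz : |z' - z| ≤ κ) :
    pt / 2 * P.real (free X r z) ≤ P.real (free X (r + t0) z') := by
  rw [h.free_sum, h.free_sum, Finset.mul_sum]
  refine Finset.sum_le_sum fun I _ => (h.move hν c I r hz).trans ?_
  exact measureReal_mono Set.inter_subset_left

theorem free_iter (h : HWSolution P β ν x X) (hν : FiniteSpeed ν) {κ : ℝ} {t0 : ℝ≥0}
    (c : Mv β ν κ t0) (r : ℝ≥0) (k : ℕ) {z z' : ℝ} (hz : |z' - z| ≤ k * κ) :
    (pt / 2) ^ k * P.real (free X r z) ≤ P.real (free X (r + k * t0) z') := by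
  have hpt := pt_pos
  induction k generalizing z' with
  | zero =>
    have h1 : z' = z := by
      have : |z' - z| ≤ 0 := by simpa using hz
      have := abs_nonpos_iff.mp this
      linarith
    simp [h1]
  | succ k ih =>
    have hk : (0 : ℝ) < (k : ℝ) + 1 := by positivity
    set w : ℝ := z + (z' - z) * (k / (k + 1)) with hw
    have h1 : |w - z| ≤ k * κ := by
      have e : w - z = (z' - z) * (k / (k + 1)) := by rw [hw]; ring
      rw [e, abs_mul, abs_of_nonneg (by positivity : (0 : ℝ) ≤ k / (k + 1))]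
      have h2 : |z' - z| * (k / (k + 1)) ≤ ((k : ℝ) + 1) * κ * (k / (k + 1)) := by
        refine mul_le_mul_of_nonneg_right ?_ (by positivity)
        push_cast at hz
        exact hz
      refine h2.trans (le_of_eq ?_)
      field_simp
    have h2 : |z' - w| ≤ κ := by
      have e : z' - w = (z' - z) * (1 / (k + 1)) := by
        rw [hw]; field_simp; ring
      rw [e, abs_mul, abs_of_nonneg (by positivity : (0 : ℝ) ≤ 1 / ((k : ℝ) + 1))]
      have h3 : |z' - z| * (1 / ((k : ℝ) + 1)) ≤ ((k : ℝ) + 1) * κ * (1 / (k + 1)) := by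
        refine mul_le_mul_of_nonneg_right ?_ (by positivity)
        push_cast at hz
        exact hz
      refine h3.trans (le_of_eq ?_)
      field_simp
    have h3 := ih h1
    have h4 := h.free_step hν c (r + k * t0) h2
    have h5 : r + k * t0 + t0 = r + ((k + 1 : ℕ) : ℝ≥0) * t0 := by
      push_cast; ring
    rw [h5] at h4
    calc (pt / 2) ^ (k + 1) * P.real (free X r z)
        = pt / 2 * ((pt / 2) ^ k * P.real (free X r z)) := by ring
      _ ≤ pt / 2 * P.real (free X (r + k * t0) w) :=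
          mul_le_mul_of_nonneg_left h3 (by positivity)
      _ ≤ _ := h4

end HWSolution

section flow

variable {Ω : Type*} [MeasurableSpace Ω] {P : Measure Ω} [IsProbabilityMeasure P] {β : ℝ}
  {ν : Measure unitInterval} [IsFiniteMeasure ν] {K : ℝ → ℝ → Kernel (Ω × ℝ) ℝ}

theorem coMass_lim (hK : IsKernelFlow P K) (t z : ℝ) :
    Tendsto (fun n : ℕ => ∫⁻ ω, coMass K t (ω, z) ^ n ∂P) atTop
      (𝓝 (P {ω | K 0 t (ω, 0) (Set.Icc z (z + 1)) = 0})) := by
  have hm := coMass_meas hK t
  have hmz : Measurable fun ω => coMass K t (ω, z) := hm.comp (measurable_id.prodMk measurable_const)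
  have h3 : P {ω | K 0 t (ω, 0) (Set.Icc z (z + 1)) = 0} =
      ∫⁻ ω, (if coMass K t (ω, z) = 1 then 1 else 0) ∂P := by
    have h4 : {ω | K 0 t (ω, 0) (Set.Icc z (z + 1)) = 0} = {ω | coMass K t (ω, z) = 1} := by
      ext ω
      exact (coMass_one hK t z ω).symm
    have h5 : MeasurableSet {ω | coMass K t (ω, z) = 1} := hmz (measurableSet_singleton 1)
    rw [h4, ← lintegral_indicator_one h5]
    refine lintegral_congr fun ω => ?_
    by_cases h6 : coMass K t (ω, z) = 1
    · rw [if_pos h6, Set.indicator_of_mem (by exact h6)]; rfl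
    · rw [if_neg h6, Set.indicator_of_notMem (by exact h6)]
  rw [h3]
  refine tendsto_lintegral_of_dominated_convergence (fun _ => 1)
    (fun n => hmz.pow_const n) (fun n => Eventually.of_forall fun ω => ?_) (by simp)
    (Eventually.of_forall fun ω => pow_tendsto (coMass_le hK t (ω, z)))
  exact pow_le_one₀ (zero_le) (coMass_le hK t (ω, z))

theorem flow_move (hK : IsHowittWarren β ν P K) (hν : FiniteSpeed ν) {κ : ℝ} {t0 : ℝ≥0}
    (c : HWSolution.Mv β ν κ t0) {t : ℝ} (ht : 0 ≤ t) (k : ℕ) {z z' : ℝ}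
    (hz : |z' - z| ≤ k * κ) :
    ENNReal.ofReal ((pt / 2) ^ k) * P {ω | K 0 t (ω, 0) (Set.Icc z (z + 1)) = 0} ≤
      P {ω | K 0 (t + k * t0) (ω, 0) (Set.Icc z' (z' + 1)) = 0} := by
  have hpt := pt_pos
  set t' : ℝ≥0 := ⟨t, ht⟩ with ht'
  have h1 : ∀ n : ℕ, ENNReal.ofReal ((pt / 2) ^ k) * ∫⁻ ω, coMass K t (ω, z) ^ n ∂P ≤
      ∫⁻ ω, coMass K (t + k * t0) (ω, z') ^ n ∂P := by
    intro n
    obtain ⟨Ω', mΩ', P', X, hP', hX, hmom⟩ := hK.npoint n (fun _ => 0)
    have h2 := hX.free_iter hν c t' k hz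
    have h3 : ∀ (s : ℝ≥0) (y : ℝ), P' (HWSolution.free X s y) =
        ∫⁻ ω, coMass K s (ω, y) ^ n ∂P := by
      intro s y
      have h3 := hmom s (fun _ => (Set.Icc y (y + 1))ᶜ) (fun _ => measurableSet_Icc.compl)
      have h4 : P' (HWSolution.free X s y) = P' {ω | ∀ i, X s ω i ∈ (Set.Icc y (y + 1))ᶜ} := rfl
      rw [h4, h3]
      refine lintegral_congr fun ω => ?_
      rw [Finset.prod_const, Finset.card_univ, Fintype.card_fin]
      rfl
    have h4 := h3 t' z
    have h5 := h3 (t' + k * t0) z'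
    have e1 : ((t' : ℝ≥0) : ℝ) = t := rfl
    have e2 : ((t' + k * t0 : ℝ≥0) : ℝ) = t + k * t0 := by push_cast; rfl
    rw [e1] at h4
    rw [e2] at h5
    rw [← h4, ← h5, ← ofReal_measureReal, ← ofReal_measureReal, ← ENNReal.ofReal_mul (by positivity)]
    exact ENNReal.ofReal_le_ofReal h2
  have l1 := ENNReal.Tendsto.const_mul (a := ENNReal.ofReal ((pt / 2) ^ k))
    (coMass_lim (P := P) hK.toIsKernelFlow t z) (Or.inr ENNReal.ofReal_ne_top)
  exact le_of_tendsto_of_tendsto' l1 (coMass_lim (P := P) hK.toIsKernelFlow (t + k * t0) z') h1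

/-- Uniform lower bound: a Howitt-Warren flow with finite speed gives no mass to `[y, y+1]` with
probability bounded away from zero, uniformly in `y` and in large times. -/
theorem flow_zero (hK : IsHowittWarren β ν P K) (hν : FiniteSpeed ν) :
    ∃ δ : ℝ≥0∞, 0 < δ ∧ ∃ T : ℝ, ∀ t ≥ T, ∀ y : ℝ,
      δ ≤ P {ω | K 0 t (ω, 0) (Set.Icc y (y + 1)) = 0} := by
  obtain ⟨p⟩ := exists_par β ν
  obtain ⟨κ, t0, c⟩ := HWSolution.exists_mv β ν
  have hpt := pt_pos
  have hC := p.hC
  have hκp := p.κ_pos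
  have hC4 := p.C4_ge
  have hκ := c.pos
  have h8 : 0 ≤ 8 * p.C4 / p.κ := by positivity
  set R : ℝ := 4 * p.C + 8 * p.C4 / p.κ with hR
  have hRpos : 0 < R := by linarith
  obtain ⟨k, hk⟩ := exists_nat_ge (R / κ)
  rw [div_le_iff₀ hκ] at hk
  refine ⟨ENNReal.ofReal ((pt / 2) ^ k) * ENNReal.ofReal (p.κ / 8), ?_, p.T + k * t0, ?_⟩
  · exact ENNReal.mul_pos (by rw [ne_eq, ENNReal.ofReal_eq_zero, not_le]; positivity)
      (by rw [ne_eq, ENNReal.ofReal_eq_zero, not_le]; positivity)
  · intro t ht y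
    set s : ℝ := t - k * t0 with hs
    have hsT : p.T ≤ s := by rw [hs]; linarith
    have hs0 : 0 ≤ s := (NNReal.coe_nonneg _).trans hsT
    have h1 := flow_window hK hν p (a := y - R / 2) (b := y + R / 2) (by rw [← hR]; linarith) hsT
    have h2 : ∃ z ∈ Set.Icc (y - R / 2) (y + R / 2),
        ENNReal.ofReal (p.κ / 8) ≤ P {ω | K 0 s (ω, 0) (Set.Icc z (z + 1)) = 0} := by
      by_contra hcon
      push Not at hcon
      have h3 : ∫⁻ z in Set.Icc (y - R / 2) (y + R / 2),
          P {ω | K 0 s (ω, 0) (Set.Icc z (z + 1)) = 0} ≤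
          ∫⁻ _ in Set.Icc (y - R / 2) (y + R / 2), ENNReal.ofReal (p.κ / 8) :=
        setLIntegral_mono measurable_const fun z hz => (hcon z hz).le
      rw [setLIntegral_const, Real.volume_Icc, ← ENNReal.ofReal_mul (by positivity)] at h3
      have h4 := h1.trans h3
      rw [ENNReal.ofReal_le_ofReal_iff (by
        have : 0 ≤ (y + R / 2 - (y - R / 2)) := by linarith
        positivity)] at h4
      have h5 : y + R / 2 - (y - R / 2) = R := by ring
      rw [h5] at h4
      have h6 : 0 < p.κ * R := by positivity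
      nlinarith
    obtain ⟨z, hz, h3⟩ := h2
    have h4 : |y - z| ≤ k * κ := by
      rw [abs_le]
      constructor
      · linarith [hz.2]
      · linarith [hz.1]
    have h5 := flow_move hK hν c hs0 k h4
    have h6 : s + k * t0 = t := by rw [hs]; ring
    rw [h6] at h5
    exact (mul_le_mul_right h3 _).trans h5

end flow

end Pool.Agent.Y982.HW
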